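import Pool.Agent.H.MP_b2d7dd_lc.TD.Snd
import Pool.Agent.H.MP_b2d7dd_lc.TI.Read

/-!
# Module Acc: the test on strings

Compare TC/Acc.
-/

namespace Pool.Agent.TD

open Pool.Agent.TI (Tm Tok names tokz Valid)
open Pool.Agent.TE (bl)
open Pool.Agent.TC (Pt rf rf_pos evl Mo Su nrm Pr Gx Lx h1 h2 al ga lcP MB Vn Coh Fai Eqv Bas crd chi)
open Pool.Agent.TC (muB Pb Stk subs exF cob eN eP uu vv Kc Qw Rr kk SS AA KK)
open Pool.Agent.H.MP_5be563_lc.PT

private theorem Acc_can (s t : Tm) : ∀ q ∈ s.toks ++ t.toks, Pool.Agent.TI.Can q := by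
  intro q hq
  rcases List.mem_append.1 hq with h | h
  · exact s.can_toks q h
  · exact t.can_toks q h

private theorem Acc_tokz {s t : Tm} {x : List Bool} (hx : x = s.code ++ t.code) :
    tokz x = some (s.toks ++ t.toks) := by
  have hT : x = (s.toks ++ t.toks).flatMap Pool.Agent.TI.tokCode := by
    rw [hx, s.code_eq, t.code_eq, List.flatMap_append]
  rw [hT]
  exact Pool.Agent.TI.tokz_toks (Acc_can s t)

private theorem Acc_all {n : ℕ} {T : List Tok} {r : List Bool} (h : shapeW n T = true) :
    acceptT n T r = true ↔ ∀ j < KK n, test1 n T (bl (AA n) r j) = true := by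
  unfold acceptT
  rw [h, Bool.true_and, List.all_eq_true]
  simp only [List.mem_range]

/-- The test on the string of an identity. -/
theorem accept_code {k : ℕ} {s t : Tm} {x : List Bool}
    (hx : x = s.code ++ t.code) (hn : wt s + wt t ≤ x.length ^ k) (r : List Bool) :
    accept k x r = true ↔
      ∀ j < KK (x.length ^ k), test1 (x.length ^ k) (s.toks ++ t.toks)
        (bl (AA (x.length ^ k)) r j) = true := by
  have hsh : shapeW (x.length ^ k) (s.toks ++ t.toks) = true :=
    (shapeW_iff (Acc_can s t)).2 ⟨s, t, hn, rfl⟩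
  have hacc : accept k x r = acceptT (x.length ^ k) (s.toks ++ t.toks) r := by
    unfold accept
    rw [Acc_tokz hx]
  rw [hacc, Acc_all hsh]

theorem accept_imp {k : ℕ} {x r : List Bool} (h : accept k x r = true) :
    ∃ s t : Tm, wt s + wt t ≤ x.length ^ k ∧ x = s.code ++ t.code := by
  rcases htk : tokz x with _ | T
  · unfold accept at h
    rw [htk] at h
    exact absurd h Bool.false_ne_true
  obtain ⟨hx, hcan⟩ := Pool.Agent.TI.tokz_some htk
  have hacc : accept k x r = acceptT (x.length ^ k) T r := by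
    unfold accept
    rw [htk]
  rw [hacc] at h
  have hsh : shapeW (x.length ^ k) T = true := by
    unfold acceptT at h
    exact (Bool.and_eq_true_iff.1 h).1
  obtain ⟨s, t, hw, h1⟩ := (shapeW_iff hcan).1 hsh
  refine ⟨s, t, hw, ?_⟩
  have h2 : x = T.flatMap Pool.Agent.TI.tokCode := hx
  rw [h1, List.flatMap_append] at h2
  rw [h2, s.code_eq, t.code_eq]

theorem accept_valid {k : ℕ} {x : List Bool} (h : x ∈ identitiesW k) (r : List Bool) :
    accept k x r = true := by
  obtain ⟨s, t, hv, hn, hx⟩ := h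
  rw [accept_code hx hn]
  intro j _
  exact test0_valid hn hv _ _

end Pool.Agent.TD
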