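import Pool.Agent.H.MP_b2d7dd_lc.TD.StgC

/-!
# Module Chn: the error probability of the stages

Compare TC/Chn.
-/

namespace Pool.Agent.TD

open Pool.Agent.TI (Tm Tok names Valid)
open Pool.Agent.TE (bl)
open Pool.Agent.TW (SI irow cnt)
open Pool.Agent.TC (Pt rf rf_pos evl Mo Su nrm Pr Gx Lx h1 h2 al ga lcP MB Vn Coh Fai Eqv Bas crd chi)
open Pool.Agent.TC (muB Pb Stk subs exF cob eN eP uu vv Kc Qw Rr kk SS AA KK)
open Pool.Agent.H.MP_5be563_lc.PT Finset

theorem tabI_append (n : ℕ) (e : List Bool) (N B : List (List Bool))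
    (T : List Tok) (x y : List Bool) (i : ℕ) (hx : i * SS n ≤ x.length) :
    tabI n e N B T (x ++ y) i = tabI n e N B T x i := by
  induction i with
  | zero => rfl
  | succ i ih =>
    rw [Nat.succ_mul] at hx
    have h1 : bl (SS n) (x ++ y) i = bl (SS n) x i := by
      unfold bl
      rw [List.drop_append_of_le_length (by omega),
        List.take_append_of_le_length (by rw [List.length_drop]; omega)]
    show nxt n e N B T i (tabI n e N B T (x ++ y) i) (bl (SS n) (x ++ y) i) =
      nxt n e N B T i (tabI n e N B T x i) (bl (SS n) x i)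
    rw [h1, ih (by omega)]

private theorem Chn_cnt_false {m : ℕ} {P : List Bool → Prop} (h : ∀ z, ¬ P z) : cnt m P = 0 := by
  unfold cnt
  have : IsEmpty {r : Fin m → Bool // P (List.ofFn r)} := ⟨fun r => h _ r.2⟩
  exact Nat.card_of_isEmpty

private theorem Chn_bl (w : ℕ) (k : ℕ) (x y : List Bool) (hx : x.length = k * w)
    (hy : y.length = w) : bl w (x ++ y) k = y := by
  unfold bl
  rw [List.drop_append_of_le_length (by omega), List.drop_of_length_le (by omega),
    List.nil_append, List.take_of_length_le (by omega)]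

theorem chain {n : ℕ} {s t : Tm} (hn : wt s + wt t ≤ n) {i : ℕ}
    (hi : i ≤ s.sz + t.sz) {e : List Bool} (he : 2 ^ vv n ≤ bval e)
    (he2 : bval e < 2 ^ (2 * vv n)) (hp : (bval e + 2).Prime) :
    8 * (n + 1) * cnt (i * SS n) (fun z => ¬ Fai (lv s t) i
      ((tabI n e (names (s.toks ++ t.toks)) (baseT n (s.toks ++ t.toks)) (s.toks ++ t.toks) z
        i).map irow)) ≤ i * 2 ^ (i * SS n) := by
  induction i with
  | zero =>
    rw [Chn_cnt_false, mul_zero]
    · exact Nat.zero_le _
    · intro z hz
      apply hz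
      intro k _
      simp
  | succ i ih =>
    set N := names (s.toks ++ t.toks) with hN
    set B := baseT n (s.toks ++ t.toks) with hB
    set T := s.toks ++ t.toks with hT
    have h1 := ih (by omega)
    have h2 := TW.cnt_append (a := i * SS n) (b := SS n) (K := 8 * (n + 1)) (c := 1)
      (fun z => ¬ Fai (lv s t) (i + 1) ((tabI n e N B T z (i + 1)).map irow))
      (fun z => ¬ Fai (lv s t) i ((tabI n e N B T z i).map irow)) (by
        intro x hx hA
        have hf : Fai (lv s t) i ((tabI n e N B T x i).map irow) := not_not.1 hA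
        have hb := tabI_bound n e N B T x i
        have h3 := stage_cnt hn (i := i) (by omega) he he2 hp
          (tabI_coh hn he N x i (by omega)) hf hb.2 (hb.1.trans (by have := sz_le s; have := sz_le t; omega))
        rw [one_mul]
        refine le_trans (Nat.mul_le_mul_left _ (TW.cnt_mono ?_)) h3
        intro y hy hP
        have h4 : tabI n e N B T (x ++ y) (i + 1) = nxt n e N B T i (tabI n e N B T x i) y := by
          show nxt n e N B T i (tabI n e N B T (x ++ y) i) (bl (SS n) (x ++ y) i) = _
          rw [Chn_bl (SS n) i x y hx hy, tabI_append n e N B T x y i (by omega)]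
        rw [h4] at hP
        exact hP)
    have h5 : (i + 1) * SS n = i * SS n + SS n := Nat.succ_mul _ _
    rw [h5]
    refine h2.trans ?_
    rw [pow_add, one_mul, Nat.add_mul, one_mul]
    have h6 := Nat.mul_le_mul_right (2 ^ SS n) h1
    calc 8 * (n + 1) * (cnt (i * SS n)
            (fun z => ¬ Fai (lv s t) i ((tabI n e N B T z i).map irow)) * 2 ^ SS n) +
          2 ^ (i * SS n) * 2 ^ SS n
        = 8 * (n + 1) * cnt (i * SS n)
            (fun z => ¬ Fai (lv s t) i ((tabI n e N B T z i).map irow)) * 2 ^ SS n +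
          2 ^ (i * SS n) * 2 ^ SS n := by rw [mul_assoc (8 * (n + 1))]
      _ ≤ i * 2 ^ (i * SS n) * 2 ^ SS n +
          2 ^ (i * SS n) * 2 ^ SS n := Nat.add_le_add_right h6 _
      _ = _ := by rw [mul_assoc]

end Pool.Agent.TD
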