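import Pool.Agent.H.MP_b2d7dd_lc.TI.Defs

/-!
# Definitions used in the statement

The weight of a term of high-school arithmetic. The terms, their values, their strings and the class
coRP are defined in `Pool.Agent.TI` (module TI/Defs).
-/

namespace Pool.Agent.TD

open Pool.Agent.TI

/-- The value is not always `1`: the term is a variable, a sum, a product with a factor of this kind or
a power of a term of this kind. -/
def big : Tm → Bool
  | .one => false
  | .var _ => true
  | .add _ _ => true
  | .mul s t => big s || big t
  | .pow s _ => big s

/-- The value is constant. -/
def cst : Tm → Bool
  | .one => true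
  | .var _ => false
  | .add s t => cst s && cst t
  | .mul s t => cst s && cst t
  | .pow s t => (cst s && cst t) || !big s

/-- The constant summand (if the term is multiplied out, where the powers with exponents which are not
constant are not expanded). -/
def cs : Tm → ℕ
  | .one => 1
  | .var _ => 0
  | .add s t => cs s + cs t
  | .mul s t => cs s * cs t
  | .pow s t => if cst t || !big s then cs s ^ cs t else 0

/-- The number of summands of the term multiplied out is at most `2 ^ lg t`. There is `lg t = 0` if
there is no addition outside of exponents. -/
def lg : Tm → ℕ
  | .one => 0
  | .var _ => 0
  | .add s t => lg s + lg t + 1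
  | .mul s t => lg s + lg t
  | .pow s t => cs t * lg s

/-- The weight: the number of symbols of the term, plus `cs t * lg s` for every power `s ^ t`. -/
def wt : Tm → ℕ
  | .one => 1
  | .var _ => 1
  | .add s t => wt s + wt t + 1
  | .mul s t => wt s + wt t + 1
  | .pow s t => wt s + wt t + 1 + cs t * lg s

/-- There is no addition outside of exponents. -/
def SumFree : Tm → Prop
  | .one => True
  | .var _ => True
  | .add _ _ => False
  | .mul s t => SumFree s ∧ SumFree t
  | .pow s _ => SumFree s

/-- No sum is raised to a power whose exponent has a constant summand: in every power `s ^ t` there is
no addition in `s` outside of exponents, or `t` has no constant summand. -/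
def Sim : Tm → Prop
  | .one => True
  | .var _ => True
  | .add s t => Sim s ∧ Sim t
  | .mul s t => Sim s ∧ Sim t
  | .pow s t => (SumFree s ∨ cs t = 0) ∧ Sim s ∧ Sim t

/-- The strings `x` of the identities `s = t` which hold in `N_HS`, where the sum of the weights of `s`
and `t` is at most the power with exponent `k` of the length of `x`. -/
def identitiesW (k : ℕ) : Set (List Bool) :=
  {x | ∃ s t : Tm, Valid s t ∧ wt s + wt t ≤ x.length ^ k ∧ x = s.code ++ t.code}

end Pool.Agent.TD
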