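import Pool.Agent.H.MP_b2d7dd_lc.TC.Par

/-!
# Module Par: parameters

The parameters are those of TC/Par, with a larger bound for the exponents.
-/

namespace Pool.Agent.TD

open Pool.Agent.TW (NB pow2)
open Pool.Agent.TC (eN eP uu vv Kc Qw Rr kk SS AA KK)
open Pool.Agent.H.MP_5be563_lc.PT

/-- Bound for the exponents. -/
def Ee (n : ℕ) : ℕ := 2 ^ (4 * (n + 3)) * 2 ^ eP n

/-- The number of zeros of a Laurent polynomial of the test. -/
def Aa (n : ℕ) : ℕ := 2 * Ee n * Qw n + Qw n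

private theorem Par_succ (n : ℕ) : n + 1 ≤ 2 ^ n := Nat.lt_two_pow_self

private theorem Par_le {a b : ℕ} (h : a ≤ b) : 2 ^ a ≤ 2 ^ b :=
  Nat.pow_le_pow_right (by norm_num) h

private theorem Par_two (a b : ℕ) : 2 * 2 ^ a * 2 ^ b = 2 ^ (a + b + 1) := by
  rw [pow_succ, pow_add]
  ring

private theorem Par_eight (a : ℕ) : 8 * 2 ^ a = 2 ^ (a + 3) := by
  rw [pow_succ, pow_succ, pow_succ]
  ring

private theorem Par_Q (n : ℕ) : Qw n ≤ 2 ^ (2 * n + 7) := by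
  have h1 := Par_succ n
  have h2 : n + 7 ≤ 2 ^ (n + 3) := by
    rw [pow_add]
    omega
  have h3 : Kc n ≤ 2 ^ (2 * n + 6) := by
    unfold Kc
    calc (n + 7) * (n + 7) ≤ 2 ^ (n + 3) * 2 ^ (n + 3) := Nat.mul_le_mul h2 h2
      _ = 2 ^ (2 * n + 6) := by rw [← pow_add]; congr 1; omega
  have h4 : 3 * (n + 1) ≤ 2 ^ (2 * n + 6) := by
    calc 3 * (n + 1) ≤ 2 ^ (n + 2) := by rw [pow_add]; omega
      _ ≤ 2 ^ (2 * n + 6) := Par_le (by omega)
  have h5 : 2 ^ (2 * n + 7) = 2 ^ (2 * n + 6) * 2 := by rw [← pow_succ]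
  unfold Qw
  omega

private theorem Par_E (n : ℕ) : Ee n = 2 ^ (4 * n + 12 + eP n) := by
  unfold Ee
  rw [← pow_add]
  congr 1

private theorem Par_A (n : ℕ) : Aa n ≤ 2 ^ (6 * n + eP n + 21) := by
  have h1 := Par_Q n
  have h2 : 2 * Ee n * Qw n ≤ 2 ^ (6 * n + eP n + 20) := by
    calc 2 * Ee n * Qw n ≤ 2 * 2 ^ (4 * n + 12 + eP n) * 2 ^ (2 * n + 7) :=
          Nat.mul_le_mul (Nat.mul_le_mul_left _ (Par_E n).le) h1
      _ = 2 ^ (4 * n + 12 + eP n + (2 * n + 7) + 1) := Par_two _ _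
      _ = 2 ^ (6 * n + eP n + 20) := by congr 1; omega
  have h3 : Qw n ≤ 2 ^ (6 * n + eP n + 20) := h1.trans (Par_le (by omega))
  have h4 : 2 ^ (6 * n + eP n + 21) = 2 ^ (6 * n + eP n + 20) * 2 := by rw [← pow_succ]
  unfold Aa
  omega

/-- For the union bound in one stage. -/
theorem par_union {n r : ℕ} (hr : r ≤ 2 ^ (2 * vv n) + 1) :
    8 * (n + 1) * (r ^ n * Aa n ^ Rr n) ≤ (2 ^ vv n) ^ Rr n := by
  have h0 : 1 ≤ 2 ^ (2 * vv n) := Nat.one_le_two_pow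
  have h1 : r ≤ 2 ^ (2 * vv n + 1) := by
    rw [pow_succ]
    omega
  have h2 : r ^ n ≤ 2 ^ ((2 * vv n + 1) * n) := by
    rw [pow_mul]
    exact Nat.pow_le_pow_left h1 n
  have h3 : Aa n ^ Rr n ≤ 2 ^ ((6 * n + eP n + 21) * Rr n) := by
    rw [pow_mul]
    exact Nat.pow_le_pow_left (Par_A n) _
  have h4 : 8 * (n + 1) ≤ 2 ^ (n + 3) := by
    rw [pow_add]
    have := Par_succ n
    omega
  calc 8 * (n + 1) * (r ^ n * Aa n ^ Rr n)
      ≤ 2 ^ (n + 3) * (2 ^ ((2 * vv n + 1) * n) * 2 ^ ((6 * n + eP n + 21) * Rr n)) :=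
        Nat.mul_le_mul h4 (Nat.mul_le_mul h2 h3)
    _ = 2 ^ (n + 3 + ((2 * vv n + 1) * n + (6 * n + eP n + 21) * Rr n)) := by
        rw [← pow_add, ← pow_add]
    _ ≤ 2 ^ (vv n * Rr n) := Par_le (by
        unfold Rr vv uu
        generalize eP n = P
        generalize eN n = N
        nlinarith [Nat.zero_le (n * P), Nat.zero_le (n * N), Nat.zero_le (n * n)])
    _ = (2 ^ vv n) ^ Rr n := by rw [pow_mul]

/-- For the last comparison. -/
theorem par_fin (n : ℕ) : 8 * Aa n ≤ 2 ^ vv n := by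
  calc 8 * Aa n ≤ 8 * 2 ^ (6 * n + eP n + 21) := Nat.mul_le_mul_left _ (Par_A n)
    _ = 2 ^ (6 * n + eP n + 21 + 3) := Par_eight _
    _ ≤ 2 ^ vv n := Par_le (by unfold vv uu; omega)

end Pool.Agent.TD
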