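import Pool.Agent.H.MP_b2d7dd_lc.TD.Snd
import Pool.Agent.H.MP_b2d7dd_lc.TD.Cmb
import Pool.Agent.H.MP_b2d7dd_lc.TD.Par

/-!
# Module FinC: the last comparison

Compare TC/FinC. Use `laur` with exponents `(g, 0, 0)`, `g` in the support of `rp s` or `rp t` (sums of
at most `2 ^ n` logarithms), and `rp_ne_mod`.
-/

namespace Pool.Agent.TD

open Pool.Agent.TI (Tm Tok names Valid)
open Pool.Agent.TE (bl)
open Pool.Agent.TW (SI irow cnt)
open Pool.Agent.TC (Pt rf rf_pos evl Mo Su nrm Pr Gx Lx h1 h2 al ga lcP MB Vn Coh Fai Eqv Bas crd chi)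
open Pool.Agent.TC (muB Pb Stk subs exF cob eN eP uu vv Kc Qw Rr kk SS AA KK)
open Pool.Agent.TC (length_subs stk_pair chi_zero)
open Pool.Agent.H.MP_5be563_lc.PT Finset

private theorem FinC_names (T : List Tok) : (names T).length ≤ T.length := by
  unfold names
  rw [List.length_map]
  exact List.length_filter_le _ _

/-- Exponents which are sums of at most `m` logarithms. -/
private def FinC_D (W : Finset (List Bool)) (A : Set Tm) (m : ℕ)
    (P : AddMonoidAlgebra ℤ (Pt W → ℝ)) : Prop :=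
  ∀ g ∈ P.coeff.support, ∃ l : List (Pt W → ℝ), l.length ≤ m ∧
    (∀ v ∈ l, v ∈ lr W '' A) ∧ g = l.sum

private theorem FinC_mono {W : Finset (List Bool)} {A : Set Tm} {m m' : ℕ}
    {P : AddMonoidAlgebra ℤ (Pt W → ℝ)} (h : FinC_D W A m P) (hm : m ≤ m') :
    FinC_D W A m' P := by
  intro g hg
  obtain ⟨l, h1, h2, h3⟩ := h g hg
  exact ⟨l, h1.trans hm, h2, h3⟩

private theorem FinC_add {W : Finset (List Bool)} {A : Set Tm} {m : ℕ}
    {P Q : AddMonoidAlgebra ℤ (Pt W → ℝ)} (hP : FinC_D W A m P) (hQ : FinC_D W A m Q) :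
    FinC_D W A m (P + Q) := by
  classical
  intro g hg
  rw [AddMonoidAlgebra.coeff_add] at hg
  rcases Finset.mem_union.1 (Finsupp.support_add hg) with h | h
  · exact hP g h
  · exact hQ g h

private theorem FinC_mul {W : Finset (List Bool)} {A : Set Tm} {m m' : ℕ}
    {P Q : AddMonoidAlgebra ℤ (Pt W → ℝ)} (hP : FinC_D W A m P) (hQ : FinC_D W A m' Q) :
    FinC_D W A (m + m') (P * Q) := by
  classical
  intro g hg
  obtain ⟨a, ha, b, hb, rfl⟩ :=
    Finset.mem_add.1 (AddMonoidAlgebra.support_coeff_mul_subset _ _ hg)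
  obtain ⟨l, h1, h2, h3⟩ := hP a ha
  obtain ⟨k, i1, i2, i3⟩ := hQ b hb
  refine ⟨l ++ k, ?_, ?_, ?_⟩
  · rw [List.length_append]
    exact Nat.add_le_add h1 i1
  · intro v hv
    rcases List.mem_append.1 hv with h | h
    · exact h2 v h
    · exact i2 v h
  · rw [List.sum_append, ← h3, ← i3]

private theorem FinC_one {W : Finset (List Bool)} {A : Set Tm} {m : ℕ} :
    FinC_D W A m (1 : AddMonoidAlgebra ℤ (Pt W → ℝ)) := by
  intro g hg
  rw [AddMonoidAlgebra.one_def, AddMonoidAlgebra.coeff_single] at hg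
  have e := Finset.mem_singleton.1 (Finsupp.support_single_subset hg)
  exact ⟨[], Nat.zero_le _, by simp, by rw [e, List.sum_nil]⟩

private theorem FinC_lr {W : Finset (List Bool)} {A : Set Tm} {u : Tm} (hu : u ∈ A) :
    FinC_D W A 1 (AddMonoidAlgebra.single (lr W u) 1) := by
  intro g hg
  rw [AddMonoidAlgebra.coeff_single] at hg
  have e := Finset.mem_singleton.1 (Finsupp.support_single_subset hg)
  refine ⟨[lr W u], le_refl 1, ?_, by rw [e, List.sum_singleton]⟩
  intro v hv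
  rw [List.mem_singleton.1 hv]
  exact Set.mem_image_of_mem _ hu

private theorem FinC_pow {W : Finset (List Bool)} {A : Set Tm} {m : ℕ}
    {P : AddMonoidAlgebra ℤ (Pt W → ℝ)} (hP : FinC_D W A m P) (k : ℕ) :
    FinC_D W A (k * m) (P ^ k) := by
  induction k with
  | zero =>
    rw [pow_zero]
    exact FinC_one
  | succ k ih =>
    rw [pow_succ]
    exact FinC_mono (FinC_mul ih hP) (le_of_eq (by ring))

private theorem FinC_le {x y : ℕ} (h : x ≤ y) : 2 ^ x ≤ 2 ^ y :=
  Nat.pow_le_pow_right (by norm_num) h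

/-- The exponents of the element of the monoid ring are sums of at most `2 ^ wt` logarithms. -/
private theorem FinC_dg {W : Finset (List Bool)} {A : Set Tm} {u : Tm} (hu : ats u ⊆ A) :
    FinC_D W A (2 ^ wt u) (rp W u) := by
  classical
  induction u with
  | one => exact FinC_one
  | var w => exact FinC_mono (FinC_lr (hu (Set.mem_singleton _))) Nat.one_le_two_pow
  | add s t ihs iht =>
    exact FinC_add (FinC_mono (ihs (Set.subset_union_left.trans hu))
      (FinC_le (by show wt s ≤ wt s + wt t + 1; omega)))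
      (FinC_mono (iht (Set.subset_union_right.trans hu))
        (FinC_le (by show wt t ≤ wt s + wt t + 1; omega)))
  | mul s t ihs iht =>
    refine FinC_mono (FinC_mul (ihs (Set.subset_union_left.trans hu))
      (iht (Set.subset_union_right.trans hu))) ?_
    have h1 : 2 ^ wt s ≤ 2 ^ (wt s + wt t) := FinC_le (by omega)
    have h2 : 2 ^ wt t ≤ 2 ^ (wt s + wt t) := FinC_le (by omega)
    show 2 ^ wt s + 2 ^ wt t ≤ 2 ^ (wt s + wt t + 1)
    rw [pow_succ]
    omega
  | pow s t ihs _ =>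
    have hs : FinC_D W A (2 ^ wt s) (rp W s) := ihs fun x hx => hu (Or.inr hx)
    have h1 : FinC_D W A 1 (AddMonoidAlgebra.single (lr W (.pow s t)) 1) := by
      by_cases hT : Tr s t
      · exact FinC_lr (hu (Or.inl ⟨rfl, hT⟩))
      · rw [lr_zero hT]
        exact FinC_one
    refine FinC_mono (FinC_mul h1 (FinC_pow hs (cs t))) ?_
    have h2 : cs t ≤ 2 ^ wt t := (cs_le t).trans (FinC_le (lg_le t))
    have h3 : cs t * 2 ^ wt s ≤ 2 ^ (wt s + wt t) := by
      rw [pow_add, mul_comm]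
      exact Nat.mul_le_mul_left _ h2
    have h4 : 1 ≤ 2 ^ (wt s + wt t) := Nat.one_le_two_pow
    have h5 : 2 ^ (wt s + wt t + 1) ≤ 2 ^ wt (.pow s t) :=
      FinC_le (by show wt s + wt t + 1 ≤ wt s + wt t + 1 + cs t * lg s; omega)
    rw [pow_succ] at h5
    omega

private theorem FinC_at {s t : Tm} {u : Tm} (hu : u ∈ [s, t]) :
    ats u ⊆ exA (exF s t) (s.sz + t.sz) := by
  have hF := fam_exF (le_refl (wt s + wt t))
  have hlen : (subs t ++ subs s).length = s.sz + t.sz := by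
    rw [List.length_append, length_subs, length_subs, add_comm]
  obtain ⟨a, ha, h1⟩ := List.mem_iff_getElem.1 ((stk_pair s t).mem u hu)
  have h2 : exF s t a = u := by
    unfold exF
    rw [List.getD_eq_getElem _ _ ha, h1]
  rw [hlen] at ha
  intro v hv
  rw [← h2] at hv
  obtain ⟨b, hb, h3, h4⟩ := hF.at1 a ha hv
  exact ⟨b, by omega, h3, h4⟩

private theorem FinC_evl {M : Type} [AddCommMonoid M] {K : Type} [CommRing K] (f : M → K)
    (P : AddMonoidAlgebra ℤ M) {s : Finset M} (h : P.coeff.support ⊆ s) :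
    evl f P = ∑ g ∈ s, (P.coeff g : K) * f g := by
  unfold evl
  exact Finsupp.sum_of_support_subset _ h _ (fun g _ => by rw [Int.cast_zero, zero_mul])

theorem final_cnt {n : ℕ} {s t : Tm} (hn : wt s + wt t ≤ n)
    (hst : ¬ Valid s t) {e : List Bool} (he : 2 ^ vv n ≤ bval e) (hp : (bval e + 2).Prime)
    {tab : List (List SI)} (hc : Coh (lv s t) (s.sz + t.sz) (tab.map irow))
    (hf : Fai (lv s t) (s.sz + t.sz) (tab.map irow))
    (hP : ∀ row ∈ tab.map irow, ∀ a, |row a| ≤ (2 ^ eP n : ℕ)) (hl : tab.length ≤ n) :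
    8 * cnt (SS n) (fun zz => fin1 n e (names (s.toks ++ t.toks)) (baseT n (s.toks ++ t.toks))
      (s.toks ++ t.toks) tab zz = true) ≤ 2 ^ SS n := by
  classical
  have hs1 := wt_pos s
  have ht1 := wt_pos t
  have hs2 := sz_le s
  have ht2 := sz_le t
  have hN : (names (s.toks ++ t.toks)).length ≤ n := by
    refine (FinC_names _).trans ?_
    rw [List.length_append, Tm.length_toks, Tm.length_toks]
    omega
  have hvn := Pool.Agent.TC.vv_ge n
  have hr : ∀ u : Tm, wt u ≤ n → e1 u < bval e + 2 := by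
    intro u hu
    have h0 := lg_le u
    have h1 : (2 : ℕ) ^ lg u ≤ 2 ^ vv n := Nat.pow_le_pow_right (by norm_num) (by omega)
    have h2 := e1_le u
    omega
  have hne : rp (Wn s t) s ≠ rp (Wn s t) t := fun h => hst ((valid_rp s t).2 h)
  obtain ⟨g0, hg0⟩ := rp_ne_mod (hr s (by omega)) (hr t (by omega)) hne
  obtain ⟨G0, hG0⟩ : ∃ G0, G0 = (rp (Wn s t) s).coeff.support ∪ (rp (Wn s t) t).coeff.support :=
    ⟨_, rfl⟩
  have hinj : Function.Injective (fun g : Pt (Wn s t) → ℝ => ((g, 0, 0) : Gx (Wn s t))) := by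
    intro a b h
    exact congrArg Prod.fst h
  have key := laur (W := Wn s t) (ex := exF s t) (i := s.sz + t.sz) (e := e) (v := vv n) (n := n)
    (P := 2 ^ eP n) (m := 2 ^ n) (Q := Qw n) hp (by omega) hN (ν := tab.map irow) hc hf hP
    (by rw [List.length_map]; exact hl) (κ := 0) (by unfold Qw; omega) Nat.one_le_two_pow
    (G0.image fun g => (g, 0, 0))
    (fun g => (((rp (Wn s t) s).coeff g.1 : ℤ) : ZMod (bval e + 2)) -
      (((rp (Wn s t) t).coeff g.1 : ℤ) : ZMod (bval e + 2)))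
    (by
      refine ⟨(g0, 0, 0), Finset.mem_image_of_mem _ ?_, sub_ne_zero.2 hg0⟩
      rw [hG0, Finset.mem_union]
      by_contra h
      rw [not_or] at h
      apply hg0
      rw [Finsupp.notMem_support_iff.1 h.1, Finsupp.notMem_support_iff.1 h.2])
    (by
      intro g hg
      obtain ⟨g', hg', rfl⟩ := Finset.mem_image.1 hg
      have h1 : ∃ l : List (Pt (Wn s t) → ℝ), l.length ≤ 2 ^ n ∧
          (∀ v ∈ l, v ∈ lr (Wn s t) '' exA (exF s t) (s.sz + t.sz)) ∧ g' = l.sum := by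
        rw [hG0] at hg'
        rcases Finset.mem_union.1 hg' with h | h
        · obtain ⟨l, h1, h2, h3⟩ := FinC_dg (FinC_at (s := s) (t := t) (u := s) (by simp)) g' h
          exact ⟨l, h1.trans (FinC_le (by omega)), h2, h3⟩
        · obtain ⟨l, h1, h2, h3⟩ := FinC_dg (FinC_at (s := s) (t := t) (u := t) (by simp)) g' h
          exact ⟨l, h1.trans (FinC_le (by omega)), h2, h3⟩
      obtain ⟨l, h2, h3, h4⟩ := h1
      exact ⟨l, [], h2, Nat.zero_le _, h3, by simp, h4, by rw [List.sum_nil],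
        fun x => Nat.zero_le _⟩)
    (by
      intro g hg x hx
      obtain ⟨g', hg', rfl⟩ := Finset.mem_image.1 hg
      exact absurd rfl hx)
  obtain ⟨A, hA⟩ : ∃ A, A = Qw n * vv n := ⟨_, rfl⟩
  obtain ⟨C, hC⟩ : ∃ C, C = cnt A (fun Z => h0 n e s t (tab) Z s = h0 n e s t tab Z t) :=
    ⟨_, rfl⟩
  have e1' : C ≤ cnt (Qw n * vv n) (fun Z => ∑ g ∈ G0.image (fun g => ((g, 0, 0) : Gx (Wn s t))),
      ((((rp (Wn s t) s).coeff g.1 : ℤ) : ZMod (bval e + 2)) -
        (((rp (Wn s t) t).coeff g.1 : ℤ) : ZMod (bval e + 2))) *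
        fz (Wn s t) e (vv n) (n + 1) (names (s.toks ++ t.toks)) (tab.map irow) (exF s t)
          (s.sz + t.sz) Z g = 0) := by
    rw [hC, hA]
    refine Pool.Agent.TW.cnt_mono fun Z _ hZ => ?_
    rw [Finset.sum_image (fun a _ b _ h => hinj h)]
    have h1 : ∀ g ∈ G0, ((((rp (Wn s t) s).coeff g : ℤ) : ZMod (bval e + 2)) -
        (((rp (Wn s t) t).coeff g : ℤ) : ZMod (bval e + 2))) *
        fz (Wn s t) e (vv n) (n + 1) (names (s.toks ++ t.toks)) (tab.map irow) (exF s t)
          (s.sz + t.sz) Z (g, 0, 0) =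
        (((rp (Wn s t) s).coeff g : ℤ) : ZMod (bval e + 2)) *
          chi (fun b => Pool.Agent.TW.wun e (bl (vv n) Z b)) (tab.map irow) (lv s t)
            (s.sz + t.sz) g -
        (((rp (Wn s t) t).coeff g : ℤ) : ZMod (bval e + 2)) *
          chi (fun b => Pool.Agent.TW.wun e (bl (vv n) Z b)) (tab.map irow) (lv s t)
            (s.sz + t.sz) g := by
      intro g _
      have h2 : fz (Wn s t) e (vv n) (n + 1) (names (s.toks ++ t.toks)) (tab.map irow) (exF s t)
          (s.sz + t.sz) Z (g, 0, 0) = chi (fun b => Pool.Agent.TW.wun e (bl (vv n) Z b))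
            (tab.map irow) (lv s t) (s.sz + t.sz) g := by
        show chi _ (tab.map irow) (fun a => lr (Wn s t) (exF s t a)) (s.sz + t.sz) g *
          chi _ (tab.map irow) (fun a => lr (Wn s t) (exF s t a)) (s.sz + t.sz) 0 *
          (0 : (List Bool ⊕ ℕ) →₀ ℕ).prod _ = _
        rw [chi_zero _ hc, Finsupp.prod_zero_index, mul_one, mul_one]
      rw [h2]
      ring
    rw [Finset.sum_congr rfl h1, Finset.sum_sub_distrib, sub_eq_zero]
    have h3 : h0 n e s t tab Z s = _ := FinC_evl _ (rp (Wn s t) s) (s := G0) (by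
      rw [hG0]
      exact Finset.subset_union_left)
    have h4 : h0 n e s t tab Z t = _ := FinC_evl _ (rp (Wn s t) t) (s := G0) (by
      rw [hG0]
      exact Finset.subset_union_right)
    rw [← h3, ← h4]
    exact hZ
  have hAa : 2 * (2 ^ n * 2 ^ eP n) * Qw n + Qw n ≤ Aa n := by
    unfold Aa Ee
    have h1 : 2 ^ n ≤ 2 ^ (4 * (n + 3)) := FinC_le (by omega)
    have h2 := Nat.mul_le_mul_right (2 ^ eP n) h1
    exact Nat.add_le_add_right (Nat.mul_le_mul_right _ (Nat.mul_le_mul_left _ h2)) _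
  have e2 : 2 ^ vv n * C ≤ Aa n * 2 ^ A := by
    refine (Nat.mul_le_mul_left _ e1').trans (key.trans ?_)
    rw [hA, ← pow_mul, mul_comm (vv n)]
    exact Nat.mul_le_mul_right _ hAa
  have e3 : 8 * C ≤ 2 ^ A := by
    have h1 : 2 ^ vv n * (8 * C) ≤ 2 ^ vv n * 2 ^ A := by
      calc 2 ^ vv n * (8 * C) = 8 * (2 ^ vv n * C) := by ring
        _ ≤ 8 * (Aa n * 2 ^ A) := Nat.mul_le_mul_left _ e2
        _ = (8 * Aa n) * 2 ^ A := by ring
        _ ≤ 2 ^ vv n * 2 ^ A := Nat.mul_le_mul_right _ (par_fin n)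
    exact Nat.le_of_mul_le_mul_left h1 (by positivity)
  have e4 : SS n = A + (Rr n - 1) * A := by
    unfold SS Rr
    rw [← hA]
    have : 6 * (n + 1) = 1 + (6 * (n + 1) - 1) := by omega
    conv_lhs => rw [this, add_mul, one_mul]
  have e5 : cnt (SS n) (fun zz => fin1 n e (names (s.toks ++ t.toks))
      (baseT n (s.toks ++ t.toks)) (s.toks ++ t.toks) tab zz = true) ≤
      C * 2 ^ ((Rr n - 1) * A) := by
    rw [hC, ← Pool.Agent.TW.cnt_take, e4]
    refine Pool.Agent.TW.cnt_mono fun zz _ hz => ?_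
    have h1 := (fin1_iff hn e (names (s.toks ++ t.toks)) hc zz).1 hz
    unfold bl at h1
    rw [zero_mul, List.drop_zero] at h1
    rw [hA]
    exact h1
  calc 8 * cnt (SS n) (fun zz => fin1 n e (names (s.toks ++ t.toks))
        (baseT n (s.toks ++ t.toks)) (s.toks ++ t.toks) tab zz = true)
      ≤ 8 * (C * 2 ^ ((Rr n - 1) * A)) := Nat.mul_le_mul_left _ e5
    _ = (8 * C) * 2 ^ ((Rr n - 1) * A) := by ring
    _ ≤ 2 ^ A * 2 ^ ((Rr n - 1) * A) := Nat.mul_le_mul_right _ e3
    _ = 2 ^ SS n := by rw [e4, pow_add]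

end Pool.Agent.TD
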