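import Pool.Agent.H.MP_b2d7dd_lc.TC.Bs
import Pool.Agent.H.MP_b2d7dd_lc.TD.Defs
import Pool.Agent.H.MP_b2d7dd_lc.TI.Terms

/-!
# Module Fnc: virtual powers

Every power `a ^ b` is the product of `a ^ (cs b)` and of the virtual power `a ^ (b - cs b)`, whose
logarithm is `lr W (.pow a b) = (b - cs b) * log a`. `Tr a b` = the virtual power is not constant.
`ats t` = the variables and the virtual powers (given by the powers) outside of exponents. The real
functions `rf W t` of the terms are those of TC/Fnc.
-/

namespace Pool.Agent.TD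

open Pool.Agent.TI (Tm)
open Pool.Agent.TC (Pt rf rf_pos An)

/-- The virtual power is not constant. -/
def Tr (a b : Tm) : Prop := big a = true ∧ cst b = false

instance (a b : Tm) : Decidable (Tr a b) := by
  unfold Tr
  infer_instance

/-- The logarithm of a variable or of a virtual power. -/
noncomputable def lr (W : Finset (List Bool)) : Tm → Pt W → ℝ
  | .var w => fun t => if h : w ∈ W then t ⟨w, h⟩ else 0
  | .pow a b => fun t => (rf W b t - cs b) * Real.log (rf W a t)
  | _ => fun _ => 0

/-- The variables and virtual powers outside of exponents. -/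
def ats : Tm → Set Tm
  | .one => ∅
  | .var w => {.var w}
  | .add s t => ats s ∪ ats t
  | .mul s t => ats s ∪ ats t
  | .pow s t => {u | u = .pow s t ∧ Tr s t} ∪ ats s

/-- The variables in `W` and the terms of the list. -/
def At (W : Finset (List Bool)) (as : List Tm) : Set Tm := {t | (∃ w ∈ W, t = .var w) ∨ t ∈ as}

/-- New virtual powers over a list. -/
def Nw (W : Finset (List Bool)) (as : List Tm) (t : Tm) : Prop :=
  ∃ a b, t = .pow a b ∧ ats a ⊆ At W as ∧ ats b ⊆ At W as ∧ Tr a b

/-- Closed lists. -/
def Cl (W : Finset (List Bool)) : List Tm → Prop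
  | [] => True
  | t :: as => Nw W as t ∧ Cl W as

theorem rf_var (W : Finset (List Bool)) (w : List Bool) (x : Pt W) :
    rf W (.var w) x = Real.exp (lr W (.var w) x) := by
  by_cases h : w ∈ W
  · simp [rf, lr, h]
  · simp [rf, lr, h]

theorem rf_pow (W : Finset (List Bool)) (a b : Tm) (x : Pt W) :
    rf W (.pow a b) x = Real.exp (lr W (.pow a b) x) * rf W a x ^ cs b := by
  have h1 : rf W a x ^ cs b = Real.exp (cs b * Real.log (rf W a x)) := by
    rw [Real.exp_nat_mul, Real.exp_log (rf_pos W a x)]
  rw [h1, ← Real.exp_add]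
  show Real.exp (rf W b x * Real.log (rf W a x)) =
    Real.exp ((rf W b x - cs b) * Real.log (rf W a x) + cs b * Real.log (rf W a x))
  congr 1
  ring

theorem rf_nbig {W : Finset (List Bool)} {t : Tm} (h : big t = false) (x : Pt W) :
    rf W t x = 1 := by
  induction t with
  | one => rfl
  | var w => exact absurd h (by simp [big])
  | add s t _ _ => exact absurd h (by simp [big])
  | mul s t ihs iht =>
    have h1 : big s = false ∧ big t = false := by simpa [big] using h
    show rf W s x * rf W t x = 1
    rw [ihs h1.1, iht h1.2, mul_one]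
  | pow s t ihs _ =>
    show Real.exp (rf W t x * Real.log (rf W s x)) = 1
    rw [ihs h, Real.log_one, mul_zero, Real.exp_zero]

theorem cst_nbig {t : Tm} (h : big t = false) : cst t = true ∧ cs t = 1 ∧ lg t = 0 := by
  induction t with
  | one => exact ⟨rfl, rfl, rfl⟩
  | var w => exact absurd h (by simp [big])
  | add s t _ _ => exact absurd h (by simp [big])
  | mul s t ihs iht =>
    have h1 : big s = false ∧ big t = false := by simpa [big] using h
    obtain ⟨h2, h3, h4⟩ := ihs h1.1
    obtain ⟨h5, h6, h7⟩ := iht h1.2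
    refine ⟨?_, ?_, ?_⟩
    · show (cst s && cst t) = true
      rw [h2, h5]
      rfl
    · show cs s * cs t = 1
      rw [h3, h6]
    · show lg s + lg t = 0
      rw [h4, h7]
  | pow s t ihs _ =>
    have h1 : big s = false := h
    obtain ⟨h2, h3, h4⟩ := ihs h1
    refine ⟨?_, ?_, ?_⟩
    · show ((cst s && cst t) || !big s) = true
      rw [h1]
      simp
    · show (if (cst t || !big s) = true then cs s ^ cs t else 0) = 1
      rw [h1, if_pos (by simp), h3, one_pow]
    · show cs t * lg s = 0
      rw [h4, mul_zero]

theorem rf_cst {W : Finset (List Bool)} {t : Tm} (h : cst t = true) (x : Pt W) :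
    rf W t x = cs t := by
  induction t with
  | one =>
    show (1 : ℝ) = ((1 : ℕ) : ℝ)
    rw [Nat.cast_one]
  | var w => exact absurd h (by simp [cst])
  | add s t ihs iht =>
    have h1 : cst s = true ∧ cst t = true := by simpa [cst] using h
    show rf W s x + rf W t x = ((cs s + cs t : ℕ) : ℝ)
    rw [ihs h1.1, iht h1.2, Nat.cast_add]
  | mul s t ihs iht =>
    have h1 : cst s = true ∧ cst t = true := by simpa [cst] using h
    show rf W s x * rf W t x = ((cs s * cs t : ℕ) : ℝ)
    rw [ihs h1.1, iht h1.2, Nat.cast_mul]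
  | pow s t ihs iht =>
    by_cases hb : big s = false
    · have h1 : big (.pow s t) = false := hb
      rw [rf_nbig h1, (cst_nbig h1).2.1, Nat.cast_one]
    · have h1 : cst s = true ∧ cst t = true := by
        have h2 : ((cst s && cst t) || !big s) = true := h
        have h3 : big s = true := by simpa using hb
        rw [h3] at h2
        simpa using h2
      have h4 : cs (.pow s t) = cs s ^ cs t := by
        show (if (cst t || !big s) = true then cs s ^ cs t else 0) = cs s ^ cs t
        rw [h1.2, if_pos (by simp)]
      have h5 : rf W (.pow s t) x = Real.exp (rf W t x * Real.log (rf W s x)) := rfl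
      have h6 := rf_pos W s x
      rw [h4, h5, iht h1.2, Real.exp_nat_mul, Real.exp_log h6, ihs h1.1, Nat.cast_pow]

theorem cs_pos {t : Tm} (h : cst t = true) : 1 ≤ cs t := by
  have h1 := rf_pos ∅ t 0
  rw [rf_cst h] at h1
  exact Nat.cast_pos.1 h1

theorem ats_cst {t : Tm} (h : cst t = true) : ats t = ∅ := by
  induction t with
  | one => rfl
  | var w => exact absurd h (by simp [cst])
  | add s t ihs iht =>
    have h1 : cst s = true ∧ cst t = true := by simpa [cst] using h
    show ats s ∪ ats t = ∅
    rw [ihs h1.1, iht h1.2, Set.union_empty]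
  | mul s t ihs iht =>
    have h1 : cst s = true ∧ cst t = true := by simpa [cst] using h
    show ats s ∪ ats t = ∅
    rw [ihs h1.1, iht h1.2, Set.union_empty]
  | pow s t ihs iht =>
    have h2 : ((cst s && cst t) || !big s) = true := h
    have h3 : cst s = true ∧ ¬ Tr s t := by
      by_cases hb : big s = false
      · refine ⟨(cst_nbig hb).1, ?_⟩
        rintro ⟨h4, -⟩
        rw [hb] at h4
        exact Bool.false_ne_true h4
      · have h5 : big s = true := by simpa using hb
        rw [h5] at h2
        have h6 : cst s = true ∧ cst t = true := by simpa using h2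
        refine ⟨h6.1, ?_⟩
        rintro ⟨-, h4⟩
        rw [h6.2] at h4
        exact Bool.false_ne_true h4.symm
    show {u | u = Tm.pow s t ∧ Tr s t} ∪ ats s = ∅
    rw [ihs h3.1, Set.union_empty]
    ext u
    constructor
    · rintro ⟨-, h4⟩
      exact (h3.2 h4).elim
    · intro h4
      exact absurd h4 (Set.notMem_empty u)

theorem lr_zero {W : Finset (List Bool)} {a b : Tm} (h : ¬ Tr a b) : lr W (.pow a b) = 0 := by
  funext x
  show (rf W b x - cs b) * Real.log (rf W a x) = 0
  by_cases ha : big a = false
  · rw [rf_nbig ha, Real.log_one, mul_zero]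
  · have h1 : cst b = true := by
      by_contra hb
      exact h ⟨by simpa using ha, by simpa using hb⟩
    rw [rf_cst h1, sub_self, zero_mul]

theorem cs_le (t : Tm) : cs t ≤ 2 ^ lg t := by
  induction t with
  | one => exact Nat.one_le_two_pow
  | var w => exact Nat.zero_le _
  | add s t ihs iht =>
    show cs s + cs t ≤ 2 ^ (lg s + lg t + 1)
    have h1 : 2 ^ lg s ≤ 2 ^ (lg s + lg t) := Nat.pow_le_pow_right (by norm_num) (by omega)
    have h2 : 2 ^ lg t ≤ 2 ^ (lg s + lg t) := Nat.pow_le_pow_right (by norm_num) (by omega)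
    rw [pow_succ]
    omega
  | mul s t ihs iht =>
    show cs s * cs t ≤ 2 ^ (lg s + lg t)
    rw [pow_add]
    exact Nat.mul_le_mul ihs iht
  | pow s t ihs iht =>
    show (if (cst t || !big s) = true then cs s ^ cs t else 0) ≤ 2 ^ (cs t * lg s)
    split_ifs
    · rw [mul_comm, pow_mul]
      exact Nat.pow_le_pow_left ihs _
    · exact Nat.zero_le _

theorem lg_le (t : Tm) : lg t ≤ wt t := by
  induction t with
  | one => exact Nat.zero_le _
  | var w => exact Nat.zero_le _
  | add s t ihs iht =>
    show lg s + lg t + 1 ≤ wt s + wt t + 1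
    omega
  | mul s t ihs iht =>
    show lg s + lg t ≤ wt s + wt t + 1
    omega
  | pow s t ihs iht =>
    show cs t * lg s ≤ wt s + wt t + 1 + cs t * lg s
    exact Nat.le_add_left _ _

theorem wt_pos (t : Tm) : 1 ≤ wt t := by
  cases t <;> simp only [wt] <;> omega

theorem sz_le (t : Tm) : t.sz ≤ wt t := by
  induction t with
  | one => exact le_rfl
  | var w => exact le_rfl
  | add s t ihs iht =>
    show s.sz + t.sz + 1 ≤ wt s + wt t + 1
    omega
  | mul s t ihs iht =>
    show s.sz + t.sz + 1 ≤ wt s + wt t + 1
    omega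
  | pow s t ihs iht =>
    show s.sz + t.sz + 1 ≤ wt s + wt t + 1 + cs t * lg s
    omega

private theorem Fnc_sf {t : Tm} (h : SumFree t) : lg t = 0 := by
  induction t with
  | one => rfl
  | var w => rfl
  | add s t _ _ => exact h.elim
  | mul s t ihs iht =>
    show lg s + lg t = 0
    rw [ihs h.1, iht h.2]
  | pow s t ihs _ =>
    show cs t * lg s = 0
    rw [ihs h, mul_zero]

theorem sim_wt {t : Tm} (h : Sim t) : wt t = t.sz := by
  induction t with
  | one => rfl
  | var w => rfl
  | add s t ihs iht =>
    show wt s + wt t + 1 = s.sz + t.sz + 1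
    rw [ihs h.1, iht h.2]
  | mul s t ihs iht =>
    show wt s + wt t + 1 = s.sz + t.sz + 1
    rw [ihs h.1, iht h.2]
  | pow s t ihs iht =>
    show wt s + wt t + 1 + cs t * lg s = s.sz + t.sz + 1
    have h1 : cs t * lg s = 0 := by
      rcases h.1 with h2 | h2
      · rw [Fnc_sf h2, mul_zero]
      · rw [h2, zero_mul]
    rw [ihs h.2.1, iht h.2.2, h1, add_zero]

theorem lr_mem (W : Finset (List Bool)) (t : Tm) : lr W t ∈ An W := by
  cases t with
  | one => exact zero_mem _
  | add s t => exact zero_mem _
  | mul s t => exact zero_mem _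
  | var w =>
    by_cases h : w ∈ W
    · have h1 : lr W (.var w) = fun t : Pt W => t ⟨w, h⟩ := by
        funext t
        simp [lr, h]
      rw [h1]
      exact (Pool.Agent.TC.pd_coord W ⟨w, h⟩ ⟨w, h⟩).1
    · have h1 : lr W (.var w) = 0 := by
        funext t
        simp [lr, h]
      rw [h1]
      exact zero_mem _
  | pow a b =>
    have ha := (Pool.Agent.TC.rf_mem W a).1
    have hb := (Pool.Agent.TC.rf_mem W b).1
    have hl : (fun t => Real.log (rf W a t)) ∈ An W := fun t _ =>
      AnalyticAt.comp (analyticAt_log (rf_pos W a t)) (ha t (Set.mem_univ _))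
    have hc : (fun _ : Pt W => ((cs b : ℕ) : ℝ)) ∈ An W :=
      (Pool.Agent.TC.mem_An W).2 analyticOnNhd_const
    exact mul_mem (sub_mem hb hc) hl

theorem Cl.at_cons {W : Finset (List Bool)} {as : List Tm} (t : Tm) : At W as ⊆ At W (t :: as) :=
  fun _ hx => hx.imp_right (List.mem_cons_of_mem _)

/-- The terms of a closed list are powers over the list. -/
theorem Cl.nw {W : Finset (List Bool)} {as : List Tm} (h : Cl W as) : ∀ t ∈ as, Nw W as t := by
  induction as with
  | nil => simp
  | cons t as ih =>
    intro s hs
    have key : ∀ r, Nw W as r → Nw W (t :: as) r := by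
      rintro r ⟨a, b, h1, h2, h3, h4⟩
      exact ⟨a, b, h1, h2.trans (Cl.at_cons t), h3.trans (Cl.at_cons t), h4⟩
    rcases List.mem_cons.1 hs with rfl | hs
    · exact key _ h.1
    · exact key _ (ih h.2 s hs)

/-- Every variable and power in `ats t` is an atom of itself. -/
theorem ats_self {t u : Tm} (h : u ∈ ats t) : u ∈ ats u := by
  induction t with
  | one => exact absurd h (Set.notMem_empty u)
  | var w =>
    have h1 : u = .var w := h
    rw [h1]
    exact Set.mem_singleton _
  | add s t ihs iht => exact h.elim ihs iht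
  | mul s t ihs iht => exact h.elim ihs iht
  | pow s t ihs iht =>
    rcases h with h | h
    · obtain ⟨h1, h2⟩ := h
      rw [h1]
      exact Or.inl ⟨rfl, h2⟩
    · exact ihs h

end Pool.Agent.TD
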