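import Pool.Agent.H.MP_b2d7dd_lc.TD.Fx

/-!
# Module Pth: the path

For a point `y` and a real number `τ`: `vh` = the values of the terms, `lx` = the logarithms of the
variables and powers. At `τ = 1` these are the values at the point `y`, at `τ = 0` the logarithms are
zero. The derivatives are the first order data `Py`.
-/

namespace Pool.Agent.TD

open Pool.Agent.TI (Tm)
open Pool.Agent.TC (Pt rf rf_pos evl Mo Su nrm Pr)

variable {W : Finset (List Bool)}

/-- The values. -/
noncomputable def vh (W : Finset (List Bool)) (y : Pt W) (τ : ℝ) : Tm → ℝ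
  | .one => 1
  | .var w => Real.exp (τ * lr W (.var w) y)
  | .add s t => vh W y τ s + vh W y τ t
  | .mul s t => vh W y τ s * vh W y τ t
  | .pow a b => Real.exp ((rf W b y - cs b) *
      (Real.log (vh W y τ a) + (τ - 1) * Real.log (e1 a))) * vh W y τ a ^ cs b

/-- The logarithms. -/
noncomputable def lx (W : Finset (List Bool)) (y : Pt W) (τ : ℝ) : Tm → ℝ
  | .var w => τ * lr W (.var w) y
  | .pow a b => (rf W b y - cs b) * (Real.log (vh W y τ a) + (τ - 1) * Real.log (e1 a))
  | _ => 0

/-- The first order data. -/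
noncomputable def Py (W : Finset (List Bool)) (y : Pt W) (τ : ℝ) : Pr ℝ where
  f := fun a => Real.exp (lx W y τ a)
  g := fun a => Real.exp (lr W a y)
  α := fun w => lr W (.var w) y
  lc := fun n => Real.log n
  iv := fun x => x⁻¹

theorem vh_pos (y : Pt W) (τ : ℝ) (t : Tm) : 0 < vh W y τ t := by
  induction t with
  | one => exact one_pos
  | var w => exact Real.exp_pos _
  | add s t hs ht => exact add_pos hs ht
  | mul s t hs ht => exact mul_pos hs ht
  | pow a b ha _ => exact mul_pos (Real.exp_pos _) (pow_pos ha _)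

theorem vh_one (y : Pt W) (t : Tm) : vh W y 1 t = rf W t y := by
  induction t with
  | one => rfl
  | var w =>
    rw [rf_var]
    show Real.exp (1 * lr W (.var w) y) = _
    rw [one_mul]
  | add s t hs ht =>
    show vh W y 1 s + vh W y 1 t = rf W s y + rf W t y
    rw [hs, ht]
  | mul s t hs ht =>
    show vh W y 1 s * vh W y 1 t = rf W s y * rf W t y
    rw [hs, ht]
  | pow a b ha _ =>
    rw [rf_pow]
    show Real.exp ((rf W b y - cs b) *
      (Real.log (vh W y 1 a) + (1 - 1) * Real.log (e1 a))) * vh W y 1 a ^ cs b =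
      Real.exp ((rf W b y - cs b) * Real.log (rf W a y)) * rf W a y ^ cs b
    rw [ha, sub_self, zero_mul, add_zero]

theorem vh_zero (y : Pt W) (t : Tm) : vh W y 0 t = e1 t := by
  induction t with
  | one => exact Nat.cast_one.symm
  | var w =>
    show Real.exp (0 * lr W (.var w) y) = ((1 : ℕ) : ℝ)
    rw [zero_mul, Real.exp_zero, Nat.cast_one]
  | add s t hs ht =>
    show vh W y 0 s + vh W y 0 t = ((e1 s + e1 t : ℕ) : ℝ)
    rw [hs, ht, Nat.cast_add]
  | mul s t hs ht =>
    show vh W y 0 s * vh W y 0 t = ((e1 s * e1 t : ℕ) : ℝ)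
    rw [hs, ht, Nat.cast_mul]
  | pow a b ha _ =>
    show Real.exp ((rf W b y - cs b) *
      (Real.log (vh W y 0 a) + (0 - 1) * Real.log (e1 a))) * vh W y 0 a ^ cs b =
      ((e1 a ^ cs b : ℕ) : ℝ)
    have h1 : Real.log (e1 a : ℝ) + (0 - 1) * Real.log (e1 a : ℝ) = 0 := by ring
    rw [ha, h1, mul_zero, Real.exp_zero, Nat.cast_pow, one_mul]

/-- The values and the constants of terms whose value is always `1`. -/
private theorem Pth_e1 {t : Tm} (h : big t = false) : e1 t = 1 := by
  have h1 := e1_le t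
  have h2 := e1_pos t
  rw [(cst_nbig h).2.2, pow_zero] at h1
  omega

private theorem Pth_nbig (y : Pt W) (τ : ℝ) {t : Tm} (h : big t = false) : vh W y τ t = 1 := by
  induction t with
  | one => rfl
  | var w => exact absurd h (by simp [big])
  | add s t hs ht => exact absurd h (by simp [big])
  | mul s t hs ht =>
    have h1 : big s = false ∧ big t = false := by simpa [big] using h
    show vh W y τ s * vh W y τ t = 1
    rw [hs h1.1, ht h1.2, mul_one]
  | pow a b ha _ =>
    have h1 : big a = false := h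
    show Real.exp ((rf W b y - cs b) *
      (Real.log (vh W y τ a) + (τ - 1) * Real.log (e1 a))) * vh W y τ a ^ cs b = 1
    rw [ha h1, Pth_e1 h1, Nat.cast_one, Real.log_one, mul_zero, add_zero, mul_zero, Real.exp_zero,
      one_pow, one_mul]

private theorem Pth_ntr (y : Pt W) (τ : ℝ) {a b : Tm} (h : ¬ Tr a b) :
    lx W y τ (.pow a b) = 0 := by
  show (rf W b y - cs b) * (Real.log (vh W y τ a) + (τ - 1) * Real.log (e1 a)) = 0
  by_cases h1 : big a = true
  · have h2 : cst b = true := by
      by_contra h3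
      exact h ⟨h1, by simpa using h3⟩
    rw [rf_cst h2, sub_self, zero_mul]
  · have h2 : big a = false := by simpa using h1
    rw [Pth_nbig y τ h2, Pth_e1 h2, Nat.cast_one, Real.log_one, mul_zero, add_zero, mul_zero]

theorem av_vh (y : Pt W) (τ : ℝ) (t : Tm) :
    av (fun a => Real.exp (lx W y τ a)) t = vh W y τ t := by
  induction t with
  | one => rfl
  | var w => rfl
  | add s t hs ht =>
    show av (fun a => Real.exp (lx W y τ a)) s + av (fun a => Real.exp (lx W y τ a)) t =
      vh W y τ s + vh W y τ t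
    rw [hs, ht]
  | mul s t hs ht =>
    show av (fun a => Real.exp (lx W y τ a)) s * av (fun a => Real.exp (lx W y τ a)) t =
      vh W y τ s * vh W y τ t
    rw [hs, ht]
  | pow a b ha _ =>
    show (if Tr a b then Real.exp (lx W y τ (.pow a b)) else 1) *
      av (fun a => Real.exp (lx W y τ a)) a ^ cs b =
      Real.exp (lx W y τ (.pow a b)) * vh W y τ a ^ cs b
    rw [ha]
    by_cases h : Tr a b
    · rw [if_pos h]
    · rw [if_neg h, Pth_ntr y τ h, Real.exp_zero]

theorem lx_ntr (y : Pt W) (τ : ℝ) {a b : Tm} (h : ¬ Tr a b) : lx W y τ (.pow a b) = 0 :=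
  Pth_ntr y τ h

theorem lx_one (y : Pt W) {a : Tm} (ha : a ∈ ats a) : lx W y 1 a = lr W a y := by
  have _ := ha
  cases a with
  | one => rfl
  | var w => exact one_mul _
  | add s t => rfl
  | mul s t => rfl
  | pow a b =>
    show (rf W b y - cs b) * (Real.log (vh W y 1 a) + (1 - 1) * Real.log (e1 a)) =
      (rf W b y - cs b) * Real.log (rf W a y)
    rw [vh_one, sub_self, zero_mul, add_zero]

theorem lx_zero (y : Pt W) (a : Tm) : lx W y 0 a = 0 := by
  cases a with
  | one => rfl
  | var w => exact zero_mul _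
  | add s t => rfl
  | mul s t => rfl
  | pow a b =>
    show (rf W b y - cs b) * (Real.log (vh W y 0 a) + (0 - 1) * Real.log (e1 a)) = 0
    rw [vh_zero]
    ring

/-- The derivative of the logarithm of a virtual power. -/
private theorem Pth_der {y : Pt W} {τ : ℝ} {a : Tm} (b : Tm)
    (ha : HasDerivAt (fun τ => vh W y τ a) (dl (Py W y τ) a) τ) :
    HasDerivAt (fun τ => lx W y τ (.pow a b)) (ph (Py W y τ) (.pow a b)) τ := by
  by_cases hT : Tr a b
  · have h0 : ph (Py W y τ) (.pow a b) = (av (Py W y τ).g b - cs b) *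
        (dl (Py W y τ) a * (Py W y τ).iv (av (Py W y τ).f a) + (Py W y τ).lc (e1 a)) := if_pos hT
    have h1 : av (Py W y τ).g b = rf W b y := (rf_av b y).symm
    have h2 : av (Py W y τ).f a = vh W y τ a := av_vh y τ a
    rw [h0, h1, h2]
    show HasDerivAt (fun τ => (rf W b y - cs b) *
        (Real.log (vh W y τ a) + (τ - 1) * Real.log (e1 a)))
      ((rf W b y - cs b) * (dl (Py W y τ) a * (vh W y τ a)⁻¹ + Real.log (e1 a))) τ
    have h3 : HasDerivAt (fun τ => Real.log (vh W y τ a)) (dl (Py W y τ) a / vh W y τ a) τ :=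
      ha.log (vh_pos y τ a).ne'
    have h4 : HasDerivAt (fun τ : ℝ => (τ - 1) * Real.log (e1 a)) (1 * Real.log (e1 a)) τ :=
      ((hasDerivAt_id τ).sub_const 1).mul_const _
    rw [one_mul] at h4
    exact (h3.add h4).const_mul (rf W b y - cs b)
  · have h0 : ph (Py W y τ) (.pow a b) = 0 := if_neg hT
    have h1 : (fun τ => lx W y τ (.pow a b)) = fun _ => 0 := by
      funext τ
      exact lx_ntr y τ hT
    rw [h0, h1]
    exact hasDerivAt_const τ (0 : ℝ)

theorem vh_der (y : Pt W) (τ : ℝ) (t : Tm) :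
    HasDerivAt (fun τ => vh W y τ t) (dl (Py W y τ) t) τ := by
  induction t with
  | one => exact hasDerivAt_const τ (1 : ℝ)
  | var w =>
    show HasDerivAt (fun τ => Real.exp (τ * lr W (.var w) y))
      (Real.exp (τ * lr W (.var w) y) * lr W (.var w) y) τ
    have h1 : HasDerivAt (fun τ : ℝ => τ * lr W (.var w) y) (1 * lr W (.var w) y) τ :=
      (hasDerivAt_id τ).mul_const _
    rw [one_mul] at h1
    exact h1.exp
  | add s t hs ht => exact hs.add ht
  | mul s t hs ht =>
    have h1 : dl (Py W y τ) (.mul s t) =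
        dl (Py W y τ) s * vh W y τ t + vh W y τ s * dl (Py W y τ) t := by
      show dl (Py W y τ) s * av (fun a => Real.exp (lx W y τ a)) t +
        av (fun a => Real.exp (lx W y τ a)) s * dl (Py W y τ) t = _
      rw [av_vh, av_vh]
    rw [h1]
    exact hs.mul ht
  | pow a b ha _ =>
    have h1 := (Pth_der b ha).exp.mul (ha.pow (cs b))
    have h2 : av (Py W y τ).f a = vh W y τ a := av_vh y τ a
    have h3 : (if Tr a b then (Py W y τ).f (.pow a b) else 1) =
        Real.exp (lx W y τ (.pow a b)) := by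
      by_cases h : Tr a b
      · rw [if_pos h]
        rfl
      · rw [if_neg h, lx_ntr y τ h, Real.exp_zero]
    have h4 : dl (Py W y τ) (.pow a b) = Real.exp (lx W y τ (.pow a b)) *
        (ph (Py W y τ) (.pow a b) * vh W y τ a ^ cs b +
          cs b * vh W y τ a ^ (cs b - 1) * dl (Py W y τ) a) := by
      show (if Tr a b then (Py W y τ).f (.pow a b) else 1) *
        (ph (Py W y τ) (.pow a b) * av (Py W y τ).f a ^ cs b +
          cs b * av (Py W y τ).f a ^ (cs b - 1) * dl (Py W y τ) a) = _
      rw [h3, h2]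
    rw [h4]
    refine h1.congr_deriv ?_
    have h5 : ((fun τ => vh W y τ a) ^ cs b) τ = vh W y τ a ^ cs b := rfl
    rw [h5]
    ring

theorem lx_der (y : Pt W) (τ : ℝ) (a : Tm) :
    HasDerivAt (fun τ => lx W y τ a) (ph (Py W y τ) a) τ := by
  cases a with
  | one => exact hasDerivAt_const τ (0 : ℝ)
  | var w =>
    have h1 : HasDerivAt (fun τ : ℝ => τ * lr W (.var w) y) (1 * lr W (.var w) y) τ :=
      (hasDerivAt_id τ).mul_const _
    rw [one_mul] at h1
    exact h1
  | add s t => exact hasDerivAt_const τ (0 : ℝ)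
  | mul s t => exact hasDerivAt_const τ (0 : ℝ)
  | pow a b => exact Pth_der b (vh_der y τ a)

/-- The relations hold for the logarithms on the path. -/
theorem ch_lx (y : Pt W) (τ : ℝ) : ∀ as, Cl W as → Ch W as (lx W y τ) := by
  refine ch_all (ρ := fun b => rf W b y)
    (lam' := fun t => Real.log (vh W y τ t) + (τ - 1) * Real.log (e1 t)) ?_ ?_ ?_
  · intro w _
    show τ * lr W (.var w) y = Real.log (Real.exp (τ * lr W (.var w) y)) +
      (τ - 1) * Real.log ((1 : ℕ) : ℝ)
    rw [Real.log_exp, Nat.cast_one, Real.log_one, mul_zero, add_zero]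
  · intro a b _
    rfl
  · intro as hc hch
    obtain ⟨φ, h0, hadd, hφ⟩ := exists_phi hch
    have hMo : Mo (VA W (At W as)) fun v => Real.exp (φ v) := by
      refine ⟨?_, fun v hv w hw => ?_⟩
      · rw [h0, Real.exp_zero]
      · rw [hadd v hv w hw, Real.exp_add]
    refine ⟨rfl, fun _ _ _ _ => rfl, fun _ _ _ _ => rfl, fun s t _ _ h => congrFun h y, ?_, ?_, ?_,
      fun t _ => (rf_pos W t y).ne'⟩
    · intro s t _ _
      show Real.log (vh W y τ s * vh W y τ t) + (τ - 1) * Real.log ((e1 s * e1 t : ℕ) : ℝ) =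
        (Real.log (vh W y τ s) + (τ - 1) * Real.log (e1 s)) +
          (Real.log (vh W y τ t) + (τ - 1) * Real.log (e1 t))
      have hs : (e1 s : ℝ) ≠ 0 := Nat.cast_ne_zero.2 (by have := e1_pos s; omega)
      have ht : (e1 t : ℝ) ≠ 0 := Nat.cast_ne_zero.2 (by have := e1_pos t; omega)
      rw [Real.log_mul (vh_pos y τ s).ne' (vh_pos y τ t).ne', Nat.cast_mul, Real.log_mul hs ht]
      ring
    · intro s t hs ht h
      have h1 := rp_ext hc hs ht h
      have h2 : e1 s = e1 t := by
        have h3 := e1_evl (W := W) s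
        rw [h1, ← e1_evl (W := W) t] at h3
        exact_mod_cast h3
      have h4 : vh W y τ s = vh W y τ t := by
        have h5 : ∀ a ∈ At W as, (fun a => Real.exp (lx W y τ a)) a =
            (fun v => Real.exp (φ v)) (lr W a) := by
          intro a ha
          show Real.exp (lx W y τ a) = Real.exp (φ (lr W a))
          rw [hφ a ha]
        rw [← av_vh y τ s, ← av_vh y τ t, av_evl hMo h5 hs, av_evl hMo h5 ht, h1]
      show Real.log (vh W y τ s) + (τ - 1) * Real.log (e1 s) =
        Real.log (vh W y τ t) + (τ - 1) * Real.log (e1 t)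
      rw [h2, h4]
    · intro a b _ _
      show Real.log (Real.exp ((rf W b y - cs b) * (Real.log (vh W y τ a) + (τ - 1) *
        Real.log (e1 a))) * vh W y τ a ^ cs b) + (τ - 1) * Real.log ((e1 a ^ cs b : ℕ) : ℝ) =
        rf W b y * (Real.log (vh W y τ a) + (τ - 1) * Real.log (e1 a))
      rw [Real.log_mul (Real.exp_pos _).ne' (pow_pos (vh_pos y τ a) _).ne', Real.log_exp,
        Real.log_pow, Nat.cast_pow, Real.log_pow]
      ring

/-- If the relation holds for the first order data at all points of all paths, then it holds for the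
logarithms. -/
theorem of_path {S : Finset Tm} {k : Tm → ℤ} (hS : ∀ a ∈ S, a ∈ ats a)
    (h : ∀ y τ, ∑ a ∈ S, (k a : ℝ) * ph (Py W y τ) a = 0) :
    ∀ y, ∑ a ∈ S, (k a : ℝ) * lr W a y = 0 := by
  intro y
  have h1 : ∀ τ, HasDerivAt (fun τ => ∑ a ∈ S, (k a : ℝ) * lx W y τ a) 0 τ := by
    intro τ
    rw [← h y τ]
    exact HasDerivAt.fun_sum fun a _ => (lx_der y τ a).const_mul _
  have h2 := is_const_of_deriv_eq_zero (f := fun τ => ∑ a ∈ S, (k a : ℝ) * lx W y τ a)
    (fun τ => (h1 τ).differentiableAt) (fun τ => (h1 τ).deriv) 1 0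
  have h3 : ∑ a ∈ S, (k a : ℝ) * lx W y 1 a = ∑ a ∈ S, (k a : ℝ) * lx W y 0 a := h2
  have h4 : ∑ a ∈ S, (k a : ℝ) * lx W y 0 a = 0 :=
    Finset.sum_eq_zero fun a _ => by rw [lx_zero, mul_zero]
  rw [h4] at h3
  rw [← h3]
  exact Finset.sum_congr rfl fun a ha => by rw [lx_one y (hS a ha)]

end Pool.Agent.TD
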