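import Pool.Agent.H.MP_b2d7dd_lc.TD.Md
import Pool.Agent.H.MP_b2d7dd_lc.TC.Mu
import Pool.Agent.H.MP_b2d7dd_lc.TD.Re
import Pool.Agent.H.MP_b2d7dd_lc.TW.Run

/-!
# Module Hz: the hash values

`Pz` = the parameters given by the random bits `Z`: the characters given by the table `ν` and the
blocks number `b` and `c + b`, the values of the variables (blocks `2 * c + idxOf w N`) and of the
coprime base (blocks `3 * c + k`). `hz` = the hash values of the subterms, zero if the value of a base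
is not invertible.
-/

namespace Pool.Agent.TD

open Pool.Agent.TI (Tm)
open Pool.Agent.TC (Pt rf rf_pos evl Mo Su nrm Pr Gx Lx h1 h2 al ga lcP MB Vn Coh Fai Eqv Bas crd chi)
open Pool.Agent.TC (muB Pb)
open Pool.Agent.TC (chi_zero chi_add evl_one evl_zero evl_single evl_mul evl_prod evl_sum evl_zsmul)
open Pool.Agent.TE (bl)
open Pool.Agent.TW (zv wun)
open Pool.Agent.H.MP_5be563_lc.PT Finset

variable (W : Finset (List Bool)) (e : List Bool) (v c : ℕ) (N : List (List Bool))
  (B : List (List Bool)) (ν : List (ℕ → ℤ)) (ex : ℕ → Tm) (i : ℕ) (Z : List Bool)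

/-- The parameters. -/
noncomputable def Pz : Pr (ZMod (bval e + 2)) where
  f := fun t => chi (fun b => wun e (bl v Z b)) ν (fun a => lr W (ex a)) i (lr W t)
  g := fun t => chi (fun b => wun e (bl v Z (c + b))) ν (fun a => lr W (ex a)) i (lr W t)
  α := fun w => zv e (bl v Z (2 * c + N.idxOf w))
  lc := fun x => ∑ k ∈ range B.length,
    (muB B k x : ZMod (bval e + 2)) * zv e (bl v Z (3 * c + k))
  iv := fun x => x ^ bval e

/-- The values of the bases are invertible. -/
def Ok : Prop := ∀ a ≤ i, ∀ u b, ex a = .pow u b →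
  av (Pz W e v c N B ν ex i Z).f u * (Pz W e v c N B ν ex i Z).iv
    (av (Pz W e v c N B ν ex i Z).f u) = 1

open Classical in
/-- The hash values. -/
noncomputable def hz (a : ℕ) : ZMod (bval e + 2) :=
  if Ok W e v c N B ν ex i Z then ph (Pz W e v c N B ν ex i Z) (ex a) else 0

/-- The values of the exponents. -/
noncomputable def fz (g : Gx W) : ZMod (bval e + 2) :=
  chi (fun b => wun e (bl v Z b)) ν (fun a => lr W (ex a)) i g.1 *
    chi (fun b => wun e (bl v Z (c + b))) ν (fun a => lr W (ex a)) i g.2.1 *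
      g.2.2.prod fun x m => Sum.elim (fun w => zv e (bl v Z (2 * c + N.idxOf w)))
        (fun k => zv e (bl v Z (3 * c + k))) x ^ m

variable {W e v c N B ν ex i Z} {n L : ℕ}

private theorem Hz_mono {i j : ℕ} (hij : i ≤ j) : exA ex i ⊆ exA ex j := by
  rintro u ⟨a, ha, h1, h2⟩
  exact ⟨a, lt_of_lt_of_le ha hij, h1, h2⟩

private theorem Hz_fz0 (g : Gx W) : fz W e v c N ν ex i Z g =
    chi (fun b => wun e (bl v Z b)) ν (fun a => lr W (ex a)) i g.1 *
    chi (fun b => wun e (bl v Z (c + b))) ν (fun a => lr W (ex a)) i g.2.1 *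
      g.2.2.prod fun x m => Sum.elim (fun w => zv e (bl v Z (2 * c + N.idxOf w)))
        (fun k => zv e (bl v Z (3 * c + k))) x ^ m := rfl

theorem fit_z (hc : Coh (fun a => lr W (ex a)) i ν) :
    Fit W B.length (muB B) (exA ex i) (fz W e v c N ν ex i Z) (Pz W e v c N B ν ex i Z) := by
  refine ⟨⟨?_, ?_⟩, ?_, ?_, ?_⟩
  · rw [Hz_fz0]
    show chi _ ν (fun a => lr W (ex a)) i 0 * chi _ ν (fun a => lr W (ex a)) i 0 *
      (0 : (List Bool ⊕ ℕ) →₀ ℕ).prod _ = 1
    rw [chi_zero _ hc, chi_zero _ hc, Finsupp.prod_zero_index, mul_one, mul_one]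
  · intro g hg h hh
    obtain ⟨g1, g2⟩ := AddSubmonoid.mem_prod.1 hg
    obtain ⟨g3, -⟩ := AddSubmonoid.mem_prod.1 g2
    obtain ⟨k1, k2⟩ := AddSubmonoid.mem_prod.1 hh
    obtain ⟨k3, -⟩ := AddSubmonoid.mem_prod.1 k2
    rw [VA_exA] at g1 g3 k1 k3
    rw [Hz_fz0, Hz_fz0, Hz_fz0]
    show chi _ ν (fun a => lr W (ex a)) i (g.1 + h.1) *
      chi _ ν (fun a => lr W (ex a)) i (g.2.1 + h.2.1) * (g.2.2 + h.2.2).prod _ = _
    rw [chi_add _ hc g1 k1, chi_add _ hc g3 k3,
      Finsupp.prod_add_index' (fun x => pow_zero _) (fun x m m' => pow_add _ _ _)]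
    ring
  · intro a _
    rw [Hz_fz0]
    show chi _ ν (fun a => lr W (ex a)) i (lr W a) =
      chi _ ν (fun a => lr W (ex a)) i (lr W a) * chi _ ν (fun a => lr W (ex a)) i 0 *
      (0 : (List Bool ⊕ ℕ) →₀ ℕ).prod _
    rw [chi_zero _ hc, Finsupp.prod_zero_index, mul_one, mul_one]
  · intro a _
    rw [Hz_fz0]
    show chi _ ν (fun a => lr W (ex a)) i (lr W a) =
      chi _ ν (fun a => lr W (ex a)) i 0 * chi _ ν (fun a => lr W (ex a)) i (lr W a) *
      (0 : (List Bool ⊕ ℕ) →₀ ℕ).prod _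
    rw [chi_zero _ hc, Finsupp.prod_zero_index, mul_one, one_mul]
  · intro w
    rw [Hz_fz0]
    show zv e (bl v Z (2 * c + N.idxOf w)) =
      chi _ ν (fun a => lr W (ex a)) i 0 * chi _ ν (fun a => lr W (ex a)) i 0 *
      (Finsupp.single (Sum.inl w) 1 : (List Bool ⊕ ℕ) →₀ ℕ).prod _
    rw [chi_zero _ hc, chi_zero _ hc, Finsupp.prod_single_index (by exact pow_zero _), pow_one,
      mul_one, one_mul]
    rfl

/-- The values of the parameters of the coprime base. -/
private theorem Hz_lc (hc : Coh (fun a => lr W (ex a)) i ν) (x : ℕ) :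
    (Pz W e v c N B ν ex i Z).lc x = ∑ k ∈ Finset.range B.length,
      (muB B k x : ZMod (bval e + 2)) * fz W e v c N ν ex i Z
        (0, 0, Finsupp.single (Sum.inr k) 1) := by
  show ∑ k ∈ range B.length, (muB B k x : ZMod (bval e + 2)) * zv e (bl v Z (3 * c + k)) = _
  refine Finset.sum_congr rfl fun k _ => ?_
  congr 1
  rw [Hz_fz0]
  show zv e (bl v Z (3 * c + k)) =
    chi _ ν (fun a => lr W (ex a)) i 0 * chi _ ν (fun a => lr W (ex a)) i 0 *
    (Finsupp.single (Sum.inr k) 1 : (List Bool ⊕ ℕ) →₀ ℕ).prod _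
  rw [chi_zero _ hc, chi_zero _ hc, Finsupp.prod_single_index (by exact pow_zero _), pow_one,
    mul_one, one_mul]
  rfl

private theorem Hz_atom {u t : Tm} (h : u ∈ ats t) : (∃ w, u = .var w) ∨ ∃ a b, u = .pow a b := by
  induction t with
  | one => exact absurd h (Set.notMem_empty u)
  | var w => exact Or.inl ⟨w, h⟩
  | add s t hs ht =>
    rcases h with h | h
    · exact hs h
    · exact ht h
  | mul s t hs ht =>
    rcases h with h | h
    · exact hs h
    · exact ht h
  | pow s t hs _ =>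
    rcases h with h | h
    · exact Or.inr ⟨s, t, h.1⟩
    · exact hs h

private theorem Hz_na (s t : Tm) : Tm.add s t ∉ ats (Tm.add s t) := by
  intro h
  rcases Hz_atom h with ⟨w, h1⟩ | ⟨a, b, h1⟩
  · exact Tm.noConfusion h1
  · exact Tm.noConfusion h1

private theorem Hz_nm (s t : Tm) : Tm.mul s t ∉ ats (Tm.mul s t) := by
  intro h
  rcases Hz_atom h with ⟨w, h1⟩ | ⟨a, b, h1⟩
  · exact Tm.noConfusion h1
  · exact Tm.noConfusion h1

/-- The atoms of the first subterms which are not variables and powers. -/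
private theorem Hz_at (h : FamC W n L ex) (hi : i < L) {a : ℕ} (ha : a ≤ i)
    (h0 : ex a ∉ ats (ex a)) : ats (ex a) ⊆ exA ex i := by
  intro u hu
  obtain ⟨b, hb, h1, h2⟩ := h.at1 a (lt_of_le_of_lt ha hi) hu
  rcases Nat.lt_succ_iff_lt_or_eq.1 hb with hb | hb
  · exact ⟨b, lt_of_lt_of_le hb ha, h1, h2⟩
  · exfalso
    rw [hb] at h1
    rw [h1] at hu
    exact h0 hu

/-- The bases of the subterms. -/
private theorem Hz_bs (h : FamC W n L ex) (hi : i < L) (hok : Ok W e v c N B ν ex i Z) {a : ℕ}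
    (ha : a ≤ i) {u : Tm} (hu : u ∈ bases (ex a)) :
    av (Pz W e v c N B ν ex i Z).f u * (Pz W e v c N B ν ex i Z).iv
      (av (Pz W e v c N B ν ex i Z).f u) = 1 := by
  obtain ⟨a', ha', b, hb⟩ := h.bs a (lt_of_le_of_lt ha hi) u hu
  exact hok a' (ha'.trans ha) u b hb

/-- The values of the numerators and denominators of the subterms. -/
private theorem Hz_val (h : FamC W n L ex) (hi : i < L) (hc : Coh (fun a => lr W (ex a)) i ν)
    (hok : Ok W e v c N B ν ex i Z) {a : ℕ} (ha : a ≤ i) :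
    evl (fz W e v c N ν ex i Z) (phP W B.length (muB B) (ex a)) =
      hz W e v c N B ν ex i Z a * evl (fz W e v c N ν ex i Z) (dn W (ex a)) ∧
    IsUnit (evl (fz W e v c N ν ex i Z) (dn W (ex a))) := by
  have hA : ClA (exA ex i) := h.clA hi.le
  have hF : Fit W B.length (muB B) (exA ex i) (fz W e v c N ν ex i Z)
    (Pz W e v c N B ν ex i Z) := fit_z hc
  have hz1 : hz W e v c N B ν ex i Z a = ph (Pz W e v c N B ν ex i Z) (ex a) := if_pos hok
  rw [hz1]
  have hb : ∀ u ∈ bases (ex a), av (Pz W e v c N B ν ex i Z).f u *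
      (Pz W e v c N B ν ex i Z).iv (av (Pz W e v c N B ν ex i Z).f u) = 1 :=
    fun u hu => Hz_bs h hi hok ha hu
  have hu : ∀ u ∈ bases (ex a), IsUnit (av (Pz W e v c N B ν ex i Z).f u) :=
    fun u hu => IsUnit.of_mul_eq_one _ (hb u hu)
  cases hx : ex a with
  | one =>
    have h1 : evl (fz W e v c N ν ex i Z) (1 : Lx W) = 1 := evl_one hF.mo
    constructor
    · show evl _ (0 : Lx W) = 0 * _
      rw [evl_zero, zero_mul]
    · show IsUnit (evl _ (1 : Lx W))
      rw [h1]
      exact isUnit_one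
  | var w =>
    have h1 : evl (fz W e v c N ν ex i Z) (1 : Lx W) = 1 := evl_one hF.mo
    constructor
    · show evl _ (AddMonoidAlgebra.single (0, 0, Finsupp.single (Sum.inl w) 1) 1 : Lx W) =
        (Pz W e v c N B ν ex i Z).α w * evl _ (1 : Lx W)
      rw [evl_single, h1, hF.hα w, Int.cast_one, one_mul, mul_one]
    · show IsUnit (evl _ (1 : Lx W))
      rw [h1]
      exact isUnit_one
  | add s t =>
    have h2 : ats (ex a) ⊆ exA ex i := by
      refine Hz_at h hi ha ?_
      rw [hx]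
      exact Hz_na s t
    constructor
    · show evl _ (0 : Lx W) = 0 * _
      rw [evl_zero, zero_mul]
    · rw [← hx]
      exact dn_unit hA hF h2 hu
  | mul s t =>
    have h2 : ats (ex a) ⊆ exA ex i := by
      refine Hz_at h hi ha ?_
      rw [hx]
      exact Hz_nm s t
    constructor
    · show evl _ (0 : Lx W) = 0 * _
      rw [evl_zero, zero_mul]
    · rw [← hx]
      exact dn_unit hA hF h2 hu
  | pow s t =>
    obtain ⟨h3, h4⟩ := h.at2 a (lt_of_le_of_lt ha hi) s t hx
    have hs := h3.trans (Hz_mono ha)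
    have ht := h4.trans (Hz_mono ha)
    rw [hx] at hb hu
    constructor
    · exact evl_phP hA hF hs ht fun u hu => ⟨hb u hu, Hz_lc hc _⟩
    · change IsUnit (evl _ (dn W s * hP W s))
      obtain ⟨s1, -, s2, -⟩ := su_P (W := W) (κ := B.length) (mu := muB B) hA hs
      rw [evl_mul hF.mo s2 s1, (evl_hP hF hs).1]
      exact (dn_unit hA hF hs fun u h5 => hu u (Or.inr h5)).mul (hu s (Or.inl rfl))

private theorem Hz_Dn (h : FamC W n L ex) (hi : i < L) (hc : Coh (fun a => lr W (ex a)) i ν)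
    (s : Finset ℕ) (hs : s ⊆ range (i + 1)) :
    evl (fz W e v c N ν ex i Z) (∏ b ∈ s, dn W (ex b)) =
      ∏ b ∈ s, evl (fz W e v c N ν ex i Z) (dn W (ex b)) := by
  have hF : Fit W 0 (fun _ _ => 0) (exA ex i) (fz W e v c N ν ex i Z)
    (Pz W e v c N [] ν ex i Z) := ⟨(fit_z (B := []) hc).mo, (fit_z (B := []) hc).hf,
      (fit_z (B := []) hc).hg, (fit_z (B := []) hc).hα⟩
  refine evl_prod hF.mo _ _ fun b hb => ?_
  exact (su_cn (κ := 0) (mu := fun _ _ => 0) h hi
    (Nat.lt_succ_iff.1 (Finset.mem_range.1 (hs hb)))).2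

/-- The values of the numerators. -/
theorem evl_cn (h : FamC W n L ex) (hi : i < L) (hc : Coh (fun a => lr W (ex a)) i ν)
    (hok : Ok W e v c N B ν ex i Z) {a : ℕ} (ha : a ≤ i) :
    evl (fz W e v c N ν ex i Z) (cn W B.length (muB B) ex (i + 1) a) =
      hz W e v c N B ν ex i Z a * evl (fz W e v c N ν ex i Z) (Dn W ex (i + 1)) := by
  have hF : Fit W B.length (muB B) (exA ex i) (fz W e v c N ν ex i Z)
    (Pz W e v c N B ν ex i Z) := fit_z hc
  have ha' : a ∈ range (i + 1) := Finset.mem_range.2 (Nat.lt_succ_of_le ha)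
  have h1 : Su (Sg W (exA ex i)) (∏ b ∈ (range (i + 1)).erase a, dn W (ex b)) :=
    Su.prod _ _ fun b hb => (su_cn (κ := B.length) (mu := muB B) h hi
      (Nat.lt_succ_iff.1 (Finset.mem_range.1 (Finset.mem_of_mem_erase hb)))).2
  unfold cn Dn
  rw [evl_mul hF.mo (su_cn h hi ha).1 h1, Hz_Dn h hi hc _ (Finset.erase_subset _ _),
    Hz_Dn h hi hc _ subset_rfl, (Hz_val h hi hc hok ha).1, ← Finset.mul_prod_erase _ _ ha']
  ring

/-- The denominator is invertible. -/
theorem unit_Dn (h : FamC W n L ex) (hi : i < L) (hc : Coh (fun a => lr W (ex a)) i ν)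
    (hok : Ok W e v c N B ν ex i Z) : IsUnit (evl (fz W e v c N ν ex i Z) (Dn W ex (i + 1))) := by
  unfold Dn
  rw [Hz_Dn h hi hc _ subset_rfl]
  refine Finset.prod_induction _ IsUnit (fun _ _ => IsUnit.mul) isUnit_one fun a ha => ?_
  exact (Hz_val h hi hc hok (Nat.lt_succ_iff.1 (Finset.mem_range.1 ha))).2

/-- For a prime modulus: if the denominator is not zero, then the bases are invertible. -/
theorem ok_of_Dn (h : FamC W n L ex) (hi : i < L) (hc : Coh (fun a => lr W (ex a)) i ν)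
    (hp : (bval e + 2).Prime) (h0 : evl (fz W e v c N ν ex i Z) (Dn W ex (i + 1)) ≠ 0) :
    Ok W e v c N B ν ex i Z := by
  have := Fact.mk hp
  have hA : ClA (exA ex i) := h.clA hi.le
  have hF : Fit W B.length (muB B) (exA ex i) (fz W e v c N ν ex i Z)
    (Pz W e v c N B ν ex i Z) := fit_z hc
  intro a ha u b hb
  unfold Dn at h0
  rw [Hz_Dn h hi hc _ subset_rfl, Finset.prod_ne_zero_iff] at h0
  have h1 := h0 a (Finset.mem_range.2 (Nat.lt_succ_of_le ha))
  rw [hb] at h1
  have hs := (h.at2 a (lt_of_le_of_lt ha hi) u b hb).1.trans (Hz_mono ha)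
  change evl _ (dn W u * hP W u) ≠ 0 at h1
  obtain ⟨s1, -, s2, -⟩ := su_P (W := W) (κ := B.length) (mu := muB B) hA hs
  rw [evl_mul hF.mo s2 s1, (evl_hP hF hs).1] at h1
  have h2 : av (Pz W e v c N B ν ex i Z).f u ≠ 0 := right_ne_zero_of_mul h1
  have h3 := ZMod.pow_card_sub_one_eq_one h2
  show av (Pz W e v c N B ν ex i Z).f u * (av (Pz W e v c N B ν ex i Z).f u) ^ bval e = 1
  rw [← pow_succ']
  exact h3

/-- The relations hold for the hash values. -/
theorem hz_rel (h : FamC W n L ex) {Pk : ℕ → ℕ} (hM : MB B.length Pk (muB B) (Bs1 ex L))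
    (hi : i < L) (hc : Coh (fun a => lr W (ex a)) i ν) (k : ℕ → ℤ)
    (hk : ∑ a ∈ range (i + 1), k a • lr W (ex a) = 0) :
    ∑ a ∈ range (i + 1), ((k a : ℤ) : ZMod (bval e + 2)) * hz W e v c N B ν ex i Z a = 0 := by
  by_cases hok : Ok W e v c N B ν ex i Z
  · have h1 := congrArg (evl (fz W e v c N ν ex i Z)) (rel_fwd h hM (Nat.succ_le_of_lt hi) k hk)
    rw [evl_zero, evl_sum] at h1
    have h2 : ∀ a ∈ range (i + 1), evl (fz W e v c N ν ex i Z)
        (k a • cn W B.length (muB B) ex (i + 1) a) =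
        (((k a : ℤ) : ZMod (bval e + 2)) * hz W e v c N B ν ex i Z a) *
          evl (fz W e v c N ν ex i Z) (Dn W ex (i + 1)) := by
      intro a ha
      rw [evl_zsmul, evl_cn h hi hc hok (Nat.lt_succ_iff.1 (Finset.mem_range.1 ha)), mul_assoc]
    rw [Finset.sum_congr rfl h2, ← Finset.sum_mul] at h1
    exact ((unit_Dn (B := B) h hi hc hok).mul_left_eq_zero).1 h1
  · refine Finset.sum_eq_zero fun a _ => ?_
    have h2 : hz W e v c N B ν ex i Z a = 0 := if_neg hok
    rw [h2, mul_zero]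

end Pool.Agent.TD
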