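import Pool.Agent.H.MP_b2d7dd_lc.TD.Rl
import Pool.Agent.H.MP_b2d7dd_lc.TC.Stk

/-!
# Module Stk: the family of the subterms
-/

namespace Pool.Agent.TD

open Pool.Agent.TI (Tm Tok names Tm.toks)
open Pool.Agent.TC (Stk subs exF length_subs stk_pair)

private def Stk_Q (U : List Tm) (i : ℕ) : Prop :=
  (∀ u ∈ ats (U.getD i .one), u = U.getD i .one ∨ u ∈ U.take i) ∧
    (∀ a b, U.getD i .one = .pow a b → (∀ u ∈ ats a ∪ ats b, u ∈ U.take i)) ∧
      ∀ c ∈ bases (U.getD i .one), ∃ j ≤ i, ∃ b, U.getD j .one = .pow c b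

private theorem Stk_getD_lt {U : List Tm} (x : Tm) {i : ℕ} (hi : i < U.length) :
    (U ++ [x]).getD i .one = U.getD i .one := by
  rw [List.getD_eq_getElem?_getD, List.getD_eq_getElem?_getD, List.getElem?_append_left hi]

private theorem Stk_getD_eq (U : List Tm) (x : Tm) : (U ++ [x]).getD U.length .one = x := by
  rw [List.getD_eq_getElem?_getD, List.getElem?_append_right le_rfl, Nat.sub_self]
  rfl

private theorem Stk_mem {U : List Tm} {a : Tm} (h : a ∈ U) :
    ∃ j < U.length, U.getD j .one = a := by
  obtain ⟨j, hj, h1⟩ := List.mem_iff_getElem.1 h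
  refine ⟨j, hj, ?_⟩
  rw [List.getD_eq_getElem?_getD, List.getElem?_eq_getElem hj, h1]
  rfl

private theorem Stk_step {U : List Tm} {x : Tm} (ih : ∀ i < U.length, Stk_Q U i)
    (hA : ∀ u ∈ ats x, u = x ∨ u ∈ U)
    (hB : ∀ a b, x = .pow a b → ∀ u ∈ ats a ∪ ats b, u ∈ U)
    (hC : ∀ c ∈ bases x, (∃ b, x = .pow c b) ∨ ∃ j < U.length, ∃ b, U.getD j .one = .pow c b) :
    ∀ i < (U ++ [x]).length, Stk_Q (U ++ [x]) i := by
  intro i hi
  rw [List.length_append, List.length_singleton] at hi
  rcases Nat.lt_or_ge i U.length with h1 | h1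
  · obtain ⟨q1, q2, q3⟩ := ih i h1
    unfold Stk_Q
    rw [Stk_getD_lt x h1, List.take_append_of_le_length h1.le]
    refine ⟨q1, q2, fun c hc => ?_⟩
    obtain ⟨j, hj, b, hb⟩ := q3 c hc
    exact ⟨j, hj, b, by rw [Stk_getD_lt x (lt_of_le_of_lt hj h1)]; exact hb⟩
  · have h2 : i = U.length := by omega
    subst h2
    unfold Stk_Q
    rw [Stk_getD_eq, List.take_left]
    refine ⟨hA, hB, fun c hc => ?_⟩
    rcases hC c hc with ⟨b, hb⟩ | ⟨j, hj, b, hb⟩
    · exact ⟨U.length, le_rfl, b, by rw [Stk_getD_eq]; exact hb⟩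
    · exact ⟨j, hj.le, b, by rw [Stk_getD_lt x hj]; exact hb⟩

private theorem Stk_sub {U : List Tm} (ih : ∀ i < U.length, Stk_Q U i) {a : Tm} (ha : a ∈ U) :
    (∀ u ∈ ats a, u ∈ U) ∧ ∀ c ∈ bases a, ∃ j < U.length, ∃ b, U.getD j .one = .pow c b := by
  obtain ⟨j, hj, h1⟩ := Stk_mem ha
  obtain ⟨q1, -, q3⟩ := ih j hj
  rw [h1] at q1 q3
  refine ⟨fun u hu => ?_, fun c hc => ?_⟩
  · rcases q1 u hu with h2 | h2
    · rw [h2]
      exact ha
    · exact List.mem_of_mem_take h2
  · obtain ⟨i, hi, b, hb⟩ := q3 c hc
    exact ⟨i, lt_of_le_of_lt hi hj, b, hb⟩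

private theorem Stk_all {T : List Tok} {st U : List Tm} (h : Stk T st U) :
    ∀ i < U.length, Stk_Q U i := by
  induction h with
  | nil => exact fun i hi => absurd hi (Nat.not_lt_zero i)
  | one _ ih =>
    refine Stk_step ih (fun u hu => absurd hu (Set.notMem_empty u)) (fun a b h => ?_)
      (fun c hc => absurd hc (Set.notMem_empty c))
    exact absurd h (by simp)
  | var w _ ih =>
    refine Stk_step ih (fun u hu => Or.inl hu) (fun a b h => ?_)
      (fun c hc => absurd hc (Set.notMem_empty c))
    exact absurd h (by simp)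
  | @add T st U a b h ih =>
    obtain ⟨a1, a2⟩ := Stk_sub ih (h.mem a List.mem_cons_self)
    obtain ⟨b1, b2⟩ := Stk_sub ih (h.mem b (List.mem_cons_of_mem _ List.mem_cons_self))
    refine Stk_step ih (fun u hu => Or.inr ?_) (fun a b h => absurd h (by simp))
      (fun c hc => Or.inr ?_)
    · rcases hu with hu | hu
      · exact a1 u hu
      · exact b1 u hu
    · rcases hc with hc | hc
      · exact a2 c hc
      · exact b2 c hc
  | @mul T st U a b h ih =>
    obtain ⟨a1, a2⟩ := Stk_sub ih (h.mem a List.mem_cons_self)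
    obtain ⟨b1, b2⟩ := Stk_sub ih (h.mem b (List.mem_cons_of_mem _ List.mem_cons_self))
    refine Stk_step ih (fun u hu => Or.inr ?_) (fun a b h => absurd h (by simp))
      (fun c hc => Or.inr ?_)
    · rcases hu with hu | hu
      · exact a1 u hu
      · exact b1 u hu
    · rcases hc with hc | hc
      · exact a2 c hc
      · exact b2 c hc
  | @pow T st U a b h ih =>
    obtain ⟨a1, a2⟩ := Stk_sub ih (h.mem a List.mem_cons_self)
    obtain ⟨b1, -⟩ := Stk_sub ih (h.mem b (List.mem_cons_of_mem _ List.mem_cons_self))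
    refine Stk_step ih (fun u hu => ?_) (fun a' b' h' u hu => ?_) (fun c hc => ?_)
    · rcases hu with hu | hu
      · exact Or.inl hu.1
      · exact Or.inr (a1 u hu)
    · injection h' with e1 e2
      rw [← e1, ← e2] at hu
      rcases hu with hu | hu
      · exact a1 u hu
      · exact b1 u hu
    · rcases hc with hc | hc
      · exact Or.inl ⟨b, by rw [hc]⟩
      · exact Or.inr (a2 c hc)

/-- The parts of a subterm are subterms which come before. -/
theorem stk_parts {T : List Tok} {st U : List Tm} (h : Stk T st U) {i : ℕ} (hi : i < U.length) :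
    (∀ u ∈ ats (U.getD i .one), u = U.getD i .one ∨ u ∈ U.take i) ∧
    (∀ a b, U.getD i .one = .pow a b → (∀ u ∈ ats a ∪ ats b, u ∈ U.take i)) ∧
      ∀ c ∈ bases (U.getD i .one), ∃ j ≤ i, ∃ b, U.getD j .one = .pow c b :=
  Stk_all h i hi

private theorem Stk_wt {t u : Tm} (h : u ∈ subs t) : wt u ≤ wt t := by
  induction t with
  | one => exact le_of_eq (by rw [List.mem_singleton.1 h])
  | var w => exact le_of_eq (by rw [List.mem_singleton.1 h])
  | add s t hs ht =>
    simp only [subs, List.mem_append, List.mem_singleton] at h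
    rcases h with (h | h) | h
    · exact (ht h).trans (by simp only [wt]; omega)
    · exact (hs h).trans (by simp only [wt]; omega)
    · rw [h]
  | mul s t hs ht =>
    simp only [subs, List.mem_append, List.mem_singleton] at h
    rcases h with (h | h) | h
    · exact (ht h).trans (by simp only [wt]; omega)
    · exact (hs h).trans (by simp only [wt]; omega)
    · rw [h]
  | pow s t hs ht =>
    simp only [subs, List.mem_append, List.mem_singleton] at h
    rcases h with (h | h) | h
    · exact (ht h).trans (by simp only [wt]; omega)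
    · exact (hs h).trans (by simp only [wt]; omega)
    · rw [h]

private theorem Stk_var {t : Tm} {w : List Bool} (h : Tm.var w ∈ subs t) : w ∈ names t.toks := by
  induction t with
  | one => simp [subs] at h
  | var w' =>
    simp only [subs, List.mem_singleton, Tm.var.injEq] at h
    simp [names, Tm.toks, h]
  | add s t hs ht =>
    simp only [subs, List.mem_append, List.mem_singleton, reduceCtorEq, or_false] at h
    have e : names (Tm.add s t).toks = names (s.toks ++ t.toks) := by simp [names, Tm.toks]
    rw [e, Pool.Agent.TI.names_append, List.mem_append]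
    rcases h with h | h
    · exact Or.inr (ht h)
    · exact Or.inl (hs h)
  | mul s t hs ht =>
    simp only [subs, List.mem_append, List.mem_singleton, reduceCtorEq, or_false] at h
    have e : names (Tm.mul s t).toks = names (s.toks ++ t.toks) := by simp [names, Tm.toks]
    rw [e, Pool.Agent.TI.names_append, List.mem_append]
    rcases h with h | h
    · exact Or.inr (ht h)
    · exact Or.inl (hs h)
  | pow s t hs ht =>
    simp only [subs, List.mem_append, List.mem_singleton, reduceCtorEq, or_false] at h
    have e : names (Tm.pow s t).toks = names (s.toks ++ t.toks) := by simp [names, Tm.toks]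
    rw [e, Pool.Agent.TI.names_append, List.mem_append]
    rcases h with h | h
    · exact Or.inr (ht h)
    · exact Or.inl (hs h)

/-- The family of an identity. -/
theorem fam_exF {s t : Tm} {n : ℕ} (hn : wt s + wt t ≤ n) :
    FamC (names (s.toks ++ t.toks)).toFinset n (s.sz + t.sz) (exF s t) := by
  have hlen : (subs t ++ subs s).length = s.sz + t.sz := by
    rw [List.length_append, length_subs, length_subs, add_comm]
  have hst := stk_pair s t
  have hmem : ∀ i < s.sz + t.sz, exF s t i ∈ subs t ++ subs s := by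
    intro i hi
    rw [← hlen] at hi
    unfold exF
    rw [List.getD_eq_getElem?_getD, List.getElem?_eq_getElem hi]
    exact List.getElem_mem hi
  have htake : ∀ i ≤ s.sz + t.sz, ∀ u ∈ (subs t ++ subs s).take i, ∃ a < i, u = exF s t a := by
    intro i hi u hu
    obtain ⟨a, ha, h1⟩ := List.mem_iff_getElem.1 hu
    rw [List.length_take, hlen] at ha
    have ha' : a < (subs t ++ subs s).length := by rw [hlen]; omega
    refine ⟨a, by omega, ?_⟩
    rw [← h1, List.getElem_take]
    unfold exF
    rw [List.getD_eq_getElem?_getD, List.getElem?_eq_getElem ha']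
    rfl
  have hsz := sz_le s
  have htz := sz_le t
  refine ⟨fun a => ?_, by omega, ?_, ?_, ?_, ?_⟩
  · rcases Nat.lt_or_ge a (s.sz + t.sz) with ha | ha
    · rcases List.mem_append.1 (hmem a ha) with h | h
      · have := Stk_wt h
        omega
      · have := Stk_wt h
        omega
    · have h1 : exF s t a = .one := by
        unfold exF
        rw [List.getD_eq_getElem?_getD, List.getElem?_eq_none (by rw [hlen]; exact ha)]
        rfl
      rw [h1]
      exact Nat.le_add_left 1 n
  · intro i hi u hu
    obtain ⟨q1, -, -⟩ := stk_parts hst (i := i) (by rw [hlen]; exact hi)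
    rcases q1 u hu with h1 | h1
    · exact ⟨i, Nat.lt_succ_self i, h1, ats_self hu⟩
    · obtain ⟨a, ha, h2⟩ := htake i hi.le u h1
      exact ⟨a, Nat.lt_succ_of_lt ha, h2, ats_self hu⟩
  · intro i hi a b hab
    obtain ⟨-, q2, -⟩ := stk_parts hst (i := i) (by rw [hlen]; exact hi)
    refine ⟨fun u hu => ?_, fun u hu => ?_⟩
    · obtain ⟨c, hc, h2⟩ := htake i hi.le u (q2 a b hab u (Or.inl hu))
      exact ⟨c, hc, h2, ats_self hu⟩
    · obtain ⟨c, hc, h2⟩ := htake i hi.le u (q2 a b hab u (Or.inr hu))
      exact ⟨c, hc, h2, ats_self hu⟩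
  · intro i hi c hc
    obtain ⟨-, -, q3⟩ := stk_parts hst (i := i) (by rw [hlen]; exact hi)
    exact q3 c hc
  · intro i hi w hw
    have h1 := hmem i hi
    rw [hw] at h1
    rw [List.mem_toFinset, Pool.Agent.TI.names_append, List.mem_append]
    rcases List.mem_append.1 h1 with h | h
    · exact Or.inr (Stk_var h)
    · exact Or.inl (Stk_var h)

end Pool.Agent.TD
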