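import Pool.Agent.H.MP_b2d7dd_lc.TD.Hz
import Pool.Agent.H.MP_b2d7dd_lc.TD.Stk
import Pool.Agent.H.MP_b2d7dd_lc.TC.Mach
import Pool.Agent.H.MP_b2d7dd_lc.TC.Par
import Pool.Agent.H.MP_b2d7dd_lc.TW.MEl

/-!
# Module Mach: the machine

The state: a stack of the values of the terms, the list of the values `ph` of all subterms (the last token first), and a
flag: the values of all bases are invertible. `e` = the modulus `bval e + 2`, `v` = bits of a random
value, `c`, `m`, `N` = the names, `B` = the coprime base, `Z` = random bits, `tab` = the table.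
-/

namespace Pool.Agent.TD

open Pool.Agent.TI (Tm Tok names fidx fidx_eq bmod beqv bpw bsub)
open Pool.Agent.TE (bl)
open Pool.Agent.TW (SI zv rad rmu rin rsb md tval irow evr)
open Pool.Agent.TC (Pt rf rf_pos evl Mo Su nrm Pr Gx Lx h1 h2 al ga lcP MB Vn Coh Fai Eqv Bas crd chi)
open Pool.Agent.TC (muB Pb Stk subs exF nm2 hv1 hv2 alv lcv cob eN eP uu vv Kc Qw Rr kk SS AA KK)
open Pool.Agent.H.MP_5be563_lc.PT Finset

/-- Values of a term: first character, second character, derivation, the numbers `e1` and `cs` (modulo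
`bval M + 2`), the flags `big` and `cst`. -/
abbrev Vx : Type := (List Bool × List Bool × List Bool × List Bool × List Bool) × (Bool × Bool)

/-- The values of `1`. -/
def vx0 : Vx := (([true], [true], [], [true], [true]), (false, true))

/-- The virtual power with the base `a` and the exponent `b` is not constant. -/
def trx (a b : Vx) : Bool := a.2.1 && !b.2.2

/-- The logarithmic derivative of a power with the base `a` and the exponent `b`. -/
def pwv (e : List Bool) (v c m : ℕ) (B : List (List Bool)) (Z : List Bool) (a b : Vx) :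
    List Bool :=
  bif trx a b then
    rmu e (rsb e b.1.2.1 b.1.2.2.2.2)
      (rad e (rmu e a.1.2.2.1 (rin e a.1.1)) (lcv e v c m B Z a.1.2.2.2.1))
  else []

/-- The sum. -/
def adx (e M : List Bool) (a b : Vx) : Vx :=
  ((rad e a.1.1 b.1.1, rad e a.1.2.1 b.1.2.1, rad e a.1.2.2.1 b.1.2.2.1,
    rad M a.1.2.2.2.1 b.1.2.2.2.1, rad M a.1.2.2.2.2 b.1.2.2.2.2), (true, a.2.2 && b.2.2))

/-- The product. -/
def mux (e M : List Bool) (a b : Vx) : Vx :=
  ((rmu e a.1.1 b.1.1, rmu e a.1.2.1 b.1.2.1,
    rad e (rmu e a.1.2.2.1 b.1.1) (rmu e a.1.1 b.1.2.2.1),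
    rmu M a.1.2.2.2.1 b.1.2.2.2.1, rmu M a.1.2.2.2.2 b.1.2.2.2.2),
    (a.2.1 || b.2.1, a.2.2 && b.2.2))

/-- The power with the base `a` and the exponent `b`, for the values `h`, `r` of the characters and the
logarithmic derivative `p` of the virtual power. -/
def pwx (e M : List Bool) (a b : Vx) (h r p : List Bool) : Vx :=
  ((rmu e h (bpw a.1.1 b.1.2.2.2.2 (md e)), rmu e r (bpw a.1.2.1 b.1.2.2.2.2 (md e)),
    rmu e h (rad e (rmu e p (bpw a.1.1 b.1.2.2.2.2 (md e)))
      (rmu e (rmu e b.1.2.2.2.2 (bpw a.1.1 (bsub b.1.2.2.2.2 [true]) (md e))) a.1.2.2.1)),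
    bpw a.1.2.2.2.1 b.1.2.2.2.2 (md M),
    bif b.2.2 || !a.2.1 then bpw a.1.2.2.2.2 b.1.2.2.2.2 (md M) else []),
    (a.2.1, (a.2.2 && b.2.2) || !a.2.1))

/-- The logarithmic derivative of the next subterm. -/
def nph (e : List Bool) (v c m : ℕ) (N : List (List Bool)) (B : List (List Bool))
    (Z : List Bool) (q : Tok) (st : List Vx) : List Bool :=
  bif decide (q.1 = 4) then alv e v c N Z q.2
  else bif decide (q.1 = 3) then pwv e v c m B Z (st.headD vx0) (st.tail.headD vx0)
  else []

/-- The values of the next subterm. -/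
def nvx (e M : List Bool) (v c : ℕ) (Z : List Bool) (tab : List (List SI)) (q : Tok)
    (st : List Vx) (p : ℕ) (h : List Bool) : Vx :=
  bif decide (q.1 = 0) then vx0
  else bif decide (q.1 = 4) then ((hv1 e v c Z tab p, hv2 e v c Z tab p,
    rmu e (hv1 e v c Z tab p) h, [true], []), (true, false))
  else bif decide (q.1 = 1) then adx e M (st.headD vx0) (st.tail.headD vx0)
  else bif decide (q.1 = 2) then mux e M (st.headD vx0) (st.tail.headD vx0)
  else bif trx (st.headD vx0) (st.tail.headD vx0) then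
    pwx e M (st.headD vx0) (st.tail.headD vx0) (hv1 e v c Z tab p) (hv2 e v c Z tab p) h
  else pwx e M (st.headD vx0) (st.tail.headD vx0) [true] [true] h

/-- The value of the base is invertible. -/
def nok (e : List Bool) (q : Tok) (st : List Vx) : Bool :=
  !decide (q.1 = 3) ||
    beqv (rmu e (st.headD vx0).1.1 (rin e (st.headD vx0).1.1)) (bmod [true] (md e))

/-- One step. -/
def xstep (e M : List Bool) (v c m : ℕ) (N : List (List Bool)) (B : List (List Bool))
    (Z : List Bool) (tab : List (List SI)) (q : Tok) (s : List Vx × List (List Bool) × Bool) :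
    List Vx × List (List Bool) × Bool :=
  (nvx e M v c Z tab q s.1 s.2.1.length (nph e v c m N B Z q s.1) ::
      (bif decide (q.1 = 0) || decide (q.1 = 4) then s.1 else s.1.tail.tail),
    s.2.1 ++ [nph e v c m N B Z q s.1], s.2.2 && nok e q s.1)

/-- The machine. -/
def xrun (e M : List Bool) (v c m : ℕ) (N : List (List Bool)) (B : List (List Bool))
    (Z : List Bool) (tab : List (List SI)) (T : List Tok) :
    List Vx × List (List Bool) × Bool :=
  T.foldr (xstep e M v c m N B Z tab) ([], [], true)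

/-- The hash row for the subterms number `0, ..., i`. -/
def hrow (e M : List Bool) (v c m : ℕ) (N : List (List Bool)) (B : List (List Bool))
    (tab : List (List SI)) (T : List Tok) (i : ℕ) (Z : List Bool) : List (List Bool) :=
  bif (xrun e M v c m N B Z tab (T.drop (T.length - (i + 1)))).2.2 then
    (xrun e M v c m N B Z tab (T.drop (T.length - (i + 1)))).2.1
  else List.replicate (i + 1) []

/-- The values of a term of the stack. -/
def Val (e M : List Bool) (P : Pr (ZMod (bval e + 2))) (x : Vx) (u : Tm) : Prop :=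
  zv e x.1.1 = av P.f u ∧ zv e x.1.2.1 = av P.g u ∧ zv e x.1.2.2.1 = dl P u ∧
    bval x.1.2.2.2.1 = e1 u ∧ bval x.1.2.2.2.2 = cs u ∧ x.2.1 = big u ∧ x.2.2 = cst u

/-- The values of the characters at the variables and powers number `a < L`. -/
def Hv (e : List Bool) (v c : ℕ) (Z : List Bool) (tab : List (List SI))
    (P : Pr (ZMod (bval e + 2))) (ex : ℕ → Tm) (L : ℕ) : Prop :=
  ∀ a < L, ex a ∈ ats (ex a) → zv e (hv1 e v c Z tab a) = P.f (ex a) ∧
    zv e (hv2 e v c Z tab a) = P.g (ex a)

/-- The other parameters. -/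
structure Pc (e : List Bool) (v c m : ℕ) (N : List (List Bool)) (B : List (List Bool))
    (Z : List Bool) (P : Pr (ZMod (bval e + 2))) (U : List Tm) : Prop where
  α : ∀ w, P.α w = zv e (bl v Z (2 * c + N.idxOf w))
  lc : ∀ x : List Bool, ∀ u b, Tm.pow u b ∈ U → bval x = e1 u →
    zv e (lcv e v c m B Z x) = P.lc (e1 u)
  iv : ∀ x, P.iv x = x ^ bval e

/-- The value of a term of a stack for the tokens `q :: T`. -/
private theorem Mach_cons (e M : List Bool) (v c m : ℕ) (N B : List (List Bool)) (Z : List Bool)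
    (tab : List (List SI)) (q : Tok) (T : List Tok) :
    xrun e M v c m N B Z tab (q :: T) =
      xstep e M v c m N B Z tab q (xrun e M v c m N B Z tab T) := rfl

private theorem Mach_len (e M : List Bool) (v c m : ℕ) (N B : List (List Bool)) (Z : List Bool)
    (tab : List (List SI)) (T : List Tok) :
    (xrun e M v c m N B Z tab T).2.1.length = T.length := by
  induction T with
  | nil => rfl
  | cons q T ih =>
    rw [Mach_cons]
    show ((xrun e M v c m N B Z tab T).2.1 ++ [_]).length = T.length + 1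
    rw [List.length_append, List.length_singleton, ih]

private theorem Mach_zero (e M : List Bool) (v c m : ℕ) (N B : List (List Bool)) (Z : List Bool)
    (tab : List (List SI)) (s : List Vx × List (List Bool) × Bool) :
    xstep e M v c m N B Z tab (0, []) s = (vx0 :: s.1, s.2.1 ++ [[]], s.2.2 && true) := rfl

private theorem Mach_four (e M : List Bool) (v c m : ℕ) (N B : List (List Bool)) (Z : List Bool)
    (tab : List (List SI)) (w : List Bool) (s : List Vx × List (List Bool) × Bool) :
    xstep e M v c m N B Z tab (4, w) s =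
      (((hv1 e v c Z tab s.2.1.length, hv2 e v c Z tab s.2.1.length,
        rmu e (hv1 e v c Z tab s.2.1.length) (alv e v c N Z w), [true], []), (true, false)) :: s.1,
        s.2.1 ++ [alv e v c N Z w], s.2.2 && true) := rfl

private theorem Mach_add (e M : List Bool) (v c m : ℕ) (N B : List (List Bool)) (Z : List Bool)
    (tab : List (List SI)) (s : List Vx × List (List Bool) × Bool) :
    xstep e M v c m N B Z tab (1, []) s =
      (adx e M (s.1.headD vx0) (s.1.tail.headD vx0) :: s.1.tail.tail,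
        s.2.1 ++ [[]], s.2.2 && true) := rfl

private theorem Mach_mul (e M : List Bool) (v c m : ℕ) (N B : List (List Bool)) (Z : List Bool)
    (tab : List (List SI)) (s : List Vx × List (List Bool) × Bool) :
    xstep e M v c m N B Z tab (2, []) s =
      (mux e M (s.1.headD vx0) (s.1.tail.headD vx0) :: s.1.tail.tail,
        s.2.1 ++ [[]], s.2.2 && true) := rfl

private theorem Mach_pow (e M : List Bool) (v c m : ℕ) (N B : List (List Bool)) (Z : List Bool)
    (tab : List (List SI)) (s : List Vx × List (List Bool) × Bool) :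
    xstep e M v c m N B Z tab (3, []) s =
      ((bif trx (s.1.headD vx0) (s.1.tail.headD vx0) then
          pwx e M (s.1.headD vx0) (s.1.tail.headD vx0) (hv1 e v c Z tab s.2.1.length)
            (hv2 e v c Z tab s.2.1.length)
            (pwv e v c m B Z (s.1.headD vx0) (s.1.tail.headD vx0))
        else pwx e M (s.1.headD vx0) (s.1.tail.headD vx0) [true] [true]
          (pwv e v c m B Z (s.1.headD vx0) (s.1.tail.headD vx0))) :: s.1.tail.tail,
        s.2.1 ++ [pwv e v c m B Z (s.1.headD vx0) (s.1.tail.headD vx0)],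
        s.2.2 && beqv (rmu e (s.1.headD vx0).1.1 (rin e (s.1.headD vx0).1.1))
          (bmod [true] (md e))) := by
  have h : nok e (3, []) s.1 = beqv (rmu e (s.1.headD vx0).1.1 (rin e (s.1.headD vx0).1.1))
      (bmod [true] (md e)) := by
    unfold nok
    rw [show decide (((3, []) : Tok).1 = 3) = true from rfl, Bool.not_true, Bool.false_or]
  rw [← h]
  rfl

private theorem Mach_getD_lt {U : List Tm} (x : Tm) {a : ℕ} (ha : a < U.length) :
    (U ++ [x]).getD a .one = U.getD a .one := by
  rw [List.getD_eq_getElem?_getD, List.getD_eq_getElem?_getD, List.getElem?_append_left ha]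

private theorem Mach_getD_eq (U : List Tm) (x : Tm) : (U ++ [x]).getD U.length .one = x := by
  rw [List.getD_eq_getElem?_getD, List.getElem?_append_right le_rfl, Nat.sub_self]
  rfl

private theorem Mach_Hv {e : List Bool} {v c : ℕ} {Z : List Bool} {tab : List (List SI)}
    {P : Pr (ZMod (bval e + 2))} {U : List Tm} {u : Tm} {L : ℕ} (hL : U.length ≤ L)
    (h : Hv e v c Z tab P (fun a => (U ++ [u]).getD a .one) L) :
    Hv e v c Z tab P (fun a => U.getD a .one) U.length := by
  intro a ha
  have h1 := h a (lt_of_lt_of_le ha hL)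
  beta_reduce at h1 ⊢
  rw [Mach_getD_lt u ha] at h1
  exact h1

private theorem Mach_Hv' {e : List Bool} {v c : ℕ} {Z : List Bool} {tab : List (List SI)}
    {P : Pr (ZMod (bval e + 2))} {ex : ℕ → Tm} {L L' : ℕ} (hL : L ≤ L')
    (h : Hv e v c Z tab P ex L') : Hv e v c Z tab P ex L :=
  fun a ha => h a (lt_of_lt_of_le ha hL)

private theorem Mach_last {e : List Bool} {v c : ℕ} {Z : List Bool} {tab : List (List SI)}
    {P : Pr (ZMod (bval e + 2))} {U : List Tm} {u : Tm} (hu : u ∈ ats u)
    (h : Hv e v c Z tab P (fun a => (U ++ [u]).getD a .one) (U ++ [u]).length) :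
    zv e (hv1 e v c Z tab U.length) = P.f u ∧ zv e (hv2 e v c Z tab U.length) = P.g u := by
  have h1 := h U.length (by rw [List.length_append, List.length_singleton]; omega)
  beta_reduce at h1
  rw [Mach_getD_eq] at h1
  exact h1 hu

private theorem Mach_Pc {e : List Bool} {v c m : ℕ} {N B : List (List Bool)} {Z : List Bool}
    {P : Pr (ZMod (bval e + 2))} {U : List Tm} {u : Tm} (h : Pc e v c m N B Z P (U ++ [u])) :
    Pc e v c m N B Z P U :=
  ⟨h.α, fun x a b hab => h.lc x a b (List.mem_append_left _ hab), h.iv⟩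

private theorem Mach_alv {e : List Bool} {v c m : ℕ} {N B : List (List Bool)} {Z : List Bool}
    {P : Pr (ZMod (bval e + 2))} {U : List Tm} (h : Pc e v c m N B Z P U) (w : List Bool) :
    zv e (alv e v c N Z w) = P.α w := by
  unfold alv
  rw [TW.zv_bmod, fidx_eq, h.α]

private theorem Mach_trx {e M : List Bool} {P : Pr (ZMod (bval e + 2))} {a b : Tm} {x y : Vx}
    (hx : Val e M P x a) (hy : Val e M P y b) : trx x y = true ↔ Tr a b := by
  obtain ⟨-, -, -, -, -, x6, -⟩ := hx
  obtain ⟨-, -, -, -, -, -, y7⟩ := hy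
  unfold trx Tr
  rw [x6, y7, Bool.and_eq_true, Bool.not_eq_true']

private theorem Mach_trx' {e M : List Bool} {P : Pr (ZMod (bval e + 2))} {a b : Tm} {x y : Vx}
    (hx : Val e M P x a) (hy : Val e M P y b) (h : ¬ Tr a b) : trx x y = false :=
  Bool.eq_false_iff.2 fun h1 => h ((Mach_trx hx hy).1 h1)

private theorem Mach_pwv {e M : List Bool} {v c m : ℕ} {N B : List (List Bool)} {Z : List Bool}
    {P : Pr (ZMod (bval e + 2))} {U : List Tm} {a b : Tm} {x y : Vx}
    (h : Pc e v c m N B Z P (U ++ [.pow a b])) (hx : Val e M P x a) (hy : Val e M P y b) :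
    zv e (pwv e v c m B Z x y) = ph P (.pow a b) := by
  unfold pwv
  by_cases hT : Tr a b
  · rw [(Mach_trx hx hy).2 hT, cond_true]
    obtain ⟨x1, -, x3, x4, -⟩ := hx
    obtain ⟨-, y2, -, -, y5, -⟩ := hy
    have y5' : zv e y.1.2.2.2.2 = (cs b : ZMod (bval e + 2)) := by
      unfold TW.zv
      rw [y5]
    rw [TW.zv_rmu, TW.zv_rsb, TW.zv_rad, TW.zv_rmu, TW.zv_rin, x1, x3, y2, y5',
      h.lc _ a b (List.mem_append_right _ (List.mem_singleton.2 rfl)) x4, ← h.iv]
    exact (if_pos hT).symm
  · rw [Mach_trx' hx hy hT, cond_false, TW.zv_nil]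
    exact (if_neg hT).symm

private theorem Mach_two {R : Vx → Tm → Prop} {l : List Vx} {a b : Tm} {st : List Tm}
    (h : List.Forall₂ R l (a :: b :: st)) (d : Vx) :
    R (l.headD d) a ∧ R (l.tail.headD d) b ∧ List.Forall₂ R l.tail.tail st := by
  match l, h with
  | _ :: _ :: _, List.Forall₂.cons h1 (List.Forall₂.cons h2 h3) => exact ⟨h1, h2, h3⟩

private theorem Mach_vx0 {e M : List Bool} (P : Pr (ZMod (bval e + 2))) :
    Val e M P vx0 .one := by
  refine ⟨TW.zv_one e, TW.zv_one e, TW.zv_nil e, rfl, rfl, rfl, rfl⟩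

private theorem Mach_rad {M : List Bool} (x y : List Bool) (h : bval x + bval y < bval M + 2) :
    bval (rad M x y) = bval x + bval y := by
  unfold TW.rad
  rw [TW.bval_bmod_md, bval_badd, Nat.mod_eq_of_lt h]

private theorem Mach_rmu {M : List Bool} (x y : List Bool) (h : bval x * bval y < bval M + 2) :
    bval (rmu M x y) = bval x * bval y := by
  unfold TW.rmu
  rw [TW.bval_bmod_md, bval_bmul, Nat.mod_eq_of_lt h]

private theorem Mach_bpw {M : List Bool} (x y : List Bool) (h : bval x ^ bval y < bval M + 2) :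
    bval (bpw x y (md M)) = bval x ^ bval y := by
  rw [TI.bval_bpw, TW.bval_md, Nat.mod_eq_of_lt h]

private theorem Mach_adx {e M : List Bool} {P : Pr (ZMod (bval e + 2))} {a b : Tm} {x y : Vx}
    (hx : Val e M P x a) (hy : Val e M P y b) (hM : 2 ^ lg (.add a b) < bval M + 2) :
    Val e M P (adx e M x y) (.add a b) := by
  obtain ⟨x1, x2, x3, x4, x5, x6, x7⟩ := hx
  obtain ⟨y1, y2, y3, y4, y5, y6, y7⟩ := hy
  refine ⟨?_, ?_, ?_, ?_, ?_, ?_, ?_⟩
  · show zv e (rad e x.1.1 y.1.1) = av P.f a + av P.f b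
    rw [TW.zv_rad, x1, y1]
  · show zv e (rad e x.1.2.1 y.1.2.1) = av P.g a + av P.g b
    rw [TW.zv_rad, x2, y2]
  · show zv e (rad e x.1.2.2.1 y.1.2.2.1) = dl P a + dl P b
    rw [TW.zv_rad, x3, y3]
  · show bval (rad M x.1.2.2.2.1 y.1.2.2.2.1) = e1 a + e1 b
    have h1 : e1 a + e1 b ≤ 2 ^ lg (.add a b) := e1_le (.add a b)
    rw [Mach_rad, x4, y4]
    rw [x4, y4]
    exact lt_of_le_of_lt h1 hM
  · show bval (rad M x.1.2.2.2.2 y.1.2.2.2.2) = cs a + cs b
    have h1 : cs a + cs b ≤ 2 ^ lg (.add a b) := cs_le (.add a b)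
    rw [Mach_rad, x5, y5]
    rw [x5, y5]
    exact lt_of_le_of_lt h1 hM
  · rfl
  · show (x.2.2 && y.2.2) = (cst a && cst b)
    rw [x7, y7]

private theorem Mach_mux {e M : List Bool} {P : Pr (ZMod (bval e + 2))} {a b : Tm} {x y : Vx}
    (hx : Val e M P x a) (hy : Val e M P y b) (hM : 2 ^ lg (.mul a b) < bval M + 2) :
    Val e M P (mux e M x y) (.mul a b) := by
  obtain ⟨x1, x2, x3, x4, x5, x6, x7⟩ := hx
  obtain ⟨y1, y2, y3, y4, y5, y6, y7⟩ := hy
  refine ⟨?_, ?_, ?_, ?_, ?_, ?_, ?_⟩
  · show zv e (rmu e x.1.1 y.1.1) = av P.f a * av P.f b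
    rw [TW.zv_rmu, x1, y1]
  · show zv e (rmu e x.1.2.1 y.1.2.1) = av P.g a * av P.g b
    rw [TW.zv_rmu, x2, y2]
  · show zv e (rad e (rmu e x.1.2.2.1 y.1.1) (rmu e x.1.1 y.1.2.2.1)) =
      dl P a * av P.f b + av P.f a * dl P b
    rw [TW.zv_rad, TW.zv_rmu, TW.zv_rmu, x3, y3, x1, y1]
  · show bval (rmu M x.1.2.2.2.1 y.1.2.2.2.1) = e1 a * e1 b
    have h1 : e1 a * e1 b ≤ 2 ^ lg (.mul a b) := e1_le (.mul a b)
    rw [Mach_rmu, x4, y4]
    rw [x4, y4]
    exact lt_of_le_of_lt h1 hM
  · show bval (rmu M x.1.2.2.2.2 y.1.2.2.2.2) = cs a * cs b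
    have h1 : cs a * cs b ≤ 2 ^ lg (.mul a b) := cs_le (.mul a b)
    rw [Mach_rmu, x5, y5]
    rw [x5, y5]
    exact lt_of_le_of_lt h1 hM
  · show (x.2.1 || y.2.1) = (big a || big b)
    rw [x6, y6]
  · show (x.2.2 && y.2.2) = (cst a && cst b)
    rw [x7, y7]

private theorem Mach_pwx {e M : List Bool} {P : Pr (ZMod (bval e + 2))} {a b : Tm} {x y : Vx}
    {h r p : List Bool} (hx : Val e M P x a) (hy : Val e M P y b)
    (hM : 2 ^ lg (.pow a b) < bval M + 2)
    (hh : zv e h = if Tr a b then P.f (.pow a b) else 1)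
    (hr : zv e r = if Tr a b then P.g (.pow a b) else 1) (hp : zv e p = ph P (.pow a b)) :
    Val e M P (pwx e M x y h r p) (.pow a b) := by
  obtain ⟨x1, x2, x3, x4, x5, x6, x7⟩ := hx
  obtain ⟨y1, y2, y3, y4, y5, y6, y7⟩ := hy
  have y5' : zv e y.1.2.2.2.2 = (cs b : ZMod (bval e + 2)) := by
    unfold TW.zv
    rw [y5]
  refine ⟨?_, ?_, ?_, ?_, ?_, ?_, ?_⟩
  · show zv e (rmu e h (bpw x.1.1 y.1.2.2.2.2 (md e))) =
      (if Tr a b then P.f (.pow a b) else 1) * av P.f a ^ cs b
    rw [TW.zv_rmu, TW.zv_bpw, hh, x1, y5]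
  · show zv e (rmu e r (bpw x.1.2.1 y.1.2.2.2.2 (md e))) =
      (if Tr a b then P.g (.pow a b) else 1) * av P.g a ^ cs b
    rw [TW.zv_rmu, TW.zv_bpw, hr, x2, y5]
  · show zv e (rmu e h (rad e (rmu e p (bpw x.1.1 y.1.2.2.2.2 (md e)))
        (rmu e (rmu e y.1.2.2.2.2 (bpw x.1.1 (bsub y.1.2.2.2.2 [true]) (md e))) x.1.2.2.1))) =
      (if Tr a b then P.f (.pow a b) else 1) * (ph P (.pow a b) * av P.f a ^ cs b +
        cs b * av P.f a ^ (cs b - 1) * dl P a)
    rw [TW.zv_rmu, TW.zv_rad, TW.zv_rmu, TW.zv_rmu, TW.zv_rmu, TW.zv_bpw, TW.zv_bpw, hh, hp, x1,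
      x3, y5, y5']
    rcases Nat.eq_zero_or_pos (cs b) with h0 | h0
    · rw [h0, Nat.cast_zero, zero_mul, zero_mul, zero_mul, zero_mul]
    · have h2 : bval [true] ≤ bval y.1.2.2.2.2 := by
        rw [y5]
        exact h0
      have h3 : bval (bsub y.1.2.2.2.2 [true]) = cs b - 1 := by
        rw [TI.bval_bsub h2, y5]
        rfl
      rw [h3]
  · show bval (bpw x.1.2.2.2.1 y.1.2.2.2.2 (md M)) = e1 a ^ cs b
    have h1 : e1 a ^ cs b ≤ 2 ^ lg (.pow a b) := e1_le (.pow a b)
    rw [Mach_bpw, x4, y5]
    rw [x4, y5]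
    exact lt_of_le_of_lt h1 hM
  · show bval (bif y.2.2 || !x.2.1 then bpw x.1.2.2.2.2 y.1.2.2.2.2 (md M) else []) =
      if (cst b || !big a) = true then cs a ^ cs b else 0
    rw [y7, x6]
    have h1 : cs (.pow a b) ≤ 2 ^ lg (.pow a b) := cs_le (.pow a b)
    have h2 : cs (.pow a b) = if (cst b || !big a) = true then cs a ^ cs b else 0 := rfl
    rw [h2] at h1
    cases h3 : (cst b || !big a) with
    | true =>
      rw [h3, if_pos rfl] at h1
      rw [cond_true, if_pos rfl, Mach_bpw, x5, y5]
      rw [x5, y5]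
      exact lt_of_le_of_lt h1 hM
    | false =>
      rw [cond_false, if_neg Bool.false_ne_true]
      exact bval_nil
  · exact x6
  · show ((x.2.2 && y.2.2) || !x.2.1) = ((cst a && cst b) || !big a)
    rw [x7, y7, x6]

private theorem Mach_ok {e : List Bool} {P : Pr (ZMod (bval e + 2))}
    (hiv : ∀ x, P.iv x = x ^ bval e) {a : Tm} {x : List Bool} (hx : zv e x = av P.f a) :
    beqv (rmu e x (rin e x)) (bmod [true] (md e)) = true ↔
      av P.f a * P.iv (av P.f a) = 1 := by
  have h1 : zv e (bmul x (rin e x)) = zv e x * zv e x ^ bval e := by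
    rw [← TW.zv_rin, ← TW.zv_rmu, TW.rmu, TW.zv_bmod]
  unfold TW.rmu
  rw [TW.beqv_bmod_iff, h1, TW.zv_one, hx, hiv]

private theorem Mach_mem {Q : Tm → Prop} {U : List Tm} {u : Tm} (hu : ∀ a b, u ≠ .pow a b) :
    (∀ a b, Tm.pow a b ∈ U ++ [u] → Q a) ↔ ∀ a b, Tm.pow a b ∈ U → Q a := by
  refine ⟨fun h a b hab => h a b (List.mem_append_left _ hab), fun h a b hab => ?_⟩
  rcases List.mem_append.1 hab with h1 | h1
  · exact h a b h1
  · exact absurd (List.mem_singleton.1 h1).symm (hu a b)

private theorem Mach_memp {Q : Tm → Prop} {U : List Tm} {a' b' : Tm} :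
    (∀ a b, Tm.pow a b ∈ U ++ [.pow a' b'] → Q a) ↔
      (∀ a b, Tm.pow a b ∈ U → Q a) ∧ Q a' := by
  refine ⟨fun h => ⟨fun a b hab => h a b (List.mem_append_left _ hab),
    h a' b' (List.mem_append_right _ (List.mem_singleton.2 rfl))⟩, fun h a b hab => ?_⟩
  rcases List.mem_append.1 hab with h1 | h1
  · exact h.1 a b h1
  · have h2 := List.mem_singleton.1 h1
    injection h2 with h3 h4
    rw [h3]
    exact h.2

/-- The stack. -/
theorem xrun_stk {e M : List Bool} {v c m : ℕ} {N B : List (List Bool)} {Z : List Bool}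
    {tab : List (List SI)} {P : Pr (ZMod (bval e + 2))} {T : List Tok} {st U : List Tm}
    (h : Stk T st U) (hH : Hv e v c Z tab P (fun a => U.getD a .one) U.length)
    (hP : Pc e v c m N B Z P U) (hM : ∀ u ∈ U, 2 ^ lg u < bval M + 2) :
    List.Forall₂ (Val e M P) (xrun e M v c m N B Z tab T).1 st := by
  induction h with
  | nil => exact List.Forall₂.nil
  | one _ ih =>
    have h1 := ih (Mach_Hv (by rw [List.length_append]; omega) hH) (Mach_Pc hP)
      fun u hu => hM u (List.mem_append_left _ hu)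
    rw [Mach_cons, Mach_zero]
    exact List.Forall₂.cons (Mach_vx0 P) h1
  | @var T st U w h ih =>
    have h1 := ih (Mach_Hv (by rw [List.length_append]; omega) hH) (Mach_Pc hP)
      fun u hu => hM u (List.mem_append_left _ hu)
    obtain ⟨h2, h3⟩ := Mach_last (Set.mem_singleton _) hH
    rw [Mach_cons, Mach_four, Mach_len, ← h.length]
    refine List.Forall₂.cons ⟨h2, h3, ?_, rfl, rfl, rfl, rfl⟩ h1
    show zv e (rmu e (hv1 e v c Z tab U.length) (alv e v c N Z w)) = P.f (.var w) * P.α w
    rw [TW.zv_rmu, h2, Mach_alv hP]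
  | @add T st U a b h ih =>
    have h1 := ih (Mach_Hv (by rw [List.length_append]; omega) hH) (Mach_Pc hP)
      fun u hu => hM u (List.mem_append_left _ hu)
    obtain ⟨h2, h3, h4⟩ := Mach_two h1 vx0
    rw [Mach_cons, Mach_add]
    exact List.Forall₂.cons (Mach_adx h2 h3
      (hM _ (List.mem_append_right _ (List.mem_singleton.2 rfl)))) h4
  | @mul T st U a b h ih =>
    have h1 := ih (Mach_Hv (by rw [List.length_append]; omega) hH) (Mach_Pc hP)
      fun u hu => hM u (List.mem_append_left _ hu)
    obtain ⟨h2, h3, h4⟩ := Mach_two h1 vx0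
    rw [Mach_cons, Mach_mul]
    exact List.Forall₂.cons (Mach_mux h2 h3
      (hM _ (List.mem_append_right _ (List.mem_singleton.2 rfl)))) h4
  | @pow T st U a b h ih =>
    have h1 := ih (Mach_Hv (by rw [List.length_append]; omega) hH) (Mach_Pc hP)
      fun u hu => hM u (List.mem_append_left _ hu)
    obtain ⟨h2, h3, h4⟩ := Mach_two h1 vx0
    have hM' := hM (.pow a b) (List.mem_append_right _ (List.mem_singleton.2 rfl))
    have hp := Mach_pwv hP h2 h3
    rw [Mach_cons, Mach_pow, Mach_len, ← h.length]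
    refine List.Forall₂.cons ?_ h4
    by_cases hT : Tr a b
    · obtain ⟨h5, h6⟩ := Mach_last (Or.inl ⟨rfl, hT⟩) hH
      rw [(Mach_trx h2 h3).2 hT, cond_true]
      exact Mach_pwx h2 h3 hM' (by rw [if_pos hT]; exact h5) (by rw [if_pos hT]; exact h6) hp
    · rw [Mach_trx' h2 h3 hT, cond_false]
      exact Mach_pwx h2 h3 hM' (by rw [if_neg hT]; exact TW.zv_one e)
        (by rw [if_neg hT]; exact TW.zv_one e) hp

/-- The logarithmic derivatives and the flag; the values of the characters at the last subterm are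
not needed. -/
theorem xrun_out {e M : List Bool} {v c m : ℕ} {N B : List (List Bool)} {Z : List Bool}
    {tab : List (List SI)} {P : Pr (ZMod (bval e + 2))} {T : List Tok} {st U : List Tm}
    (h : Stk T st U) (hH : Hv e v c Z tab P (fun a => U.getD a .one) (U.length - 1))
    (hP : Pc e v c m N B Z P U) (hM : ∀ u ∈ U, 2 ^ lg u < bval M + 2) :
    (xrun e M v c m N B Z tab T).2.1.map (zv e) = U.map (ph P) ∧
      ((xrun e M v c m N B Z tab T).2.2 = true ↔ ∀ u b, Tm.pow u b ∈ U →
        av P.f u * P.iv (av P.f u) = 1) := by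
  induction h with
  | nil =>
    refine ⟨rfl, fun _ u b hub => absurd hub (List.not_mem_nil), fun _ => rfl⟩
  | @one T st U h ih =>
    have hH' := Mach_Hv (le_of_eq (by
      rw [List.length_append, List.length_singleton, Nat.add_sub_cancel])) hH
    obtain ⟨h1, h2⟩ := ih (Mach_Hv' (Nat.sub_le _ _) hH') (Mach_Pc hP)
      fun u hu => hM u (List.mem_append_left _ hu)
    rw [Mach_cons, Mach_zero]
    refine ⟨?_, ?_⟩
    · show ((xrun e M v c m N B Z tab T).2.1 ++ [[]]).map (zv e) = _
      rw [List.map_append, h1, List.map_append, List.map_singleton, List.map_singleton,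
        TW.zv_nil]
      rfl
    · show ((xrun e M v c m N B Z tab T).2.2 && true) = true ↔ _
      rw [Bool.and_true, h2]
      exact (Mach_mem (Q := fun a => av P.f a * P.iv (av P.f a) = 1) (by simp)).symm
  | @var T st U w h ih =>
    have hH' := Mach_Hv (le_of_eq (by
      rw [List.length_append, List.length_singleton, Nat.add_sub_cancel])) hH
    obtain ⟨h1, h2⟩ := ih (Mach_Hv' (Nat.sub_le _ _) hH') (Mach_Pc hP)
      fun u hu => hM u (List.mem_append_left _ hu)
    rw [Mach_cons, Mach_four]
    refine ⟨?_, ?_⟩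
    · show ((xrun e M v c m N B Z tab T).2.1 ++ [alv e v c N Z w]).map (zv e) = _
      rw [List.map_append, h1, List.map_append, List.map_singleton, List.map_singleton,
        Mach_alv hP]
      rfl
    · show ((xrun e M v c m N B Z tab T).2.2 && true) = true ↔ _
      rw [Bool.and_true, h2]
      exact (Mach_mem (Q := fun a => av P.f a * P.iv (av P.f a) = 1) (by simp)).symm
  | @add T st U a b h ih =>
    have hH' := Mach_Hv (le_of_eq (by
      rw [List.length_append, List.length_singleton, Nat.add_sub_cancel])) hH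
    obtain ⟨h1, h2⟩ := ih (Mach_Hv' (Nat.sub_le _ _) hH') (Mach_Pc hP)
      fun u hu => hM u (List.mem_append_left _ hu)
    rw [Mach_cons, Mach_add]
    refine ⟨?_, ?_⟩
    · show ((xrun e M v c m N B Z tab T).2.1 ++ [[]]).map (zv e) = _
      rw [List.map_append, h1, List.map_append, List.map_singleton, List.map_singleton,
        TW.zv_nil]
      rfl
    · show ((xrun e M v c m N B Z tab T).2.2 && true) = true ↔ _
      rw [Bool.and_true, h2]
      exact (Mach_mem (Q := fun a => av P.f a * P.iv (av P.f a) = 1) (by simp)).symm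
  | @mul T st U a b h ih =>
    have hH' := Mach_Hv (le_of_eq (by
      rw [List.length_append, List.length_singleton, Nat.add_sub_cancel])) hH
    obtain ⟨h1, h2⟩ := ih (Mach_Hv' (Nat.sub_le _ _) hH') (Mach_Pc hP)
      fun u hu => hM u (List.mem_append_left _ hu)
    rw [Mach_cons, Mach_mul]
    refine ⟨?_, ?_⟩
    · show ((xrun e M v c m N B Z tab T).2.1 ++ [[]]).map (zv e) = _
      rw [List.map_append, h1, List.map_append, List.map_singleton, List.map_singleton,
        TW.zv_nil]
      rfl
    · show ((xrun e M v c m N B Z tab T).2.2 && true) = true ↔ _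
      rw [Bool.and_true, h2]
      exact (Mach_mem (Q := fun a => av P.f a * P.iv (av P.f a) = 1) (by simp)).symm
  | @pow T st U a b h ih =>
    have hH' := Mach_Hv (le_of_eq (by
      rw [List.length_append, List.length_singleton, Nat.add_sub_cancel])) hH
    obtain ⟨h1, h2⟩ := ih (Mach_Hv' (Nat.sub_le _ _) hH') (Mach_Pc hP)
      fun u hu => hM u (List.mem_append_left _ hu)
    have h3 := xrun_stk (m := m) (N := N) (B := B) h hH' (Mach_Pc hP)
      fun u hu => hM u (List.mem_append_left _ hu)
    obtain ⟨h4, h5, -⟩ := Mach_two h3 vx0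
    rw [Mach_cons, Mach_pow]
    refine ⟨?_, ?_⟩
    · show ((xrun e M v c m N B Z tab T).2.1 ++ [pwv e v c m B Z _ _]).map (zv e) = _
      rw [List.map_append, h1, List.map_append, List.map_singleton, List.map_singleton,
        Mach_pwv hP h4 h5]
    · show ((xrun e M v c m N B Z tab T).2.2 && beqv _ _) = true ↔ _
      rw [Bool.and_eq_true, h2, Mach_ok hP.iv h4.1]
      exact (Mach_memp (Q := fun a => av P.f a * P.iv (av P.f a) = 1)).symm

theorem hrow_length (e M : List Bool) (v c m : ℕ) (N : List (List Bool))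
    (B : List (List Bool)) (tab : List (List SI)) (T : List Tok) {i : ℕ} (hi : i + 1 ≤ T.length)
    (Z : List Bool) : (hrow e M v c m N B tab T i Z).length = i + 1 := by
  unfold hrow
  have h1 : (T.drop (T.length - (i + 1))).length = i + 1 := by
    rw [List.length_drop]
    omega
  cases (xrun e M v c m N B Z tab (T.drop (T.length - (i + 1)))).2.2 with
  | true => rw [cond_true, Mach_len, h1]
  | false => rw [cond_false, List.length_replicate]

private theorem Mach_wt {t u : Tm} (h : u ∈ subs t) : wt u ≤ wt t := by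
  induction t with
  | one => exact le_of_eq (by rw [List.mem_singleton.1 h])
  | var w => exact le_of_eq (by rw [List.mem_singleton.1 h])
  | add s t hs ht =>
    simp only [subs, List.mem_append, List.mem_singleton] at h
    rcases h with (h | h) | h
    · exact (ht h).trans (by simp only [wt]; omega)
    · exact (hs h).trans (by simp only [wt]; omega)
    · rw [h]
  | mul s t hs ht =>
    simp only [subs, List.mem_append, List.mem_singleton] at h
    rcases h with (h | h) | h
    · exact (ht h).trans (by simp only [wt]; omega)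
    · exact (hs h).trans (by simp only [wt]; omega)
    · rw [h]
  | pow s t hs ht =>
    simp only [subs, List.mem_append, List.mem_singleton] at h
    rcases h with (h | h) | h
    · exact (ht h).trans (by simp only [wt]; omega)
    · exact (hs h).trans (by simp only [wt]; omega)
    · rw [h]

private theorem Mach_wt2 {s t u : Tm} (h : u ∈ subs t ++ subs s) : wt u ≤ wt s + wt t := by
  rcases List.mem_append.1 h with h | h
  · exact (Mach_wt h).trans (Nat.le_add_left _ _)
  · exact (Mach_wt h).trans (Nat.le_add_right _ _)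

private theorem Mach_lg {s t u : Tm} {M : List Bool} (hM : 2 ^ (wt s + wt t) ≤ bval M)
    (h : u ∈ subs t ++ subs s) : 2 ^ lg u < bval M + 2 := by
  have h2 : (2 : ℕ) ^ lg u ≤ 2 ^ (wt s + wt t) :=
    Nat.pow_le_pow_right (by norm_num) ((lg_le u).trans (Mach_wt2 h))
  omega

/-- The values of the characters at the subterms. -/
private theorem Mach_hv {W : Finset (List Bool)} {e : List Bool} {v c : ℕ}
    {N B : List (List Bool)} (Z : List Bool) {tab : List (List SI)} {ex : ℕ → Tm} {L : ℕ}
    (hc : Coh (fun a => lr W (ex a)) L (tab.map irow)) {a : ℕ} (ha : a < L) :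
    zv e (hv1 e v c Z tab a) = (Pz W e v c N B (tab.map irow) ex L Z).f (ex a) ∧
      zv e (hv2 e v c Z tab a) = (Pz W e v c N B (tab.map irow) ex L Z).g (ex a) := by
  refine ⟨?_, ?_⟩
  · have h1 := TC.chi_vec (fun b => TW.wun e (bl v Z b)) hc ha
    refine Eq.trans ?_ h1.symm
    unfold hv1
    rw [TW.zv_tval]
    congr 1
    refine Finset.prod_congr rfl fun b _ => ?_
    have h2 : TW.wfun e v c nm2 Z [] b = TW.wun e (bl v Z b) := by
      unfold TW.wfun
      rw [show nm2.idxOf [] = 0 from rfl, Nat.zero_mul, Nat.zero_add]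
    rw [h2]
  · have h1 := TC.chi_vec (fun b => TW.wun e (bl v Z (c + b))) hc ha
    refine Eq.trans ?_ h1.symm
    unfold hv2
    rw [TW.zv_tval]
    congr 1
    refine Finset.prod_congr rfl fun b _ => ?_
    have h2 : TW.wfun e v c nm2 Z [true] b = TW.wun e (bl v Z (c + b)) := by
      unfold TW.wfun
      rw [show nm2.idxOf [true] = 1 from rfl, Nat.one_mul]
    rw [h2]

private theorem Mach_Pz {W : Finset (List Bool)} {e : List Bool} {v c m : ℕ}
    {N B : List (List Bool)} (Z : List Bool) (ν : List (ℕ → ℤ)) (ex : ℕ → Tm) (L : ℕ)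
    {s t : Tm} (hB : ∀ P ∈ B, 2 ≤ bval P) (hm : wt s + wt t ≤ m) {U : List Tm}
    (hU : ∀ u ∈ U, u ∈ subs t ++ subs s) :
    Pc e v c m N B Z (Pz W e v c N B ν ex L Z) U := by
  refine ⟨fun _ => rfl, fun x u b hub hx => ?_, fun _ => rfl⟩
  have h1 : wt (Tm.pow u b) ≤ wt s + wt t := Mach_wt2 (hU _ hub)
  have h2 : wt u < wt (Tm.pow u b) := by
    simp only [wt]
    omega
  have h3 := e1_le u
  have h6 := lg_le u
  have h4 : (2 : ℕ) ^ lg u < 2 ^ m := Nat.pow_lt_pow_right (by norm_num) (by omega)
  have h5 := e1_pos u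
  rw [TC.lcv_val hB Z (by rw [hx]; exact h5) (by rw [hx]; omega), hx]
  rfl

private theorem Mach_getD_map {A B C : Type} {f : A → C} {g : B → C} {l : List A} {r : List B}
    (h : l.map f = r.map g) {a : ℕ} (ha : a < r.length) (d : A) (d' : B) :
    f (l.getD a d) = g (r.getD a d') := by
  have h1 : l.length = r.length := by
    have h2 := congrArg List.length h
    rw [List.length_map, List.length_map] at h2
    exact h2
  rw [List.getD_eq_getElem _ _ (by omega : a < l.length), List.getD_eq_getElem _ _ ha]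
  have h3 : (l.map f)[a]'(by rw [List.length_map]; omega) =
      (r.map g)[a]'(by rw [List.length_map]; omega) := List.getElem_of_eq h _
  rw [List.getElem_map, List.getElem_map] at h3
  exact h3

/-- The hash row. -/
theorem hrow_val {W : Finset (List Bool)} {e M : List Bool} {v c m : ℕ} {N B : List (List Bool)}
    (Z : List Bool) {tab : List (List SI)} (s t : Tm) {i : ℕ} (hi : i < s.sz + t.sz)
    (hB : ∀ P ∈ B, 2 ≤ bval P) (hm : wt s + wt t ≤ m) (hM : 2 ^ (wt s + wt t) ≤ bval M)
    (hc : Coh (fun a => lr W (exF s t a)) i (tab.map irow)) {a : ℕ} (ha : a ≤ i) :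
    evr e (hrow e M v c m N B tab (s.toks ++ t.toks) i Z) a =
      hz W e v c N B (tab.map irow) (exF s t) i Z a := by
  classical
  have hlen : (subs t ++ subs s).length = s.sz + t.sz := by
    rw [List.length_append, TC.length_subs, TC.length_subs, add_comm]
  have hst := TC.stk_pair s t
  have hTl : (s.toks ++ t.toks).length = s.sz + t.sz := by rw [← hst.length, hlen]
  obtain ⟨st', hS⟩ := hst.drop (m := i + 1) (by omega)
  have hUl : ((subs t ++ subs s).take (i + 1)).length = i + 1 := by
    rw [List.length_take, hlen]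
    omega
  have hget : ∀ b ≤ i, ((subs t ++ subs s).take (i + 1)).getD b .one = exF s t b := by
    intro b hb
    unfold exF
    rw [List.getD_eq_getElem _ _ (by rw [hUl]; omega), List.getElem_take,
      List.getD_eq_getElem _ _ (by rw [hlen]; omega)]
  have hmem : ∀ u ∈ (subs t ++ subs s).take (i + 1), u ∈ subs t ++ subs s :=
    fun u hu => List.mem_of_mem_take hu
  obtain ⟨h1, h2⟩ := xrun_out (e := e) (M := M) (v := v) (c := c) (m := m) (N := N) (B := B)
    (Z := Z) (tab := tab) (P := Pz W e v c N B (tab.map irow) (exF s t) i Z) hS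
    (by
      intro b hb _
      rw [hUl] at hb
      have hb' : b < i := by omega
      beta_reduce
      rw [hget b hb'.le]
      exact Mach_hv Z hc hb')
    (Mach_Pz Z _ _ _ hB hm hmem) (fun u hu => Mach_lg hM (hmem u hu))
  have h3 : (∀ u b, Tm.pow u b ∈ (subs t ++ subs s).take (i + 1) →
      av (Pz W e v c N B (tab.map irow) (exF s t) i Z).f u *
        (Pz W e v c N B (tab.map irow) (exF s t) i Z).iv
          (av (Pz W e v c N B (tab.map irow) (exF s t) i Z).f u) = 1) ↔
      Ok W e v c N B (tab.map irow) (exF s t) i Z := by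
    refine ⟨fun h a ha u b hab => h u b ?_, fun h u b hub => ?_⟩
    · rw [← hab, ← hget a ha, List.getD_eq_getElem _ _ (by rw [hUl]; omega)]
      exact List.getElem_mem _
    · obtain ⟨j, hj, h4⟩ := List.mem_iff_getElem.1 hub
      have hj' : j ≤ i := by
        rw [hUl] at hj
        omega
      refine h j hj' u b ?_
      rw [← hget j hj', List.getD_eq_getElem _ _ hj, h4]
  rw [h3] at h2
  show zv e ((hrow e M v c m N B tab (s.toks ++ t.toks) i Z).getD a []) = _
  unfold hrow hz
  by_cases hok : Ok W e v c N B (tab.map irow) (exF s t) i Z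
  · rw [if_pos hok, h2.2 hok, cond_true, ← hget a ha]
    exact Mach_getD_map h1 (by rw [hUl]; omega) _ _
  · have h4 : (xrun e M v c m N B Z tab ((s.toks ++ t.toks).drop
        ((s.toks ++ t.toks).length - (i + 1)))).2.2 = false :=
      Bool.eq_false_iff.2 fun h5 => hok (h2.1 h5)
    rw [if_neg hok, h4, cond_false, List.getD_eq_getElem _ _ (by
      rw [List.length_replicate]; omega), List.getElem_replicate, TW.zv_nil]

/-- The values of the two terms. -/
theorem xrun_pair {W : Finset (List Bool)} {e M : List Bool} {v c m : ℕ}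
    {N B : List (List Bool)} (Z : List Bool) {tab : List (List SI)} (s t : Tm)
    (hB : ∀ P ∈ B, 2 ≤ bval P) (hm : wt s + wt t ≤ m) (hM : 2 ^ (wt s + wt t) ≤ bval M)
    (hc : Coh (fun a => lr W (exF s t a)) (s.sz + t.sz) (tab.map irow)) :
    zv e ((xrun e M v c m N B Z tab (s.toks ++ t.toks)).1.headD vx0).1.1 =
        av (Pz W e v c N B (tab.map irow) (exF s t) (s.sz + t.sz) Z).f s ∧
      zv e ((xrun e M v c m N B Z tab (s.toks ++ t.toks)).1.tail.headD vx0).1.1 =
        av (Pz W e v c N B (tab.map irow) (exF s t) (s.sz + t.sz) Z).f t := by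
  have hlen : (subs t ++ subs s).length = s.sz + t.sz := by
    rw [List.length_append, TC.length_subs, TC.length_subs, add_comm]
  have h1 := xrun_stk (e := e) (M := M) (v := v) (c := c) (m := m) (N := N) (B := B)
    (Z := Z) (tab := tab) (P := Pz W e v c N B (tab.map irow) (exF s t) (s.sz + t.sz) Z)
    (TC.stk_pair s t)
    (by
      intro b hb _
      rw [hlen] at hb
      exact Mach_hv Z hc hb)
    (Mach_Pz Z _ _ _ hB hm fun u hu => hu) (fun u hu => Mach_lg hM hu)
  obtain ⟨h2, h3, -⟩ := Mach_two h1 vx0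
  exact ⟨h2.1, h3.1⟩

end Pool.Agent.TD
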