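import Pool.Agent.H.MP_b2d7dd_lc.TD.Mach
import Pool.Agent.H.MP_b2d7dd_lc.TC.CobP
import Pool.Agent.H.MP_b2d7dd_lc.TC.MachP

/-!
# Module MachP: the machine runs in polynomial time

Compare TC/MachP (`xrun_len`, `poly_xrun`, `poly_hrow`).
-/

namespace Pool.Agent.TD

open Pool.Agent.TI (Tok fidx fidx_eq bmod beqv bpw bsub length_bmod_le length_bpw_le)
open Pool.Agent.TE (bl)
open Pool.Agent.TW (SI rad rmu rin rsb md tval length_tval_le length_rad_le length_rmu_le
  length_rsb_le length_md_le poly_tval poly_bl)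
open Pool.Agent.TC (alv lcv hv1 hv2 nm2 poly_lcv)
open Pool.Agent.H.MP_5be563_lc.PT

variable {α : Type} [Enc α]

private theorem MachP_c {β : Type} [Enc β] (b : β) : Poly (fun _ : α => b) :=
  Pool.Agent.H.MP_5be563_lc.PT.Poly.const b

private theorem MachP_fidx_le (w : List Bool) (l : List (List Bool)) : fidx w l ≤ l.length := by
  rw [fidx_eq]
  exact List.idxOf_le_length

private theorem MachP_fidx {fw : α → List Bool} {fl : α → List (List Bool)} (hw : Poly fw)
    (hl : Poly fl) : Poly (fun a => fidx (fw a) (fl a)) := by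
  unfold fidx
  refine Poly.foldr (f := fun p : α × ℕ × List Bool =>
      bif decide (p.2.2 = fw p.1) then 0 else p.2.1 + 1) (l := fl) (s0 := fun _ => 0)
      (B := fun a => 2 * sz (fl a) + 1) ?_ hl (by fun_prop)
      (((PBdd.const 2).mul hl.sz_le).add (PBdd.const 1)) ?_
  · exact Poly.cond (by fun_prop) (by fun_prop) (by fun_prop)
  · intro a l₁ l₂ h
    have h1 : fidx (fw a) l₂ ≤ l₂.length := MachP_fidx_le _ _
    have h2 : l₂.length ≤ (fl a).length := by rw [h]; simp
    have h3 := length_lt_sz (fl a)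
    have h4 : sz (fidx (fw a) l₂) = 2 * fidx (fw a) l₂ + 1 := by simp
    change sz (fidx (fw a) l₂) ≤ 2 * sz (fl a) + 1
    rw [h4]
    omega

private theorem MachP_pwv (e : List Bool) (v c m : ℕ) (B : List (List Bool)) (Z : List Bool)
    (a b : Vx) : (pwv e v c m B Z a b).length ≤ e.length + 4 := by
  rw [pwv]
  cases trx a b
  · rw [cond_false]
    simp
  · rw [cond_true]
    exact length_rmu_le _ _ _

private theorem MachP_nph (e : List Bool) (v c m : ℕ) (N B : List (List Bool)) (Z : List Bool)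
    (q : Tok) (st : List Vx) : (nph e v c m N B Z q st).length ≤ e.length + 4 := by
  rw [nph]
  cases h4 : decide (q.1 = 4)
  · rw [cond_false]
    cases h3 : decide (q.1 = 3)
    · rw [cond_false]
      simp
    · rw [cond_true]
      exact MachP_pwv _ _ _ _ _ _ _ _
  · rw [cond_true, alv]
    have h1 := length_bmod_le (bl v Z (2 * c + fidx q.2 N)) (md e)
    have h2 := length_md_le e
    omega

/-- The bounds for the values of a term. -/
private def MachP_B (e M : List Bool) (x : Vx) : Prop :=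
  x.1.1.length ≤ e.length + 4 ∧ x.1.2.1.length ≤ e.length + 4 ∧
    x.1.2.2.1.length ≤ e.length + 4 ∧ x.1.2.2.2.1.length ≤ M.length + 4 ∧
      x.1.2.2.2.2.length ≤ M.length + 4

private theorem MachP_bpw (M x k : List Bool) : (bpw x k (md M)).length ≤ M.length + 4 := by
  have h1 := length_bpw_le x k (md M)
  have h2 := length_md_le M
  omega

private theorem MachP_pwx (e M : List Bool) (a b : Vx) (h r p : List Bool) :
    MachP_B e M (pwx e M a b h r p) := by
  refine ⟨length_rmu_le _ _ _, length_rmu_le _ _ _, length_rmu_le _ _ _, MachP_bpw _ _ _, ?_⟩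
  show (bif b.2.2 || !a.2.1 then bpw a.1.2.2.2.2 b.1.2.2.2.2 (md M) else []).length ≤ _
  cases (b.2.2 || !a.2.1)
  · rw [cond_false]
    simp
  · rw [cond_true]
    exact MachP_bpw _ _ _

private theorem MachP_nvx (e M : List Bool) (v c : ℕ) (Z : List Bool) (tab : List (List SI))
    (q : Tok) (st : List Vx) (p : ℕ) (h : List Bool) :
    MachP_B e M (nvx e M v c Z tab q st p h) := by
  have hone : ∀ l : List Bool, ([true] : List Bool).length ≤ l.length + 4 := by
    intro l
    rw [List.length_singleton]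
    omega
  have hnil : ∀ l : List Bool, ([] : List Bool).length ≤ l.length + 4 := by
    intro l
    rw [List.length_nil]
    omega
  rw [nvx]
  cases h0 : decide (q.1 = 0)
  · rw [cond_false]
    cases h4 : decide (q.1 = 4)
    · rw [cond_false]
      cases h1 : decide (q.1 = 1)
      · rw [cond_false]
        cases h2 : decide (q.1 = 2)
        · rw [cond_false]
          cases trx (st.headD vx0) (st.tail.headD vx0)
          · rw [cond_false]
            exact MachP_pwx _ _ _ _ _ _ _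
          · rw [cond_true]
            exact MachP_pwx _ _ _ _ _ _ _
        · rw [cond_true]
          exact ⟨length_rmu_le _ _ _, length_rmu_le _ _ _, length_rad_le _ _ _,
            length_rmu_le _ _ _, length_rmu_le _ _ _⟩
      · rw [cond_true]
        exact ⟨length_rad_le _ _ _, length_rad_le _ _ _, length_rad_le _ _ _,
          length_rad_le _ _ _, length_rad_le _ _ _⟩
    · rw [cond_true]
      exact ⟨length_tval_le _ _ _ _ _ _ _ _, length_tval_le _ _ _ _ _ _ _ _,
        length_rmu_le _ _ _, hone M, hnil M⟩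
  · rw [cond_true]
    exact ⟨hone e, hone e, hnil e, hone M, hone M⟩

/-- The sizes of the state. -/
theorem xrun_len (e M : List Bool) (v c m : ℕ) (N B : List (List Bool)) (Z : List Bool)
    (tab : List (List SI)) (T : List Tok) :
    (xrun e M v c m N B Z tab T).1.length ≤ T.length ∧
      (xrun e M v c m N B Z tab T).2.1.length = T.length ∧
      (∀ x ∈ (xrun e M v c m N B Z tab T).1, x.1.1.length ≤ e.length + 4 ∧
        x.1.2.1.length ≤ e.length + 4 ∧ x.1.2.2.1.length ≤ e.length + 4 ∧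
          x.1.2.2.2.1.length ≤ M.length + 4 ∧ x.1.2.2.2.2.length ≤ M.length + 4) ∧
      (∀ x ∈ (xrun e M v c m N B Z tab T).2.1, x.length ≤ e.length + 4) := by
  induction T with
  | nil =>
    refine ⟨le_rfl, rfl, ?_, ?_⟩
    · intro x hx
      exact absurd hx (by simp [xrun])
    · intro x hx
      exact absurd hx (by simp [xrun])
  | cons q T ih =>
    obtain ⟨h1, h2, h3, h4⟩ := ih
    have hcons : xrun e M v c m N B Z tab (q :: T) =
        xstep e M v c m N B Z tab q (xrun e M v c m N B Z tab T) := rfl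
    rw [hcons]
    revert h1 h2 h3 h4
    generalize xrun e M v c m N B Z tab T = s
    intro h1 h2 h3 h4
    rw [xstep]
    have hsub : ∀ x ∈ (bif decide (q.1 = 0) || decide (q.1 = 4) then s.1 else s.1.tail.tail),
        x ∈ s.1 := by
      intro x hx
      cases hb : (decide (q.1 = 0) || decide (q.1 = 4))
      · rw [hb, cond_false] at hx
        exact List.mem_of_mem_tail (List.mem_of_mem_tail hx)
      · rw [hb, cond_true] at hx
        exact hx
    have hlen : (bif decide (q.1 = 0) || decide (q.1 = 4) then s.1 else s.1.tail.tail).length ≤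
        s.1.length := by
      cases hb : (decide (q.1 = 0) || decide (q.1 = 4))
      · rw [cond_false, List.length_tail, List.length_tail]
        omega
      · rw [cond_true]
    refine ⟨?_, ?_, ?_, ?_⟩
    · show (_ :: _ : List Vx).length ≤ _
      rw [List.length_cons, List.length_cons]
      omega
    · show (s.2.1 ++ [_]).length = _
      rw [List.length_append, List.length_singleton, List.length_cons, h2]
    · intro x hx
      rcases List.mem_cons.1 hx with rfl | hx
      · exact MachP_nvx _ _ _ _ _ _ _ _ _ _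
      · exact h3 x (hsub x hx)
    · intro x hx
      rcases List.mem_append.1 hx with hx | hx
      · exact h4 x hx
      · rw [List.mem_singleton.1 hx]
        exact MachP_nph _ _ _ _ _ _ _ _ _

private theorem MachP_pv {f : α → Vx} (hf : Poly f) : Poly (fun a => (f a).1.1) ∧
    Poly (fun a => (f a).1.2.1) ∧ Poly (fun a => (f a).1.2.2.1) ∧
    Poly (fun a => (f a).1.2.2.2.1) ∧ Poly (fun a => (f a).1.2.2.2.2) ∧
    Poly (fun a => (f a).2.1) ∧ Poly (fun a => (f a).2.2) := by
  have h1 := Poly.comp Poly.fst hf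
  have h2 := Poly.comp Poly.snd hf
  have k1 := Poly.comp Poly.snd h1
  have k2 := Poly.comp Poly.snd k1
  have k3 := Poly.comp Poly.snd k2
  exact ⟨Poly.comp Poly.fst h1, Poly.comp Poly.fst k1, Poly.comp Poly.fst k2,
    Poly.comp Poly.fst k3, Poly.comp Poly.snd k3, Poly.comp Poly.fst h2, Poly.comp Poly.snd h2⟩

private theorem MachP_ptrx {f g : α → Vx} (hf : Poly f) (hg : Poly g) :
    Poly (fun a => trx (f a) (g a)) := by
  unfold trx
  exact Poly.and (MachP_pv hf).2.2.2.2.2.1 (Poly.not (MachP_pv hg).2.2.2.2.2.2)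

private theorem MachP_pnph {fe : α → List Bool} {fv fc fm : α → ℕ}
    {fN fB : α → List (List Bool)} {fZ : α → List Bool} {fq : α → Tok} {fs : α → List Vx}
    (he : Poly fe) (hv : Poly fv) (hc : Poly fc) (hm : Poly fm) (hN : Poly fN) (hB : Poly fB)
    (hZ : Poly fZ) (hq : Poly fq) (hs : Poly fs) :
    Poly (fun a => nph (fe a) (fv a) (fc a) (fm a) (fN a) (fB a) (fZ a) (fq a) (fs a)) := by
  have hq1 : Poly (fun a => (fq a).1) := by fun_prop
  have hq2 : Poly (fun a => (fq a).2) := by fun_prop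
  have hmd : Poly (fun a => md (fe a)) := Pool.Agent.TW.Poly.md he
  have ha : Poly (fun a => alv (fe a) (fv a) (fc a) (fN a) (fZ a) (fq a).2) := by
    unfold alv
    exact Pool.Agent.TI.Poly.bmod (poly_bl hv hZ (Poly.add (Poly.mul (MachP_c 2) hc)
      (MachP_fidx hq2 hN))) hmd
  have h1 : Poly (fun a => (fs a).headD vx0) := Poly.headD hs (MachP_c vx0)
  have h2 : Poly (fun a => (fs a).tail.headD vx0) := Poly.headD (Poly.tail hs) (MachP_c vx0)
  obtain ⟨a1, a2, a3, a4, a5, a6, a7⟩ := MachP_pv h1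
  obtain ⟨b1, b2, b3, b4, b5, b6, b7⟩ := MachP_pv h2
  have hp : Poly (fun a => pwv (fe a) (fv a) (fc a) (fm a) (fB a) (fZ a)
      ((fs a).headD vx0) ((fs a).tail.headD vx0)) := by
    unfold pwv
    exact Poly.cond (MachP_ptrx h1 h2) (Pool.Agent.TW.Poly.rmu he
      (Pool.Agent.TW.Poly.rsb he b2 b5) (Pool.Agent.TW.Poly.rad he
        (Pool.Agent.TW.Poly.rmu he a3 (Pool.Agent.TW.Poly.rin he a1))
        (poly_lcv he hv hc hm hB hZ a4))) (MachP_c _)
  unfold nph
  exact Poly.cond (Poly.nateq hq1 (MachP_c 4)) ha (Poly.cond (Poly.nateq hq1 (MachP_c 3)) hp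
    (MachP_c _))

private theorem MachP_ppwx {fe fM : α → List Bool} {f g : α → Vx} {fh fr fp : α → List Bool}
    (he : Poly fe) (hM : Poly fM) (hf : Poly f) (hg : Poly g) (hh : Poly fh) (hr : Poly fr)
    (hp : Poly fp) :
    Poly (fun a => pwx (fe a) (fM a) (f a) (g a) (fh a) (fr a) (fp a)) := by
  obtain ⟨a1, a2, a3, a4, a5, a6, a7⟩ := MachP_pv hf
  obtain ⟨b1, b2, b3, b4, b5, b6, b7⟩ := MachP_pv hg
  have hmd : Poly (fun a => md (fe a)) := Pool.Agent.TW.Poly.md he
  have hmM : Poly (fun a => md (fM a)) := Pool.Agent.TW.Poly.md hM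
  have p1 := Pool.Agent.TI.Poly.bpw a1 b5 hmd
  have p2 := Pool.Agent.TI.Poly.bpw a2 b5 hmd
  have p3 := Pool.Agent.TI.Poly.bpw a1 (Pool.Agent.TI.Poly.bsub b5 (MachP_c [true])) hmd
  have p4 := Pool.Agent.TI.Poly.bpw a4 b5 hmM
  have p5 := Pool.Agent.TI.Poly.bpw a5 b5 hmM
  unfold pwx
  exact Poly.pair (Poly.pair (Pool.Agent.TW.Poly.rmu he hh p1) (Poly.pair
    (Pool.Agent.TW.Poly.rmu he hr p2) (Poly.pair
      (Pool.Agent.TW.Poly.rmu he hh (Pool.Agent.TW.Poly.rad he
        (Pool.Agent.TW.Poly.rmu he hp p1)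
        (Pool.Agent.TW.Poly.rmu he (Pool.Agent.TW.Poly.rmu he b5 p3) a3)))
      (Poly.pair p4 (Poly.cond (Poly.or b7 (Poly.not a6)) p5 (MachP_c _))))))
    (Poly.pair a6 (Poly.or (Poly.and a7 b7) (Poly.not a6)))

private theorem MachP_pnvx {fe fM : α → List Bool} {fv fc : α → ℕ}
    {fZ : α → List Bool} {ft : α → List (List SI)} {fq : α → Tok} {fs : α → List Vx}
    {fp : α → ℕ} {fh : α → List Bool} (he : Poly fe) (hM : Poly fM) (hv : Poly fv)
    (hc : Poly fc) (hZ : Poly fZ) (ht : Poly ft) (hq : Poly fq) (hs : Poly fs) (hp : Poly fp)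
    (hh : Poly fh) :
    Poly (fun a => nvx (fe a) (fM a) (fv a) (fc a) (fZ a) (ft a) (fq a) (fs a) (fp a)
      (fh a)) := by
  have hq1 : Poly (fun a => (fq a).1) := by fun_prop
  have h1 : Poly (fun a => (fs a).headD vx0) := Poly.headD hs (MachP_c vx0)
  have h2 : Poly (fun a => (fs a).tail.headD vx0) := Poly.headD (Poly.tail hs) (MachP_c vx0)
  obtain ⟨a1, a2, a3, a4, a5, a6, a7⟩ := MachP_pv h1
  obtain ⟨b1, b2, b3, b4, b5, b6, b7⟩ := MachP_pv h2
  have t1 : Poly (fun a => hv1 (fe a) (fv a) (fc a) (fZ a) (ft a) (fp a)) := by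
    unfold hv1
    exact poly_tval he hv hc (MachP_c nm2) hZ ht hp (MachP_c _)
  have t2 : Poly (fun a => hv2 (fe a) (fv a) (fc a) (fZ a) (ft a) (fp a)) := by
    unfold hv2
    exact poly_tval he hv hc (MachP_c nm2) hZ ht hp (MachP_c _)
  have hadx : Poly (fun a => adx (fe a) (fM a) ((fs a).headD vx0) ((fs a).tail.headD vx0)) := by
    unfold adx
    exact Poly.pair (Poly.pair (Pool.Agent.TW.Poly.rad he a1 b1) (Poly.pair
      (Pool.Agent.TW.Poly.rad he a2 b2) (Poly.pair (Pool.Agent.TW.Poly.rad he a3 b3)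
        (Poly.pair (Pool.Agent.TW.Poly.rad hM a4 b4) (Pool.Agent.TW.Poly.rad hM a5 b5)))))
      (Poly.pair (MachP_c true) (Poly.and a7 b7))
  have hmux : Poly (fun a => mux (fe a) (fM a) ((fs a).headD vx0) ((fs a).tail.headD vx0)) := by
    unfold mux
    exact Poly.pair (Poly.pair (Pool.Agent.TW.Poly.rmu he a1 b1) (Poly.pair
      (Pool.Agent.TW.Poly.rmu he a2 b2) (Poly.pair
        (Pool.Agent.TW.Poly.rad he (Pool.Agent.TW.Poly.rmu he a3 b1)
          (Pool.Agent.TW.Poly.rmu he a1 b3))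
        (Poly.pair (Pool.Agent.TW.Poly.rmu hM a4 b4) (Pool.Agent.TW.Poly.rmu hM a5 b5)))))
      (Poly.pair (Poly.or a6 b6) (Poly.and a7 b7))
  unfold nvx
  exact Poly.cond (Poly.isZero hq1) (MachP_c vx0) (Poly.cond (Poly.nateq hq1 (MachP_c 4))
    (Poly.pair (Poly.pair t1 (Poly.pair t2 (Poly.pair
      (Pool.Agent.TW.Poly.rmu he t1 hh) (MachP_c (([true], []) : List Bool × List Bool)))))
      (MachP_c ((true, false) : Bool × Bool)))
    (Poly.cond (Poly.nateq hq1 (MachP_c 1)) hadx (Poly.cond (Poly.nateq hq1 (MachP_c 2)) hmux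
      (Poly.cond (MachP_ptrx h1 h2) (MachP_ppwx he hM h1 h2 t1 t2 hh)
        (MachP_ppwx he hM h1 h2 (MachP_c [true]) (MachP_c [true]) hh)))))

private theorem MachP_pnok {fe : α → List Bool} {fq : α → Tok} {fs : α → List Vx}
    (he : Poly fe) (hq : Poly fq) (hs : Poly fs) :
    Poly (fun a => nok (fe a) (fq a) (fs a)) := by
  have hq1 : Poly (fun a => (fq a).1) := by fun_prop
  have h1 : Poly (fun a => (fs a).headD vx0) := Poly.headD hs (MachP_c vx0)
  have a1 : Poly (fun a => ((fs a).headD vx0).1.1) := (MachP_pv h1).1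
  have hmd : Poly (fun a => md (fe a)) := Pool.Agent.TW.Poly.md he
  unfold nok
  exact Poly.or (Poly.not (Poly.nateq hq1 (MachP_c 3))) (Pool.Agent.TI.Poly.beqv
    (Pool.Agent.TW.Poly.rmu he a1 (Pool.Agent.TW.Poly.rin he a1))
    (Pool.Agent.TI.Poly.bmod (MachP_c _) hmd))

private theorem MachP_xstep {fe fM : α → List Bool} {fv fc fm : α → ℕ}
    {fN fB : α → List (List Bool)} {fZ : α → List Bool} {ft : α → List (List SI)}
    {fq : α → Tok} {fs : α → List Vx × List (List Bool) × Bool} (he : Poly fe)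
    (hM : Poly fM) (hv : Poly fv) (hc : Poly fc) (hm : Poly fm) (hN : Poly fN) (hB : Poly fB)
    (hZ : Poly fZ) (ht : Poly ft) (hq : Poly fq) (hs : Poly fs) :
    Poly (fun a => xstep (fe a) (fM a) (fv a) (fc a) (fm a) (fN a) (fB a) (fZ a) (ft a)
      (fq a) (fs a)) := by
  have hq1 : Poly (fun a => (fq a).1) := by fun_prop
  have s1 : Poly (fun a => (fs a).1) := Poly.comp Poly.fst hs
  have s2 : Poly (fun a => (fs a).2.1) := Poly.comp Poly.fst (Poly.comp Poly.snd hs)
  have s3 : Poly (fun a => (fs a).2.2) := Poly.comp Poly.snd (Poly.comp Poly.snd hs)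
  have hph := MachP_pnph he hv hc hm hN hB hZ hq s1
  have hvx := MachP_pnvx he hM hv hc hZ ht hq s1 (Poly.length s2) hph
  have hok := MachP_pnok he hq s1
  have hr : Poly (fun a => bif decide ((fq a).1 = 0) || decide ((fq a).1 = 4) then (fs a).1
      else (fs a).1.tail.tail) :=
    Poly.cond (Poly.or (Poly.isZero hq1) (Poly.nateq hq1 (MachP_c 4))) s1
      (Poly.tail (Poly.tail s1))
  unfold xstep
  exact Poly.pair (Poly.lcons hvx hr) (Poly.pair (Poly.append s2
    (Poly.lcons hph (MachP_c ([] : List (List Bool))))) (Poly.and s3 hok))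

private theorem MachP_sz (e M : List Bool) (v c m : ℕ) (N B : List (List Bool)) (Z : List Bool)
    (tab : List (List SI)) (T l₁ l₂ : List Tok) (h : T = l₁ ++ l₂) :
    sz (xrun e M v c m N B Z tab l₂) ≤
      (sz T * (3 * (4 * (sz e + 4) + 1) + 2 * (4 * (sz M + 4) + 1) + 13) + 1) +
        (sz T * (4 * (sz e + 4) + 2) + 1) + 5 := by
  obtain ⟨h1, h2, h3, h4⟩ := xrun_len e M v c m N B Z tab l₂
  have hT : l₂.length ≤ sz T := by
    have h5 := length_lt_sz T
    have h6 : l₂.length ≤ T.length := by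
      rw [h, List.length_append]
      omega
    omega
  have he := length_lt_sz e
  have hM := length_lt_sz M
  have k1 : sz (xrun e M v c m N B Z tab l₂).1 ≤
      sz T * (3 * (4 * (sz e + 4) + 1) + 2 * (4 * (sz M + 4) + 1) + 13) + 1 := by
    refine (sz_le_of_forall _ (3 * (4 * (sz e + 4) + 1) + 2 * (4 * (sz M + 4) + 1) + 12)
      fun x hx => ?_).trans ?_
    · obtain ⟨g1, g2, g3, g4, g5⟩ := h3 x hx
      have f1 := (sz_bool_list x.1.1).2
      have f2 := (sz_bool_list x.1.2.1).2
      have f3 := (sz_bool_list x.1.2.2.1).2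
      have f4 := (sz_bool_list x.1.2.2.2.1).2
      have f5 := (sz_bool_list x.1.2.2.2.2).2
      have f6 := sz_bool_le x.2.1
      have f7 := sz_bool_le x.2.2
      have e1 : sz x = (sz x.1.1 + (sz x.1.2.1 + (sz x.1.2.2.1 +
        (sz x.1.2.2.2.1 + sz x.1.2.2.2.2 + 1) + 1) + 1) + 1) + (sz x.2.1 + sz x.2.2 + 1) + 1 :=
        rfl
      rw [e1]
      omega
    · exact Nat.add_le_add_right (Nat.mul_le_mul_right _ (h1.trans hT)) 1
  have k2 : sz (xrun e M v c m N B Z tab l₂).2.1 ≤ sz T * (4 * (sz e + 4) + 2) + 1 := by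
    refine (sz_le_of_forall _ (4 * (sz e + 4) + 1) fun x hx => ?_).trans ?_
    · have g1 := h4 x hx
      have f1 := (sz_bool_list x).2
      omega
    · exact Nat.add_le_add_right (Nat.mul_le_mul_right _ (h2.le.trans hT)) 1
  have k3 := sz_bool_le (xrun e M v c m N B Z tab l₂).2.2
  have e2 : sz (xrun e M v c m N B Z tab l₂) = sz (xrun e M v c m N B Z tab l₂).1 +
      (sz (xrun e M v c m N B Z tab l₂).2.1 + sz (xrun e M v c m N B Z tab l₂).2.2 + 1) + 1 :=
    rfl
  rw [e2]
  omega

theorem poly_xrun {fe fM : α → List Bool} {fv fc fm : α → ℕ} {fN fB : α → List (List Bool)}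
    {fZ : α → List Bool} {ft : α → List (List SI)} {fT : α → List Tok} (he : Poly fe)
    (hM : Poly fM) (hv : Poly fv) (hc : Poly fc) (hm : Poly fm) (hN : Poly fN) (hB : Poly fB)
    (hZ : Poly fZ) (ht : Poly ft) (hT : Poly fT) :
    Poly (fun a => xrun (fe a) (fM a) (fv a) (fc a) (fm a) (fN a) (fB a) (fZ a) (ft a)
      (fT a)) := by
  have hf : Poly (fun p : α × (List Vx × List (List Bool) × Bool) × Tok =>
      xstep (fe p.1) (fM p.1) (fv p.1) (fc p.1) (fm p.1) (fN p.1) (fB p.1) (fZ p.1) (ft p.1)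
        p.2.2 p.2.1) :=
    MachP_xstep (he.comp Poly.fst) (hM.comp Poly.fst) (hv.comp Poly.fst) (hc.comp Poly.fst)
      (hm.comp Poly.fst) (hN.comp Poly.fst) (hB.comp Poly.fst) (hZ.comp Poly.fst)
      (ht.comp Poly.fst) (Poly.comp Poly.snd Poly.snd) (Poly.comp Poly.fst Poly.snd)
  exact Poly.foldr
    (f := fun p : α × (List Vx × List (List Bool) × Bool) × Tok =>
      xstep (fe p.1) (fM p.1) (fv p.1) (fc p.1) (fm p.1) (fN p.1) (fB p.1) (fZ p.1) (ft p.1)
        p.2.2 p.2.1)
    (l := fT) (s0 := fun _ => (([], [], true) : List Vx × List (List Bool) × Bool))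
    (B := fun a => (sz (fT a) * (3 * (4 * (sz (fe a) + 4) + 1) + 2 * (4 * (sz (fM a) + 4) + 1) + 13)
      + 1) + (sz (fT a) * (4 * (sz (fe a) + 4) + 2) + 1) + 5) hf hT
    (MachP_c _)
    ((((hT.sz_le.mul ((((PBdd.const 3).mul (((PBdd.const 4).mul (he.sz_le.add
      (PBdd.const 4))).add (PBdd.const 1))).add ((PBdd.const 2).mul (((PBdd.const 4).mul
      (hM.sz_le.add (PBdd.const 4))).add (PBdd.const 1)))).add (PBdd.const 13))).add
      (PBdd.const 1)).add
      ((hT.sz_le.mul (((PBdd.const 4).mul (he.sz_le.add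
      (PBdd.const 4))).add (PBdd.const 2))).add (PBdd.const 1))).add
      (PBdd.const 5)) (by
      intro a l₁ l₂ h
      exact MachP_sz (fe a) (fM a) (fv a) (fc a) (fm a) (fN a) (fB a) (fZ a) (ft a) (fT a)
        l₁ l₂ h)

theorem poly_hrow {fe fM : α → List Bool} {fv fc fm : α → ℕ} {fN fB : α → List (List Bool)}
    {fZ : α → List Bool} {ft : α → List (List SI)} {fT : α → List Tok} {fi : α → ℕ}
    (he : Poly fe) (hM : Poly fM) (hv : Poly fv) (hc : Poly fc) (hm : Poly fm) (hN : Poly fN)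
    (hB : Poly fB) (ht : Poly ft) (hT : Poly fT) (hi : Poly fi) (hZ : Poly fZ) :
    Poly (fun a => hrow (fe a) (fM a) (fv a) (fc a) (fm a) (fN a) (fB a) (ft a) (fT a) (fi a)
      (fZ a)) := by
  have h0 : Poly (fun a => (fT a).drop ((fT a).length - (fi a + 1))) :=
    Poly.drop (Poly.sub (Poly.length hT) (Poly.add hi (MachP_c 1))) hT
  have h1 := poly_xrun he hM hv hc hm hN hB hZ ht h0
  unfold hrow
  exact Poly.cond (Poly.comp Poly.snd (Poly.comp Poly.snd h1))
    (Poly.comp Poly.fst (Poly.comp Poly.snd h1))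
    (Poly.replicate (Poly.add hi (MachP_c 1)) (MachP_c _))

end Pool.Agent.TD
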