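import Pool.Agent.H.MP_b2d7dd_lc.TD.Nxt
import Pool.Agent.H.MP_b2d7dd_lc.TC.Det
import Pool.Agent.H.MP_b2d7dd_lc.TC.Ext
import Pool.Agent.H.MP_b2d7dd_lc.TW.LiftP

/-!
# Module Snd: true identities are always accepted

Compare TC/Snd.
-/

namespace Pool.Agent.TD

open Pool.Agent.TI (Tm Tok names Valid)
open Pool.Agent.TE (bl)
open Pool.Agent.TW (SI irow wun)
open Pool.Agent.TC (Pt rf rf_pos evl Mo Su nrm Pr Gx Lx h1 h2 al ga lcP MB Vn Coh Fai Eqv Bas crd chi)
open Pool.Agent.TC (muB Pb Stk subs exF cob eN eP uu vv Kc Qw Rr kk SS AA KK)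
open Pool.Agent.H.MP_5be563_lc.PT Finset

/-- The variables. -/
abbrev Wn (s t : Tm) : Finset (List Bool) := (names (s.toks ++ t.toks)).toFinset

/-- The logarithms of the subterms. -/
noncomputable abbrev lv (s t : Tm) (a : ℕ) : Pt (Wn s t) → ℝ := lr (Wn s t) (exF s t a)

private theorem Snd_hn {s t : Tm} {n : ℕ} (hn : wt s + wt t ≤ n) : s.sz + t.sz ≤ n := by
  have h1 := sz_le s
  have h2 := sz_le t
  omega

/-- The variables and powers of a member of the stack. -/
private theorem Snd_ats {s t u : Tm} (hu : u ∈ [s, t]) : ats u ⊆ exA (exF s t) (s.sz + t.sz) := by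
  have hlen : (subs t ++ subs s).length = s.sz + t.sz := by
    rw [List.length_append, Pool.Agent.TC.length_subs, Pool.Agent.TC.length_subs, add_comm]
  have hst := Pool.Agent.TC.stk_pair s t
  have hidx : ∀ x ∈ subs t ++ subs s, ∃ a < s.sz + t.sz, exF s t a = x := by
    intro x hx
    obtain ⟨j, hj, h1⟩ := List.mem_iff_getElem.1 hx
    refine ⟨j, by rw [← hlen]; exact hj, ?_⟩
    unfold exF
    rw [List.getD_eq_getElem?_getD, List.getElem?_eq_getElem hj, h1]
    rfl
  obtain ⟨j, hj, h1⟩ := hidx u (hst.mem u hu)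
  obtain ⟨q1, -, -⟩ := stk_parts hst (i := j) (by rw [hlen]; exact hj)
  intro x hx
  have h2 : (subs t ++ subs s).getD j .one = u := h1
  rw [h2] at q1
  rcases q1 x hx with h3 | h3
  · exact ⟨j, hj, by rw [h1, h3], ats_self hx⟩
  · obtain ⟨a, ha, h4⟩ := hidx x (List.mem_of_mem_take h3)
    exact ⟨a, ha, h4.symm, ats_self hx⟩

private theorem Snd_vars {W : Finset (List Bool)} {u : Tm} (h : ∀ w ∈ names u.toks, w ∈ W) :
    Pool.Agent.TC.VarsIn W u := by
  induction u with
  | one => trivial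
  | var w =>
    refine h w ?_
    simp [names, Tm.toks]
  | add s t hs ht =>
    have e : names (Tm.add s t).toks = names s.toks ++ names t.toks := by
      rw [← Pool.Agent.TI.names_append]
      simp [names, Tm.toks]
    rw [e] at h
    exact ⟨hs fun w hw => h w (List.mem_append_left _ hw),
      ht fun w hw => h w (List.mem_append_right _ hw)⟩
  | mul s t hs ht =>
    have e : names (Tm.mul s t).toks = names s.toks ++ names t.toks := by
      rw [← Pool.Agent.TI.names_append]
      simp [names, Tm.toks]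
    rw [e] at h
    exact ⟨hs fun w hw => h w (List.mem_append_left _ hw),
      ht fun w hw => h w (List.mem_append_right _ hw)⟩
  | pow s t hs ht =>
    have e : names (Tm.pow s t).toks = names s.toks ++ names t.toks := by
      rw [← Pool.Agent.TI.names_append]
      simp [names, Tm.toks]
    rw [e] at h
    exact ⟨hs fun w hw => h w (List.mem_append_left _ hw),
      ht fun w hw => h w (List.mem_append_right _ hw)⟩

private theorem Snd_len (s t : Tm) : (s.toks ++ t.toks).length = s.sz + t.sz := by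
  rw [List.length_append, Tm.length_toks, Tm.length_toks]

private theorem Snd_Mn {s t : Tm} {n : ℕ} (hn : wt s + wt t ≤ n) :
    2 ^ (wt s + wt t) ≤ bval (Mn n) := by
  rw [bval_Mn]
  exact Nat.pow_le_pow_right (by norm_num) (by omega)

theorem nxt_coh {n : ℕ} {s t : Tm} (hn : wt s + wt t ≤ n) {i : ℕ}
    (hi : i < s.sz + t.sz) {e : List Bool} (he : 2 ^ vv n ≤ bval e) (N : List (List Bool))
    {tab : List (List SI)} (hc : Coh (lv s t) i (tab.map irow)) (zz : List Bool) :
    Coh (lv s t) (i + 1)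
      ((nxt n e N (baseT n (s.toks ++ t.toks)) (s.toks ++ t.toks) i tab zz).map irow) := by
  have hF : FamC (Wn s t) n (s.sz + t.sz) (exF s t) := fam_exF hn
  have hM := baseT_mb (s := s) (t := t) hn
  have hn' := Snd_hn hn
  have hL : i + 1 ≤ n := by omega
  have hlen := Snd_len s t
  unfold nxt
  refine Pool.Agent.TC.coh_ltab (rel_iff hF hM (i := i + 1) (by omega))
    (fun a ha g => cn_bound hF hM (i := i + 1) (by omega) ha g) (kk n) ?_ ?_ _ ?_ ?_
  · rw [Pool.Agent.TW.bval_pow2]
    exact Pool.Agent.TC.NB_le hL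
  · rw [Pool.Agent.TW.bval_pow2, Pool.Agent.TW.bval_pow2]
    exact Pool.Agent.TC.par_coh hL (by omega)
  · intro v hv
    obtain ⟨j, -, rfl⟩ := List.mem_map.1 hv
    exact hrow_length e (Mn n) (vv n) (n + 1) n N _ tab _ (by rw [hlen]; omega) _
  · intro v hv κ hκ
    obtain ⟨j, -, rfl⟩ := List.mem_map.1 hv
    have h1 := hz_rel (W := Wn s t) (e := e) (v := vv n) (c := n + 1) (N := N)
      (B := baseT n (s.toks ++ t.toks)) (ν := tab.map irow) (ex := exF s t)
      (Z := bl (Qw n * vv n) zz j) hF hM hi hc κ hκ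
    rw [← h1]
    refine Finset.sum_congr rfl fun a ha => ?_
    rw [hrow_val (W := Wn s t) _ s t hi (baseT_two hn).1 hn (Snd_Mn hn) hc
      (Nat.lt_succ_iff.1 (Finset.mem_range.1 ha))]

theorem Snd_bound (n : ℕ) (e : List Bool) (N B : List (List Bool))
    (T : List Tok) (i : ℕ) (tab : List (List SI)) (zz : List Bool) :
    (nxt n e N B T i tab zz).length ≤ i + 1 ∧
      ∀ row ∈ (nxt n e N B T i tab zz).map irow, ∀ a, |row a| ≤ (2 ^ eP n : ℕ) := by
  unfold nxt
  refine ⟨(Pool.Agent.TW.ltab_len _ _ _ _ _ _).1.trans (Pool.Agent.TW.pivots_len _ _ _).1, ?_⟩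
  intro row hrow a
  obtain ⟨l, hl, rfl⟩ := List.mem_map.1 hrow
  have h1 := (Pool.Agent.TW.mem_ltab hl).2 a
  rw [Pool.Agent.TW.bval_pow2] at h1
  exact h1

theorem tabI_bound (n : ℕ) (e : List Bool) (N B : List (List Bool))
    (T : List Tok) (z : List Bool) (i : ℕ) : (tabI n e N B T z i).length ≤ i ∧
      ∀ row ∈ (tabI n e N B T z i).map irow, ∀ a, |row a| ≤ (2 ^ eP n : ℕ) := by
  cases i with
  | zero =>
    refine ⟨le_rfl, ?_⟩
    intro row hrow
    exact absurd hrow (by simp [tabI])
  | succ i => exact Snd_bound n e N B T i _ _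

theorem tabI_coh {n : ℕ} {s t : Tm} (hn : wt s + wt t ≤ n)
    {e : List Bool} (he : 2 ^ vv n ≤ bval e) (N : List (List Bool)) (z : List Bool) (i : ℕ)
    (hi : i ≤ s.sz + t.sz) :
    Coh (lv s t) i
      ((tabI n e N (baseT n (s.toks ++ t.toks)) (s.toks ++ t.toks) z i).map irow) := by
  induction i with
  | zero =>
    intro κ _ row hrow
    exact absurd hrow (by simp [tabI])
  | succ i ih => exact nxt_coh hn (by omega) he N (ih (by omega)) _

/-- The value of a term of the identity for the first character. -/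
noncomputable def h0 (n : ℕ) (e : List Bool) (s t : Tm) (tab : List (List SI)) (Z : List Bool)
    (u : Tm) : ZMod (bval e + 2) :=
  evl (fun v => chi (fun b => wun e (bl (vv n) Z b)) (tab.map irow) (lv s t) (s.sz + t.sz) v)
    (rp (Wn s t) u)

theorem fin1_iff {n : ℕ} {s t : Tm} (hn : wt s + wt t ≤ n) (e : List Bool)
    (N : List (List Bool)) {tab : List (List SI)}
    (hc : Coh (lv s t) (s.sz + t.sz) (tab.map irow)) (zz : List Bool) :
    fin1 n e N (baseT n (s.toks ++ t.toks)) (s.toks ++ t.toks) tab zz = true ↔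
      h0 n e s t tab (bl (Qw n * vv n) zz 0) s = h0 n e s t tab (bl (Qw n * vv n) zz 0) t := by
  obtain ⟨h1, h2⟩ := xrun_pair (W := Wn s t) (e := e) (M := Mn n) (v := vv n) (c := n + 1)
    (m := n) (N := N) (B := baseT n (s.toks ++ t.toks)) (bl (Qw n * vv n) zz 0) (tab := tab) s t
    (baseT_two hn).1 hn (Snd_Mn hn) hc
  have hMo : Mo (VA (Wn s t) (exA (exF s t) (s.sz + t.sz)))
      (fun v => chi (fun b => wun e (bl (vv n) (bl (Qw n * vv n) zz 0) b)) (tab.map irow)
        (lv s t) (s.sz + t.sz) v) := by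
    rw [VA_exA]
    exact ⟨Pool.Agent.TC.chi_zero _ hc, fun g hg h hh => Pool.Agent.TC.chi_add _ hc hg hh⟩
  have h3 : ∀ u, u ∈ [s, t] → av (Pz (Wn s t) e (vv n) (n + 1) N (baseT n (s.toks ++ t.toks))
      (tab.map irow) (exF s t) (s.sz + t.sz) (bl (Qw n * vv n) zz 0)).f u =
        h0 n e s t tab (bl (Qw n * vv n) zz 0) u := fun u hu =>
    av_evl hMo (fun a _ => rfl) (Snd_ats hu)
  unfold fin1
  rw [Pool.Agent.TW.beqv_bmod_iff, h1, h2, h3 s (by simp), h3 t (by simp)]

/-- The identity holds if and only if the elements of the monoid ring are equal. -/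
theorem valid_rp (s t : Tm) : Valid s t ↔ rp (Wn s t) s = rp (Wn s t) t := by
  have hF : FamC (Wn s t) (wt s + wt t) (s.sz + t.sz) (exF s t) := fam_exF le_rfl
  obtain ⟨as, h1, h2⟩ := hF.cl le_rfl
  have hvs : Pool.Agent.TC.VarsIn (Wn s t) s := Snd_vars fun w hw => by
    rw [List.mem_toFinset, Pool.Agent.TI.names_append]
    exact List.mem_append_left _ hw
  have hvt : Pool.Agent.TC.VarsIn (Wn s t) t := Snd_vars fun w hw => by
    rw [List.mem_toFinset, Pool.Agent.TI.names_append]
    exact List.mem_append_right _ hw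
  rw [Pool.Agent.TC.valid_iff hvs hvt]
  constructor
  · intro h
    exact rp_ext h1 ((Snd_ats (by simp)).trans h2) ((Snd_ats (by simp)).trans h2) h
  · intro h
    funext x
    rw [rf_evl, rf_evl, h]

theorem test0_valid {n : ℕ} {s t : Tm} (hn : wt s + wt t ≤ n)
    (hv : Valid s t) (e z : List Bool) : test0 n (s.toks ++ t.toks) e z = true := by
  unfold test0
  cases hb : ble (Pool.Agent.TW.pow2 (vv n)) e with
  | false => rfl
  | true =>
    rw [cond_true]
    have he := (ble_iff _ _).1 hb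
    rw [Pool.Agent.TW.bval_pow2] at he
    rw [Snd_len]
    have hc := tabI_coh hn he (names (s.toks ++ t.toks)) z (s.sz + t.sz) le_rfl
    rw [fin1_iff hn e (names (s.toks ++ t.toks)) hc]
    unfold h0
    rw [(valid_rp s t).1 hv]

end Pool.Agent.TD
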