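import Pool.Agent.H.MP_b2d7dd_lc.TD.Dl
import Pool.Agent.H.MP_b2d7dd_lc.TC.Nu

/-!
# Module Nu: numerators of the first order data

`Lx W` = the monoid ring with exponents (function, function, parameters); the parameters are `inl w`
for the variables and `inr k` for the coprime base. `dn t` = the denominator, `dP t` = the numerator of
`dl`, `phP t` = the numerator of `ph`. `bases t` = the bases of the powers outside of exponents.
-/

namespace Pool.Agent.TD

open Pool.Agent.TI (Tm)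
open Pool.Agent.TC (Pt rf rf_pos evl Mo Su nrm Pr Gx Lx h1 h2 al ga lcP evl_add evl_zsmul evl_zero
  evl_sum evl_single evl_one evl_mul)

variable (W : Finset (List Bool)) (κ : ℕ) (mu : ℕ → ℕ → ℕ)

/-- The value for the first character. -/
noncomputable def hP (t : Tm) : Lx W := av (fun a => h1 W (lr W a)) t

/-- The value for the second character. -/
noncomputable def rP (t : Tm) : Lx W := av (fun a => h2 W (lr W a)) t

/-- The denominator. -/
noncomputable def dn : Tm → Lx W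
  | .one => 1
  | .var _ => 1
  | .add s t => dn s * dn t
  | .mul s t => dn s * dn t
  | .pow a _ => dn a * hP W a

/-- The numerator of the derivation. -/
noncomputable def dP : Tm → Lx W
  | .one => 0
  | .var w => h1 W (lr W (.var w)) * al W w
  | .add s t => dP s * dn W t + dn W s * dP t
  | .mul s t => dP s * hP W t * dn W t + hP W s * dn W s * dP t
  | .pow a b => (if Tr a b then h1 W (lr W (.pow a b)) else 1) * hP W a ^ cs b *
      ((if Tr a b then (rP W b - cs b) * (dP a + lcP W κ mu (e1 a) * dn W a * hP W a) else 0) +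
        cs b * dP a)

/-- The numerator of the logarithmic derivative. -/
noncomputable def phP : Tm → Lx W
  | .var w => al W w
  | .pow a b =>
    if Tr a b then (rP W b - cs b) * (dP W κ mu a + lcP W κ mu (e1 a) * dn W a * hP W a) else 0
  | _ => 0

/-- The bases of the powers outside of exponents. -/
def bases : Tm → Set Tm
  | .one => ∅
  | .var _ => ∅
  | .add s t => bases s ∪ bases t
  | .mul s t => bases s ∪ bases t
  | .pow a _ => insert a (bases a)

/-- The set contains the atoms of the bases and exponents of its powers. -/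
def ClA (A : Set Tm) : Prop := ∀ a b, Tm.pow a b ∈ A → ats a ⊆ A ∧ ats b ⊆ A

/-- The exponents given by a set of terms. -/
noncomputable def Sg (A : Set Tm) : AddSubmonoid (Gx W) := (VA W A).prod ((VA W A).prod ⊤)

variable {W κ mu} {K : Type} [CommRing K] {A : Set Tm} {f : Gx W → K} {P : Pr K}

private theorem Nu_h1 {v : Pt W → ℝ} (hv : v ∈ VA W A) : Su (Sg W A) (h1 W v) :=
  Su.single (AddSubmonoid.mem_prod.2
    ⟨hv, AddSubmonoid.mem_prod.2 ⟨(VA W A).zero_mem, AddSubmonoid.mem_top _⟩⟩) 1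

private theorem Nu_h2 {v : Pt W → ℝ} (hv : v ∈ VA W A) : Su (Sg W A) (h2 W v) :=
  Su.single (AddSubmonoid.mem_prod.2
    ⟨(VA W A).zero_mem, AddSubmonoid.mem_prod.2 ⟨hv, AddSubmonoid.mem_top _⟩⟩) 1

private theorem Nu_al (w : List Bool) : Su (Sg W A) (al W w) :=
  Su.single (AddSubmonoid.mem_prod.2
    ⟨(VA W A).zero_mem, AddSubmonoid.mem_prod.2
      ⟨(VA W A).zero_mem, AddSubmonoid.mem_top _⟩⟩) 1

private theorem Nu_ga (k : ℕ) : Su (Sg W A) (ga W k) :=
  Su.single (AddSubmonoid.mem_prod.2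
    ⟨(VA W A).zero_mem, AddSubmonoid.mem_prod.2
      ⟨(VA W A).zero_mem, AddSubmonoid.mem_top _⟩⟩) 1

private theorem Nu_lc (n : ℕ) : Su (Sg W A) (lcP W κ mu n) :=
  Su.sum _ _ fun k _ => Su.zsmul (Nu_ga k) _

section aux

variable {G : Type} [AddCommMonoid G] {S : AddSubmonoid G} {f₀ : G → K}
  {p q : AddMonoidAlgebra ℤ G}

private theorem Nu_supow (hp : Su S p) (n : ℕ) : Su S (p ^ n) := by
  induction n with
  | zero => rw [pow_zero]; exact Su.one
  | succ n ih => rw [pow_succ]; exact Su.mul ih hp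

private theorem Nu_cast (n : ℕ) : ((n : ℕ) : AddMonoidAlgebra ℤ G) = (n : ℤ) • 1 := by
  rw [zsmul_one, Int.cast_natCast]

private theorem Nu_sucast (n : ℕ) : Su S ((n : ℕ) : AddMonoidAlgebra ℤ G) := by
  rw [Nu_cast]
  exact Su.zsmul Su.one _

private theorem Nu_subeq (p q : AddMonoidAlgebra ℤ G) : p - q = p + (-1 : ℤ) • q := by
  rw [neg_one_zsmul, sub_eq_add_neg]

private theorem Nu_susub (hp : Su S p) (hq : Su S q) : Su S (p - q) := by
  rw [Nu_subeq]
  exact Su.add hp (Su.zsmul hq _)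

private theorem Nu_evpow (hf : Mo S f₀) (hp : Su S p) (n : ℕ) :
    evl f₀ (p ^ n) = evl f₀ p ^ n := by
  induction n with
  | zero => rw [pow_zero, pow_zero]; exact evl_one hf
  | succ n ih => rw [pow_succ, pow_succ, evl_mul hf (Nu_supow hp n) hp, ih]

private theorem Nu_evcast (hf : Mo S f₀) (n : ℕ) :
    evl f₀ ((n : ℕ) : AddMonoidAlgebra ℤ G) = (n : K) := by
  rw [Nu_cast, evl_zsmul, evl_one hf, mul_one, Int.cast_natCast]

private theorem Nu_evsub : evl f₀ (p - q) = evl f₀ p - evl f₀ q := by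
  rw [Nu_subeq, evl_add, evl_zsmul, Int.cast_neg, Int.cast_one]
  ring

end aux

private theorem Nu_pa {a b : Tm} (ht : ats (.pow a b) ⊆ A) : ats a ⊆ A :=
  fun _ hx => ht (Or.inr hx)

private theorem Nu_pt {a b : Tm} (ht : ats (.pow a b) ⊆ A) (h : Tr a b) : Tm.pow a b ∈ A :=
  ht (Or.inl ⟨rfl, h⟩)

private theorem Nu_hr {t : Tm} (ht : ats t ⊆ A) :
    Su (Sg W A) (hP W t) ∧ Su (Sg W A) (rP W t) := by
  induction t with
  | one => exact ⟨Su.one, Su.one⟩
  | var w =>
    have hw : Tm.var w ∈ A := ht (Set.mem_singleton _)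
    exact ⟨Nu_h1 (lr_mem_VA hw), Nu_h2 (lr_mem_VA hw)⟩
  | add s t hs ht' =>
    obtain ⟨a1, a2⟩ := hs (fun x hx => ht (Or.inl hx))
    obtain ⟨b1, b2⟩ := ht' (fun x hx => ht (Or.inr hx))
    exact ⟨Su.add a1 b1, Su.add a2 b2⟩
  | mul s t hs ht' =>
    obtain ⟨a1, a2⟩ := hs (fun x hx => ht (Or.inl hx))
    obtain ⟨b1, b2⟩ := ht' (fun x hx => ht (Or.inr hx))
    exact ⟨Su.mul a1 b1, Su.mul a2 b2⟩
  | pow s t hs _ =>
    obtain ⟨a1, a2⟩ := hs (Nu_pa ht)
    change Su (Sg W A) ((if Tr s t then h1 W (lr W (.pow s t)) else 1) * hP W s ^ cs t) ∧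
      Su (Sg W A) ((if Tr s t then h2 W (lr W (.pow s t)) else 1) * rP W s ^ cs t)
    by_cases h : Tr s t
    · rw [if_pos h, if_pos h]
      exact ⟨Su.mul (Nu_h1 (lr_mem_VA (Nu_pt ht h))) (Nu_supow a1 _),
        Su.mul (Nu_h2 (lr_mem_VA (Nu_pt ht h))) (Nu_supow a2 _)⟩
    · rw [if_neg h, if_neg h]
      exact ⟨Su.mul Su.one (Nu_supow a1 _), Su.mul Su.one (Nu_supow a2 _)⟩

private theorem Nu_dd (hA : ClA A) {t : Tm} (ht : ats t ⊆ A) :
    Su (Sg W A) (dn W t) ∧ Su (Sg W A) (dP W κ mu t) := by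
  induction t with
  | one => exact ⟨Su.one, Su.zero⟩
  | var w =>
    have hw : Tm.var w ∈ A := ht (Set.mem_singleton _)
    exact ⟨Su.one, Su.mul (Nu_h1 (lr_mem_VA hw)) (Nu_al w)⟩
  | add s t hs ht' =>
    obtain ⟨a1, a2⟩ := hs (fun x hx => ht (Or.inl hx))
    obtain ⟨b1, b2⟩ := ht' (fun x hx => ht (Or.inr hx))
    exact ⟨Su.mul a1 b1, Su.add (Su.mul a2 b1) (Su.mul a1 b2)⟩
  | mul s t hs ht' =>
    have cs : ats s ⊆ A := fun x hx => ht (Or.inl hx)
    have ct : ats t ⊆ A := fun x hx => ht (Or.inr hx)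
    obtain ⟨a1, a2⟩ := hs cs
    obtain ⟨b1, b2⟩ := ht' ct
    exact ⟨Su.mul a1 b1, Su.add (Su.mul (Su.mul a2 (Nu_hr ct).1) b1)
      (Su.mul (Su.mul (Nu_hr cs).1 a1) b2)⟩
  | pow a b ha _ =>
    have ca := Nu_pa ht
    obtain ⟨a1, a2⟩ := ha ca
    refine ⟨Su.mul a1 (Nu_hr ca).1, ?_⟩
    change Su (Sg W A) ((if Tr a b then h1 W (lr W (.pow a b)) else 1) * hP W a ^ cs b *
      ((if Tr a b then (rP W b - cs b) *
        (dP W κ mu a + lcP W κ mu (e1 a) * dn W a * hP W a) else 0) + cs b * dP W κ mu a))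
    by_cases h : Tr a b
    · have hw := Nu_pt ht h
      have cb := (hA a b hw).2
      rw [if_pos h, if_pos h]
      exact Su.mul (Su.mul (Nu_h1 (lr_mem_VA hw)) (Nu_supow (Nu_hr ca).1 _))
        (Su.add (Su.mul (Nu_susub (Nu_hr cb).2 (Nu_sucast _))
          (Su.add a2 (Su.mul (Su.mul (Nu_lc _) a1) (Nu_hr ca).1))) (Su.mul (Nu_sucast _) a2))
    · rw [if_neg h, if_neg h]
      exact Su.mul (Su.mul Su.one (Nu_supow (Nu_hr ca).1 _))
        (Su.add Su.zero (Su.mul (Nu_sucast _) a2))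

/-- The numerators are given by exponents in `Sg`. -/
theorem su_P (hA : ClA A) {t : Tm} (ht : ats t ⊆ A) : Su (Sg W A) (hP W t) ∧
    Su (Sg W A) (rP W t) ∧ Su (Sg W A) (dn W t) ∧ Su (Sg W A) (dP W κ mu t) := by
  exact ⟨(Nu_hr ht).1, (Nu_hr ht).2, (Nu_dd (κ := κ) (mu := mu) hA ht).1, (Nu_dd hA ht).2⟩

theorem su_ph (hA : ClA A) {a b : Tm} (ha : ats a ⊆ A) (hb : ats b ⊆ A) :
    Su (Sg W A) (phP W κ mu (.pow a b)) := by
  change Su (Sg W A) (if Tr a b then (rP W b - cs b) *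
    (dP W κ mu a + lcP W κ mu (e1 a) * dn W a * hP W a) else 0)
  split_ifs
  · exact Su.mul (Nu_susub (Nu_hr hb).2 (Nu_sucast _)) (Su.add (Nu_dd hA ha).2
      (Su.mul (Su.mul (Nu_lc _) (Nu_dd (κ := κ) (mu := mu) hA ha).1) (Nu_hr ha).1))
  · exact Su.zero

/-- The values fit to the parameters. -/
structure Fit (W : Finset (List Bool)) (κ : ℕ) (mu : ℕ → ℕ → ℕ) (A : Set Tm) (f : Gx W → K)
    (P : Pr K) : Prop where
  mo : Mo (Sg W A) f
  hf : ∀ a ∈ A, P.f a = f (lr W a, 0, 0)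
  hg : ∀ a ∈ A, P.g a = f (0, lr W a, 0)
  hα : ∀ w, P.α w = f (0, 0, Finsupp.single (Sum.inl w) 1)

private theorem Nu_one (g : Gx W) : evl f (AddMonoidAlgebra.single g 1) = f g := by
  rw [evl_single, Int.cast_one, one_mul]

theorem evl_hP (hF : Fit W κ mu A f P) {t : Tm} (ht : ats t ⊆ A) :
    evl f (hP W t) = av P.f t ∧ evl f (rP W t) = av P.g t := by
  induction t with
  | one => exact ⟨evl_one hF.mo, evl_one hF.mo⟩
  | var w =>
    have hw : Tm.var w ∈ A := ht (Set.mem_singleton _)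
    exact ⟨(Nu_one _).trans (hF.hf _ hw).symm, (Nu_one _).trans (hF.hg _ hw).symm⟩
  | add s t hs ht' =>
    obtain ⟨a1, a2⟩ := hs (fun x hx => ht (Or.inl hx))
    obtain ⟨b1, b2⟩ := ht' (fun x hx => ht (Or.inr hx))
    constructor
    · have h : evl f (hP W s + hP W t) = av P.f s + av P.f t := by rw [evl_add, a1, b1]
      exact h
    · have h : evl f (rP W s + rP W t) = av P.g s + av P.g t := by rw [evl_add, a2, b2]
      exact h
  | mul s t hs ht' =>
    have cs : ats s ⊆ A := fun x hx => ht (Or.inl hx)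
    have ct : ats t ⊆ A := fun x hx => ht (Or.inr hx)
    obtain ⟨a1, a2⟩ := hs cs
    obtain ⟨b1, b2⟩ := ht' ct
    constructor
    · have h : evl f (hP W s * hP W t) = av P.f s * av P.f t := by
        rw [evl_mul hF.mo (Nu_hr cs).1 (Nu_hr ct).1, a1, b1]
      exact h
    · have h : evl f (rP W s * rP W t) = av P.g s * av P.g t := by
        rw [evl_mul hF.mo (Nu_hr cs).2 (Nu_hr ct).2, a2, b2]
      exact h
  | pow s t hs _ =>
    have ca := Nu_pa ht
    obtain ⟨a1, a2⟩ := hs ca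
    change evl f ((if Tr s t then h1 W (lr W (.pow s t)) else 1) * hP W s ^ cs t) =
        (if Tr s t then P.f (.pow s t) else 1) * av P.f s ^ cs t ∧
      evl f ((if Tr s t then h2 W (lr W (.pow s t)) else 1) * rP W s ^ cs t) =
        (if Tr s t then P.g (.pow s t) else 1) * av P.g s ^ cs t
    by_cases h : Tr s t
    · have hw := Nu_pt ht h
      have e3 : evl f (h1 W (lr W (.pow s t))) = P.f (.pow s t) :=
        (Nu_one _).trans (hF.hf _ hw).symm
      have e4 : evl f (h2 W (lr W (.pow s t))) = P.g (.pow s t) :=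
        (Nu_one _).trans (hF.hg _ hw).symm
      rw [if_pos h, if_pos h, if_pos h, if_pos h]
      constructor
      · rw [evl_mul hF.mo (Nu_h1 (lr_mem_VA hw)) (Nu_supow (Nu_hr ca).1 _),
          Nu_evpow hF.mo (Nu_hr ca).1, a1, e3]
      · rw [evl_mul hF.mo (Nu_h2 (lr_mem_VA hw)) (Nu_supow (Nu_hr ca).2 _),
          Nu_evpow hF.mo (Nu_hr ca).2, a2, e4]
    · rw [if_neg h, if_neg h, if_neg h, if_neg h, one_mul, one_mul, one_mul, one_mul]
      exact ⟨by rw [Nu_evpow hF.mo (Nu_hr ca).1, a1], by rw [Nu_evpow hF.mo (Nu_hr ca).2, a2]⟩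

/-- The value of the logarithm of a number. -/
theorem evl_lcP (hF : Fit W κ mu A f P) (n : ℕ) : evl f (lcP W κ mu n) =
    ∑ k ∈ Finset.range κ, (mu k n : K) * f (0, 0, Finsupp.single (Sum.inr k) 1) := by
  unfold lcP
  rw [evl_sum]
  refine Finset.sum_congr rfl fun k _ => ?_
  rw [evl_zsmul, Int.cast_natCast]
  congr 1
  exact Nu_one _

/-- The value of the numerator of a base. -/
private theorem Nu_in (hA : ClA A) (hF : Fit W κ mu A f P) {a : Tm} (ha : ats a ⊆ A)
    (h1 : evl f (dP W κ mu a) = dl P a * evl f (dn W a))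
    (h2 : P.lc (e1 a) = ∑ k ∈ Finset.range κ, (mu k (e1 a) : K) *
        f (0, 0, Finsupp.single (Sum.inr k) 1)) :
    evl f (dP W κ mu a + lcP W κ mu (e1 a) * dn W a * hP W a) =
      (dl P a + P.lc (e1 a) * av P.f a) * evl f (dn W a) := by
  have s1 : Su (Sg W A) (dn W a) := (Nu_dd (κ := κ) (mu := mu) hA ha).1
  rw [evl_add, evl_mul hF.mo (Su.mul (Nu_lc _) s1) (Nu_hr ha).1, evl_mul hF.mo (Nu_lc _) s1, h1,
    evl_lcP hF, ← h2, (evl_hP hF ha).1]
  ring

private theorem Nu_su3 (hA : ClA A) {a : Tm} (ha : ats a ⊆ A) :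
    Su (Sg W A) (dP W κ mu a + lcP W κ mu (e1 a) * dn W a * hP W a) :=
  Su.add (Nu_dd hA ha).2
    (Su.mul (Su.mul (Nu_lc _) (Nu_dd (κ := κ) (mu := mu) hA ha).1) (Nu_hr ha).1)

/-- The value of the numerator of the logarithmic derivative. -/
private theorem Nu_ph (hA : ClA A) (hF : Fit W κ mu A f P) {a b : Tm} (ca : ats a ⊆ A)
    (cb : ats b ⊆ A) (a1 : evl f (dP W κ mu a) = dl P a * evl f (dn W a))
    (b1 : av P.f a * P.iv (av P.f a) = 1)
    (b2 : P.lc (e1 a) = ∑ k ∈ Finset.range κ, (mu k (e1 a) : K) *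
        f (0, 0, Finsupp.single (Sum.inr k) 1)) :
    evl f ((rP W b - cs b) * (dP W κ mu a + lcP W κ mu (e1 a) * dn W a * hP W a)) =
      ((av P.g b - cs b) * (dl P a * P.iv (av P.f a) + P.lc (e1 a))) *
        (evl f (dn W a) * av P.f a) := by
  rw [evl_mul hF.mo (Nu_susub (Nu_hr cb).2 (Nu_sucast _)) (Nu_su3 hA ca), Nu_in hA hF ca a1 b2,
    Nu_evsub, Nu_evcast hF.mo, (evl_hP hF cb).2]
  linear_combination (- ((av P.g b - cs b) * dl P a * evl f (dn W a))) * b1

/-- The values of the numerators. -/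
theorem evl_dP (hA : ClA A) (hF : Fit W κ mu A f P) {t : Tm} (ht : ats t ⊆ A)
    (hb : ∀ a ∈ bases t, av P.f a * P.iv (av P.f a) = 1 ∧
      P.lc (e1 a) = ∑ k ∈ Finset.range κ, (mu k (e1 a) : K) *
        f (0, 0, Finsupp.single (Sum.inr k) 1)) :
    evl f (dP W κ mu t) = dl P t * evl f (dn W t) := by
  induction t with
  | one =>
    have h : evl f (0 : Lx W) = 0 * evl f (1 : Lx W) := by rw [evl_zero, zero_mul]
    exact h
  | var w =>
    have hw : Tm.var w ∈ A := ht (Set.mem_singleton _)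
    have h : evl f (h1 W (lr W (.var w)) * al W w) =
        P.f (.var w) * P.α w * evl f (1 : Lx W) := by
      rw [evl_mul hF.mo (Nu_h1 (lr_mem_VA hw)) (Nu_al w), evl_one hF.mo, mul_one, hF.hf _ hw,
        hF.hα w]
      congr 1
      · exact Nu_one _
      · exact Nu_one _
    exact h
  | add s t hs ht' =>
    have cs : ats s ⊆ A := fun x hx => ht (Or.inl hx)
    have ct : ats t ⊆ A := fun x hx => ht (Or.inr hx)
    have a1 := hs cs (fun a ha => hb a (Or.inl ha))
    have b1 := ht' ct (fun a ha => hb a (Or.inr ha))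
    have s1 := Nu_dd (W := W) (κ := κ) (mu := mu) hA cs
    have t1 := Nu_dd (W := W) (κ := κ) (mu := mu) hA ct
    have h : evl f (dP W κ mu s * dn W t + dn W s * dP W κ mu t) =
        (dl P s + dl P t) * evl f (dn W s * dn W t) := by
      rw [evl_add, evl_mul hF.mo s1.2 t1.1, evl_mul hF.mo s1.1 t1.2, evl_mul hF.mo s1.1 t1.1,
        a1, b1]
      ring
    exact h
  | mul s t hs ht' =>
    have cs : ats s ⊆ A := fun x hx => ht (Or.inl hx)
    have ct : ats t ⊆ A := fun x hx => ht (Or.inr hx)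
    have a1 := hs cs (fun a ha => hb a (Or.inl ha))
    have b1 := ht' ct (fun a ha => hb a (Or.inr ha))
    have s1 := Nu_dd (W := W) (κ := κ) (mu := mu) hA cs
    have t1 := Nu_dd (W := W) (κ := κ) (mu := mu) hA ct
    have s2 := (Nu_hr (W := W) cs).1
    have t2 := (Nu_hr (W := W) ct).1
    have h : evl f (dP W κ mu s * hP W t * dn W t + hP W s * dn W s * dP W κ mu t) =
        (dl P s * av P.f t + av P.f s * dl P t) * evl f (dn W s * dn W t) := by
      rw [evl_add, evl_mul hF.mo (Su.mul s1.2 t2) t1.1, evl_mul hF.mo s1.2 t2,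
        evl_mul hF.mo (Su.mul s2 s1.1) t1.2, evl_mul hF.mo s2 s1.1, evl_mul hF.mo s1.1 t1.1,
        a1, b1, (evl_hP hF cs).1, (evl_hP hF ct).1]
      ring
    exact h
  | pow a b ha _ =>
    have ca := Nu_pa ht
    have a1 := ha ca (fun c hc => hb c (Or.inr hc))
    obtain ⟨b1, b2⟩ := hb a (Or.inl rfl)
    have s1 := Nu_dd (W := W) (κ := κ) (mu := mu) hA ca
    have s2 := (Nu_hr (W := W) ca).1
    have hx : (cs b : K) * (av P.f a ^ (cs b - 1) * av P.f a) = cs b * av P.f a ^ cs b := by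
      rcases Nat.eq_zero_or_pos (cs b) with h0 | h0
      · rw [h0, Nat.cast_zero, zero_mul, zero_mul]
      · rw [← pow_succ, Nat.sub_add_cancel h0]
    change evl f ((if Tr a b then h1 W (lr W (.pow a b)) else 1) * hP W a ^ cs b *
        ((if Tr a b then (rP W b - cs b) *
          (dP W κ mu a + lcP W κ mu (e1 a) * dn W a * hP W a) else 0) + cs b * dP W κ mu a)) =
      (if Tr a b then P.f (.pow a b) else 1) *
        ((if Tr a b then (av P.g b - cs b) * (dl P a * P.iv (av P.f a) + P.lc (e1 a)) else 0) *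
          av P.f a ^ cs b + cs b * av P.f a ^ (cs b - 1) * dl P a) * evl f (dn W a * hP W a)
    rw [evl_mul hF.mo s1.1 s2, (evl_hP hF ca).1]
    by_cases h : Tr a b
    · have hw := Nu_pt ht h
      have cb := (hA a b hw).2
      have e3 : evl f (h1 W (lr W (.pow a b))) = P.f (.pow a b) :=
        (Nu_one _).trans (hF.hf _ hw).symm
      have s3 : Su (Sg W A) ((rP W b - cs b) *
          (dP W κ mu a + lcP W κ mu (e1 a) * dn W a * hP W a)) :=
        Su.mul (Nu_susub (Nu_hr cb).2 (Nu_sucast _)) (Nu_su3 hA ca)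
      have s4 : Su (Sg W A) ((cs b : Lx W) * dP W κ mu a) := Su.mul (Nu_sucast _) s1.2
      rw [if_pos h, if_pos h, if_pos h, if_pos h,
        evl_mul hF.mo (Su.mul (Nu_h1 (lr_mem_VA hw)) (Nu_supow s2 _)) (Su.add s3 s4),
        evl_mul hF.mo (Nu_h1 (lr_mem_VA hw)) (Nu_supow s2 _), Nu_evpow hF.mo s2,
        evl_add, Nu_ph hA hF ca cb a1 b1 b2, evl_mul hF.mo (Nu_sucast _) s1.2,
        Nu_evcast hF.mo, a1, (evl_hP hF ca).1, e3]
      linear_combination (- (P.f (.pow a b) * dl P a * evl f (dn W a))) * hx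
    · have s4 : Su (Sg W A) ((cs b : Lx W) * dP W κ mu a) := Su.mul (Nu_sucast _) s1.2
      rw [if_neg h, if_neg h, if_neg h, if_neg h, zero_add, zero_mul, zero_add, one_mul, one_mul,
        evl_mul hF.mo (Nu_supow s2 _) s4, Nu_evpow hF.mo s2, evl_mul hF.mo (Nu_sucast _) s1.2,
        Nu_evcast hF.mo, a1, (evl_hP hF ca).1]
      linear_combination (- (dl P a * evl f (dn W a))) * hx

theorem evl_phP (hA : ClA A) (hF : Fit W κ mu A f P) {a b : Tm} (ha : ats a ⊆ A)
    (hb' : ats b ⊆ A) (hb : ∀ c ∈ bases (.pow a b), av P.f c * P.iv (av P.f c) = 1 ∧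
      P.lc (e1 c) = ∑ k ∈ Finset.range κ, (mu k (e1 c) : K) *
        f (0, 0, Finsupp.single (Sum.inr k) 1)) :
    evl f (phP W κ mu (.pow a b)) = ph P (.pow a b) * evl f (dn W (.pow a b)) := by
  have a1 := evl_dP hA hF ha (fun c hc => hb c (Or.inr hc))
  obtain ⟨b1, b2⟩ := hb a (Or.inl rfl)
  have s1 := Nu_dd (W := W) (κ := κ) (mu := mu) hA ha
  change evl f (if Tr a b then (rP W b - cs b) *
      (dP W κ mu a + lcP W κ mu (e1 a) * dn W a * hP W a) else 0) =
    (if Tr a b then (av P.g b - cs b) * (dl P a * P.iv (av P.f a) + P.lc (e1 a)) else 0) *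
      evl f (dn W a * hP W a)
  rw [evl_mul hF.mo s1.1 (Nu_hr ha).1, (evl_hP hF ha).1]
  by_cases h : Tr a b
  · rw [if_pos h, if_pos h, Nu_ph hA hF ha hb' a1 b1 b2]
  · rw [if_neg h, if_neg h, evl_zero, zero_mul]

/-- The denominator is not zero if the values of the bases are units. -/
theorem dn_unit (hA : ClA A) (hF : Fit W κ mu A f P) {t : Tm} (ht : ats t ⊆ A)
    (hb : ∀ a ∈ bases t, IsUnit (av P.f a)) : IsUnit (evl f (dn W t)) := by
  induction t with
  | one =>
    have h : evl f (1 : Lx W) = 1 := evl_one hF.mo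
    change IsUnit (evl f (1 : Lx W))
    rw [h]
    exact isUnit_one
  | var w =>
    have h : evl f (1 : Lx W) = 1 := evl_one hF.mo
    change IsUnit (evl f (1 : Lx W))
    rw [h]
    exact isUnit_one
  | add s t hs ht' =>
    have cs : ats s ⊆ A := fun x hx => ht (Or.inl hx)
    have ct : ats t ⊆ A := fun x hx => ht (Or.inr hx)
    change IsUnit (evl f (dn W s * dn W t))
    rw [evl_mul hF.mo (Nu_dd (κ := κ) (mu := mu) hA cs).1 (Nu_dd (κ := κ) (mu := mu) hA ct).1]
    exact (hs cs (fun a ha => hb a (Or.inl ha))).mul (ht' ct (fun a ha => hb a (Or.inr ha)))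
  | mul s t hs ht' =>
    have cs : ats s ⊆ A := fun x hx => ht (Or.inl hx)
    have ct : ats t ⊆ A := fun x hx => ht (Or.inr hx)
    change IsUnit (evl f (dn W s * dn W t))
    rw [evl_mul hF.mo (Nu_dd (κ := κ) (mu := mu) hA cs).1 (Nu_dd (κ := κ) (mu := mu) hA ct).1]
    exact (hs cs (fun a ha => hb a (Or.inl ha))).mul (ht' ct (fun a ha => hb a (Or.inr ha)))
  | pow a b ha _ =>
    have ca := Nu_pa ht
    change IsUnit (evl f (dn W a * hP W a))
    rw [evl_mul hF.mo (Nu_dd (κ := κ) (mu := mu) hA ca).1 (Nu_hr ca).1, (evl_hP hF ca).1]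
    exact (ha ca (fun c hc => hb c (Or.inr hc))).mul (hb a (Or.inl rfl))

/-- If the value of the denominator is not zero, then the values of the bases are not zero. -/
theorem bases_ne (hA : ClA A) (hF : Fit W κ mu A f P) {t : Tm} (ht : ats t ⊆ A)
    (h : evl f (dn W t) ≠ 0) : ∀ a ∈ bases t, av P.f a ≠ 0 := by
  induction t with
  | one => exact fun a ha => absurd ha (Set.notMem_empty a)
  | var w => exact fun a ha => absurd ha (Set.notMem_empty a)
  | add s t hs ht' =>
    have cs : ats s ⊆ A := fun x hx => ht (Or.inl hx)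
    have ct : ats t ⊆ A := fun x hx => ht (Or.inr hx)
    change evl f (dn W s * dn W t) ≠ 0 at h
    rw [evl_mul hF.mo (Nu_dd (κ := κ) (mu := mu) hA cs).1
      (Nu_dd (κ := κ) (mu := mu) hA ct).1] at h
    rintro a (ha | ha)
    · exact hs cs (left_ne_zero_of_mul h) a ha
    · exact ht' ct (right_ne_zero_of_mul h) a ha
  | mul s t hs ht' =>
    have cs : ats s ⊆ A := fun x hx => ht (Or.inl hx)
    have ct : ats t ⊆ A := fun x hx => ht (Or.inr hx)
    change evl f (dn W s * dn W t) ≠ 0 at h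
    rw [evl_mul hF.mo (Nu_dd (κ := κ) (mu := mu) hA cs).1
      (Nu_dd (κ := κ) (mu := mu) hA ct).1] at h
    rintro a (ha | ha)
    · exact hs cs (left_ne_zero_of_mul h) a ha
    · exact ht' ct (right_ne_zero_of_mul h) a ha
  | pow a b ha _ =>
    have ca := Nu_pa ht
    change evl f (dn W a * hP W a) ≠ 0 at h
    rw [evl_mul hF.mo (Nu_dd (κ := κ) (mu := mu) hA ca).1 (Nu_hr ca).1, (evl_hP hF ca).1] at h
    rintro c (rfl | hc)
    · exact right_ne_zero_of_mul h
    · exact ha ca (left_ne_zero_of_mul h) c hc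

end Pool.Agent.TD
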