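import Pool.Agent.H.MP_b2d7dd_lc.TD.Fnc
import Pool.Agent.H.MP_b2d7dd_lc.TI.MachP
import Pool.Agent.H.MP_b2d7dd_lc.TW.Nxt
import Pool.Agent.H.MP_b2d7dd_lc.TW.NxtP

/-!
# Module Wt: recognition of the pairs of terms of small weight

Compare TN/Shp. The state: a stack of the data `(big, cst, cs, lg, wt)` of the terms (numbers as bit
lists modulo `bval M + 2`, where `bval M = 2 ^ (3 * n + 6)`) and ok (all weights are at most `n`). As long
as ok is true all the numbers are exact: `cs t ≤ 2 ^ lg t`, `lg t ≤ wt t ≤ n`; for a new power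
`cs t * lg s < 2 ^ (2 * n + 1)` is exact, and if its weight is at most `n`, then
`cs s ^ cs t ≤ 2 ^ (cs t * lg s) ≤ 2 ^ n` is exact, too.
-/

namespace Pool.Agent.TD

open Pool.Agent.TI Pool.Agent.H.MP_5be563_lc.PT
open Pool.Agent.TW (pow2 md rad rmu)

variable {α : Type} [Enc α]

/-- The data of a term. -/
abbrev Wd : Type := (Bool × Bool) × (List Bool × List Bool × List Bool)

/-- The data of `1`. -/
def wd0 : Wd := ((false, true), ([true], [], [true]))

/-- The modulus for the numbers. -/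
def Mw (n : ℕ) : List Bool := pow2 (3 * n + 6)

/-- The bits of the number `n`. -/
def nb (n : ℕ) : List Bool := (fun l => btrim (badd l [true]))^[n] []

/-- The data of a sum. -/
def wadd (n : ℕ) (a b : Wd) : Wd :=
  ((true, a.1.2 && b.1.2), (rad (Mw n) a.2.1 b.2.1, rad (Mw n) (rad (Mw n) a.2.2.1 b.2.2.1) [true],
    rad (Mw n) (rad (Mw n) a.2.2.2 b.2.2.2) [true]))

/-- The data of a product. -/
def wmul (n : ℕ) (a b : Wd) : Wd :=
  ((a.1.1 || b.1.1, a.1.2 && b.1.2), (rmu (Mw n) a.2.1 b.2.1, rad (Mw n) a.2.2.1 b.2.2.1,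
    rad (Mw n) (rad (Mw n) a.2.2.2 b.2.2.2) [true]))

/-- The data of a power. -/
def wpow (n : ℕ) (a b : Wd) : Wd :=
  ((a.1.1, (a.1.2 && b.1.2) || !a.1.1),
    (bif b.1.2 || !a.1.1 then bpw a.2.1 b.2.1 (md (Mw n)) else [],
      rmu (Mw n) b.2.1 a.2.2.1,
      rad (Mw n) (rad (Mw n) (rad (Mw n) a.2.2.2 b.2.2.2) [true]) (rmu (Mw n) b.2.1 a.2.2.1)))

/-- The data of the next term. -/
def wnew (n : ℕ) (q : Tok) (s : List Wd) : Wd :=
  bif decide (q.1 = 0) then wd0
  else bif decide (q.1 = 4) then ((true, false), ([], [], [true]))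
  else bif decide (q.1 = 1) then wadd n (s.headD wd0) (s.tail.headD wd0)
  else bif decide (q.1 = 2) then wmul n (s.headD wd0) (s.tail.headD wd0)
  else wpow n (s.headD wd0) (s.tail.headD wd0)

/-- One step. -/
def wStep (n : ℕ) (q : Tok) (s : List Wd × Bool) : List Wd × Bool :=
  bif decide (q.1 = 0) || decide (q.1 = 4) then
    (wnew n q s.1 :: s.1, s.2 && ble (wnew n q s.1).2.2.2 (nb n))
  else (wnew n q s.1 :: s.1.tail.tail,
    s.2 && decide (2 ≤ s.1.length) && ble (wnew n q s.1).2.2.2 (nb n))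

/-- The tokens are the tokens of two terms, the sum of their weights is at most `n`. -/
def shapeW (n : ℕ) (T : List Tok) : Bool :=
  (T.foldr (wStep n) ([], true)).2 &&
    decide ((T.foldr (wStep n) ([], true)).1.length = 2) &&
      ble (badd ((T.foldr (wStep n) ([], true)).1.headD wd0).2.2.2
        ((T.foldr (wStep n) ([], true)).1.tail.headD wd0).2.2.2) (nb n)

private theorem Wt_nb_succ (n : ℕ) : nb (n + 1) = btrim (badd (nb n) [true]) := by
  unfold nb
  rw [Function.iterate_succ_apply']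

theorem bval_nb (n : ℕ) : bval (nb n) = n := by
  induction n with
  | zero => rfl
  | succ n ih =>
    have h1 : bval [true] = 1 := rfl
    rw [Wt_nb_succ, bval_btrim, bval_badd, ih, h1]

private theorem Wt_nb_length (n : ℕ) : (nb n).length ≤ n := by
  cases n with
  | zero => exact le_rfl
  | succ n =>
    have h1 := bval_nb (n + 1)
    rw [Wt_nb_succ] at h1 ⊢
    rw [bval_btrim] at h1
    refine length_btrim_le ?_
    rw [h1]
    exact Nat.lt_two_pow_self

/-- The data `d` is the data of the term `t`. -/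
private def Wt_D (d : Wd) (t : Tm) : Prop :=
  d.1 = (big t, cst t) ∧ bval d.2.1 = cs t ∧ bval d.2.2.1 = lg t ∧ bval d.2.2.2 = wt t

private theorem Wt_bval_Mw (n : ℕ) : bval (Mw n) = 2 ^ (3 * n + 6) := Pool.Agent.TW.bval_pow2 _

private theorem Wt_one : bval [true] = 1 := rfl

private theorem Wt_rad {n : ℕ} {x y : List Bool} (h : bval x + bval y < 2 ^ (3 * n + 6)) :
    bval (rad (Mw n) x y) = bval x + bval y := by
  rw [rad, Pool.Agent.TW.bval_bmod_md, bval_badd, Wt_bval_Mw]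
  exact Nat.mod_eq_of_lt (by omega)

private theorem Wt_rmu {n : ℕ} {x y : List Bool} (h : bval x * bval y < 2 ^ (3 * n + 6)) :
    bval (rmu (Mw n) x y) = bval x * bval y := by
  rw [rmu, Pool.Agent.TW.bval_bmod_md, bval_bmul, Wt_bval_Mw]
  exact Nat.mod_eq_of_lt (by omega)

private theorem Wt_bpw {n : ℕ} {x y : List Bool} (h : bval x ^ bval y < 2 ^ (3 * n + 6)) :
    bval (bpw x y (md (Mw n))) = bval x ^ bval y := by
  rw [bval_bpw, Pool.Agent.TW.bval_md, Wt_bval_Mw]
  exact Nat.mod_eq_of_lt (by omega)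

private theorem Wt_pw (n : ℕ) : n < 2 ^ n ∧ 2 ^ n ≤ 2 ^ n * 2 ^ n ∧
    64 * (2 ^ n * 2 ^ n) ≤ 2 ^ (3 * n + 6) := by
  have h0 : 0 < 2 ^ n := Nat.two_pow_pos n
  refine ⟨Nat.lt_two_pow_self, Nat.le_mul_of_pos_left _ h0, ?_⟩
  have h1 : 2 ^ (3 * n + 6) = 64 * (2 ^ n * 2 ^ n) * 2 ^ n := by
    rw [show 3 * n + 6 = n + n + n + 6 by omega, pow_add, pow_add, pow_add]
    norm_num
    ring
  rw [h1]
  exact Nat.le_mul_of_pos_right _ h0

private theorem Wt_cs {n : ℕ} {t : Tm} (h : wt t ≤ n) : cs t ≤ 2 ^ n :=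
  (cs_le t).trans (Nat.pow_le_pow_right (by norm_num) ((lg_le t).trans h))

private theorem Wt_add {n : ℕ} {a b : Wd} {s t : Tm} (ha : Wt_D a s) (hb : Wt_D b t)
    (hs : wt s ≤ n) (ht : wt t ≤ n) : Wt_D (wadd n a b) (.add s t) := by
  obtain ⟨a1, a2, a3, a4⟩ := ha
  obtain ⟨b1, b2, b3, b4⟩ := hb
  obtain ⟨p1, p2, p3⟩ := Wt_pw n
  have hls := (lg_le s).trans hs
  have hlt := (lg_le t).trans ht
  have hcs := Wt_cs hs
  have hct := Wt_cs ht
  have d1 : (wadd n a b).1 = (true, a.1.2 && b.1.2) := by simp only [wadd]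
  have d2 : (wadd n a b).2.1 = rad (Mw n) a.2.1 b.2.1 := by simp only [wadd]
  have d3 : (wadd n a b).2.2.1 = rad (Mw n) (rad (Mw n) a.2.2.1 b.2.2.1) [true] := by
    simp only [wadd]
  have d4 : (wadd n a b).2.2.2 = rad (Mw n) (rad (Mw n) a.2.2.2 b.2.2.2) [true] := by
    simp only [wadd]
  have w1 : wt (.add s t) = wt s + wt t + 1 := by simp only [wt]
  have w2 : lg (.add s t) = lg s + lg t + 1 := by simp only [lg]
  have w3 : cs (.add s t) = cs s + cs t := by simp only [cs]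
  have w4 : cst (.add s t) = (cst s && cst t) := by simp only [cst]
  have w5 : big (.add s t) = true := by simp only [big]
  refine ⟨?_, ?_, ?_, ?_⟩
  · rw [d1, w4, w5, a1, b1]
  · rw [d2, w3, Wt_rad (by rw [a2, b2]; omega), a2, b2]
  · have e2 : bval (rad (Mw n) a.2.2.1 b.2.2.1) = lg s + lg t := by
      rw [Wt_rad (by rw [a3, b3]; omega), a3, b3]
    rw [d3, w2, Wt_rad (by rw [e2, Wt_one]; omega), e2, Wt_one]
  · have e2 : bval (rad (Mw n) a.2.2.2 b.2.2.2) = wt s + wt t := by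
      rw [Wt_rad (by rw [a4, b4]; omega), a4, b4]
    rw [d4, w1, Wt_rad (by rw [e2, Wt_one]; omega), e2, Wt_one]

private theorem Wt_mul {n : ℕ} {a b : Wd} {s t : Tm} (ha : Wt_D a s) (hb : Wt_D b t)
    (hs : wt s ≤ n) (ht : wt t ≤ n) : Wt_D (wmul n a b) (.mul s t) := by
  obtain ⟨a1, a2, a3, a4⟩ := ha
  obtain ⟨b1, b2, b3, b4⟩ := hb
  obtain ⟨p1, p2, p3⟩ := Wt_pw n
  have hls := (lg_le s).trans hs
  have hlt := (lg_le t).trans ht
  have hm : cs s * cs t ≤ 2 ^ n * 2 ^ n := Nat.mul_le_mul (Wt_cs hs) (Wt_cs ht)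
  have d1 : (wmul n a b).1 = (a.1.1 || b.1.1, a.1.2 && b.1.2) := by simp only [wmul]
  have d2 : (wmul n a b).2.1 = rmu (Mw n) a.2.1 b.2.1 := by simp only [wmul]
  have d3 : (wmul n a b).2.2.1 = rad (Mw n) a.2.2.1 b.2.2.1 := by simp only [wmul]
  have d4 : (wmul n a b).2.2.2 = rad (Mw n) (rad (Mw n) a.2.2.2 b.2.2.2) [true] := by
    simp only [wmul]
  have w1 : wt (.mul s t) = wt s + wt t + 1 := by simp only [wt]
  have w2 : lg (.mul s t) = lg s + lg t := by simp only [lg]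
  have w3 : cs (.mul s t) = cs s * cs t := by simp only [cs]
  have w4 : cst (.mul s t) = (cst s && cst t) := by simp only [cst]
  have w5 : big (.mul s t) = (big s || big t) := by simp only [big]
  refine ⟨?_, ?_, ?_, ?_⟩
  · rw [d1, w4, w5, a1, b1]
  · rw [d2, w3, Wt_rmu (by rw [a2, b2]; omega), a2, b2]
  · rw [d3, w2, Wt_rad (by rw [a3, b3]; omega), a3, b3]
  · have e2 : bval (rad (Mw n) a.2.2.2 b.2.2.2) = wt s + wt t := by
      rw [Wt_rad (by rw [a4, b4]; omega), a4, b4]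
    rw [d4, w1, Wt_rad (by rw [e2, Wt_one]; omega), e2, Wt_one]

private theorem Wt_pow {n : ℕ} {a b : Wd} {s t : Tm} (ha : Wt_D a s) (hb : Wt_D b t)
    (hs : wt s ≤ n) (ht : wt t ≤ n) :
    bval (wpow n a b).2.2.2 = wt (.pow s t) ∧
      (wt (.pow s t) ≤ n → Wt_D (wpow n a b) (.pow s t)) := by
  obtain ⟨a1, a2, a3, a4⟩ := ha
  obtain ⟨b1, b2, b3, b4⟩ := hb
  obtain ⟨p1, p2, p3⟩ := Wt_pw n
  have hls := (lg_le s).trans hs
  have hct := Wt_cs ht
  have hm : cs t * lg s ≤ 2 ^ n * 2 ^ n := Nat.mul_le_mul hct (hls.trans p1.le)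
  have e1 : bval (rmu (Mw n) b.2.1 a.2.2.1) = cs t * lg s := by
    rw [Wt_rmu (by rw [b2, a3]; omega), b2, a3]
  have e2 : bval (rad (Mw n) a.2.2.2 b.2.2.2) = wt s + wt t := by
    rw [Wt_rad (by rw [a4, b4]; omega), a4, b4]
  have e3 : bval (rad (Mw n) (rad (Mw n) a.2.2.2 b.2.2.2) [true]) = wt s + wt t + 1 := by
    rw [Wt_rad (by rw [e2, Wt_one]; omega), e2, Wt_one]
  have d1 : (wpow n a b).1 = (a.1.1, (a.1.2 && b.1.2) || !a.1.1) := by simp only [wpow]
  have d2 : (wpow n a b).2.1 = bif b.1.2 || !a.1.1 then bpw a.2.1 b.2.1 (md (Mw n)) else [] := by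
    simp only [wpow]
  have d3 : (wpow n a b).2.2.1 = rmu (Mw n) b.2.1 a.2.2.1 := by simp only [wpow]
  have d4 : (wpow n a b).2.2.2 = rad (Mw n) (rad (Mw n) (rad (Mw n) a.2.2.2 b.2.2.2) [true])
      (rmu (Mw n) b.2.1 a.2.2.1) := by simp only [wpow]
  have w1 : wt (.pow s t) = wt s + wt t + 1 + cs t * lg s := by simp only [wt]
  have w2 : lg (.pow s t) = cs t * lg s := by simp only [lg]
  have w3 : cs (.pow s t) = if (cst t || !big s) = true then cs s ^ cs t else 0 := by
    simp only [cs]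
  have w4 : cst (.pow s t) = ((cst s && cst t) || !big s) := by simp only [cst]
  have w5 : big (.pow s t) = big s := by simp only [big]
  have e4 : bval (wpow n a b).2.2.2 = wt (.pow s t) := by
    rw [d4, w1, Wt_rad (by rw [e3, e1]; omega), e3, e1]
  refine ⟨e4, fun h => ⟨?_, ?_, ?_, e4⟩⟩
  · rw [d1, w4, w5, a1, b1]
  · have h5 : cs s ^ cs t ≤ 2 ^ n := by
      have h6 : cs t * lg s ≤ n := by omega
      calc cs s ^ cs t ≤ (2 ^ lg s) ^ cs t := Nat.pow_le_pow_left (cs_le s) _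
        _ = 2 ^ (cs t * lg s) := by rw [← pow_mul, mul_comm]
        _ ≤ 2 ^ n := Nat.pow_le_pow_right (by norm_num) h6
    have h8 : (b.1.2 || !a.1.1) = (cst t || !big s) := by rw [a1, b1]
    rw [d2, w3, h8]
    by_cases h7 : (cst t || !big s) = true
    · rw [if_pos h7, h7, cond_true, Wt_bpw (by rw [a2, b2]; omega), a2, b2]
    · rw [if_neg h7]
      have h9 : (cst t || !big s) = false := by simpa using h7
      rw [h9, cond_false, bval_nil]
  · rw [d3, e1, w2]

/-- The term of an operation. -/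
private def Wt_mk (k : ℕ) (s t : Tm) : Tm :=
  if k = 1 then .add s t else if k = 2 then .mul s t else .pow s t

private theorem Wt_mk_toks {k : ℕ} (h0 : k ≠ 0) (h4 : k < 4) (x y : Tm) :
    (Wt_mk k x y).toks = (k, []) :: (x.toks ++ y.toks) := by
  rcases (by omega : k = 1 ∨ k = 2 ∨ k = 3) with rfl | rfl | rfl <;> rfl

private theorem Wt_node {n k : ℕ} {w : List Bool} {a b : Wd} {r : List Wd} {s t : Tm}
    (h0 : k ≠ 0) (h4 : k ≠ 4) (ha : Wt_D a s) (hb : Wt_D b t) (hs : wt s ≤ n) (ht : wt t ≤ n) :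
    bval (wnew n (k, w) (a :: b :: r)).2.2.2 = wt (Wt_mk k s t) ∧
      (wt (Wt_mk k s t) ≤ n → Wt_D (wnew n (k, w) (a :: b :: r)) (Wt_mk k s t)) := by
  by_cases h1 : k = 1
  · subst h1
    have e1 : wnew n (1, w) (a :: b :: r) = wadd n a b := by simp [wnew]
    have e2 : Wt_mk 1 s t = .add s t := rfl
    have h := Wt_add ha hb hs ht
    rw [e1, e2]
    exact ⟨h.2.2.2, fun _ => h⟩
  by_cases h2 : k = 2
  · subst h2
    have e1 : wnew n (2, w) (a :: b :: r) = wmul n a b := by simp [wnew]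
    have e2 : Wt_mk 2 s t = .mul s t := rfl
    have h := Wt_mul ha hb hs ht
    rw [e1, e2]
    exact ⟨h.2.2.2, fun _ => h⟩
  have e1 : wnew n (k, w) (a :: b :: r) = wpow n a b := by simp [wnew, h0, h1, h2, h4]
  have e2 : Wt_mk k s t = .pow s t := by simp [Wt_mk, h1, h2]
  rw [e1, e2]
  exact Wt_pow ha hb hs ht

private theorem Wt_leaf {n k : ℕ} (h : k = 0 ∨ k = 4) (w : List Bool) (s : List Wd × Bool) :
    wStep n (k, w) s = (wnew n (k, w) s.1 :: s.1,
      s.2 && ble (wnew n (k, w) s.1).2.2.2 (nb n)) := by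
  rcases h with rfl | rfl <;> simp [wStep]

private theorem Wt_op {n k : ℕ} (h0 : k ≠ 0) (h4 : k ≠ 4) (w : List Bool) (s : List Wd × Bool) :
    wStep n (k, w) s = (wnew n (k, w) s.1 :: s.1.tail.tail,
      s.2 && decide (2 ≤ s.1.length) && ble (wnew n (k, w) s.1).2.2.2 (nb n)) := by
  simp [wStep, h0, h4]

private theorem Wt_new0 (n : ℕ) (w : List Bool) (s : List Wd) : wnew n (0, w) s = wd0 := by
  simp [wnew]

private theorem Wt_new4 (n : ℕ) (w : List Bool) (s : List Wd) :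
    wnew n (4, w) s = ((true, false), ([], [], [true])) := by
  simp [wnew]

private theorem Wt_D0 : Wt_D wd0 .one := ⟨rfl, rfl, rfl, rfl⟩

private theorem Wt_D4 (w : List Bool) : Wt_D ((true, false), ([], [], [true])) (.var w) :=
  ⟨rfl, rfl, rfl, rfl⟩

private theorem Wt_run {n k : ℕ} {x y : Tm} (h0 : k ≠ 0) (h4 : k ≠ 4) (hx : wt x ≤ n)
    (hy : wt y ≤ n) (hxy : wt (Wt_mk k x y) ≤ n)
    (ihx : ∀ (s : List Wd) (b : Bool), ∃ d, Wt_D d x ∧ x.toks.foldr (wStep n) (s, b) = (d :: s, b))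
    (ihy : ∀ (s : List Wd) (b : Bool), ∃ d, Wt_D d y ∧ y.toks.foldr (wStep n) (s, b) = (d :: s, b))
    (s : List Wd) (b : Bool) :
    ∃ d, Wt_D d (Wt_mk k x y) ∧
      ((k, []) :: (x.toks ++ y.toks)).foldr (wStep n) (s, b) = (d :: s, b) := by
  obtain ⟨dy, hdy, ey⟩ := ihy s b
  obtain ⟨dx, hdx, ex⟩ := ihx (dy :: s) b
  obtain ⟨h1, h2⟩ := Wt_node (w := []) (r := s) h0 h4 hdx hdy hx hy
  refine ⟨_, h2 hxy, ?_⟩
  rw [List.foldr_cons, List.foldr_append, ey, ex, Wt_op h0 h4]
  have h3 : ble (wnew n (k, []) (dx :: dy :: s)).2.2.2 (nb n) = true :=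
    (ble_iff _ _).2 (by rw [h1, bval_nb]; exact hxy)
  simp only [List.tail_cons, List.length_cons, h3, Bool.and_true]
  simp

/-- The run on the tokens of a term. -/
private theorem Wt_toks {n : ℕ} {t : Tm} (ht : wt t ≤ n) (s : List Wd) (b : Bool) :
    ∃ d, Wt_D d t ∧ t.toks.foldr (wStep n) (s, b) = (d :: s, b) := by
  induction t generalizing s b with
  | one =>
    refine ⟨wd0, Wt_D0, ?_⟩
    have h3 : ble wd0.2.2.2 (nb n) = true := (ble_iff _ _).2 (by rw [bval_nb]; exact ht)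
    show wStep n (0, []) (s, b) = _
    rw [Wt_leaf (Or.inl rfl), Wt_new0, h3, Bool.and_true]
  | var w =>
    refine ⟨_, Wt_D4 w, ?_⟩
    have h3 : ble [true] (nb n) = true := (ble_iff _ _).2 (by rw [bval_nb]; exact ht)
    show wStep n (4, w) (s, b) = _
    rw [Wt_leaf (Or.inr rfl), Wt_new4]
    show (_ , b && ble [true] (nb n)) = _
    rw [h3, Bool.and_true]
  | add x y ihx ihy =>
    have h1 : wt x + wt y + 1 ≤ n := ht
    exact Wt_run (k := 1) (by norm_num) (by norm_num) (by omega) (by omega) ht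
      (fun s b => ihx (by omega) s b) (fun s b => ihy (by omega) s b) s b
  | mul x y ihx ihy =>
    have h1 : wt x + wt y + 1 ≤ n := ht
    exact Wt_run (k := 2) (by norm_num) (by norm_num) (by omega) (by omega) ht
      (fun s b => ihx (by omega) s b) (fun s b => ihy (by omega) s b) s b
  | pow x y ihx ihy =>
    have h1 : wt x + wt y + 1 + cs y * lg x ≤ n := ht
    exact Wt_run (k := 3) (by norm_num) (by norm_num) (by omega) (by omega) ht
      (fun s b => ihx (by omega) s b) (fun s b => ihy (by omega) s b) s b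

private def Wt_F (n : ℕ) (T : List Tok) : List Wd × Bool := T.foldr (wStep n) ([], true)

private theorem Wt_cons (n : ℕ) (q : Tok) (T : List Tok) :
    Wt_F n (q :: T) = wStep n q (Wt_F n T) := rfl

private theorem Wt_forw {n : ℕ} {T : List Tok} (hT : ∀ q ∈ T, Can q)
    (hok : (Wt_F n T).2 = true) :
    ∃ l : List Tm, (∀ t ∈ l, wt t ≤ n) ∧ T = l.flatMap Tm.toks ∧
      List.Forall₂ Wt_D (Wt_F n T).1 l := by
  induction T with
  | nil => exact ⟨[], by simp, rfl, List.Forall₂.nil⟩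
  | cons q T ih =>
    obtain ⟨k, w⟩ := q
    have hq := hT _ List.mem_cons_self
    have hT' : ∀ q ∈ T, Can q := fun q hq => hT q (List.mem_cons_of_mem _ hq)
    obtain ⟨hk4, hw⟩ := hq
    simp only at hk4 hw
    rw [Wt_cons] at hok ⊢
    by_cases h0 : k = 0
    · subst h0
      rw [Wt_leaf (Or.inl rfl), Wt_new0] at hok ⊢
      simp only [Bool.and_eq_true, ble_iff, bval_nb] at hok
      obtain ⟨l, hl, h1, h2⟩ := ih hT' hok.1
      rw [hw (by norm_num)]
      refine ⟨.one :: l, ?_, by simp [Tm.toks, ← h1], List.Forall₂.cons Wt_D0 h2⟩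
      intro t ht
      rcases List.mem_cons.1 ht with rfl | ht
      · exact hok.2
      · exact hl t ht
    by_cases h4 : k = 4
    · subst h4
      rw [Wt_leaf (Or.inr rfl), Wt_new4] at hok ⊢
      simp only [Bool.and_eq_true, ble_iff, bval_nb] at hok
      obtain ⟨l, hl, h1, h2⟩ := ih hT' hok.1
      refine ⟨.var w :: l, ?_, by simp [Tm.toks, ← h1], List.Forall₂.cons (Wt_D4 w) h2⟩
      intro t ht
      rcases List.mem_cons.1 ht with rfl | ht
      · exact hok.2
      · exact hl t ht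
    rw [Wt_op h0 h4] at hok ⊢
    simp only [Bool.and_eq_true, decide_eq_true_eq, ble_iff, bval_nb] at hok
    obtain ⟨⟨h5, h6⟩, h7⟩ := hok
    obtain ⟨l, hl, h8, h9⟩ := ih hT' h5
    rw [hw (by omega)]
    rw [hw (by omega)] at h7
    generalize hF : (Wt_F n T).1 = F at h6 h7 h9 ⊢
    match F, l, h9, hl, h8, h6, h7 with
    | a :: b :: r, x :: y :: l, h9, hl, h8, _, h7 =>
      obtain ⟨hax, h9⟩ := List.forall₂_cons.1 h9
      obtain ⟨hby, h9⟩ := List.forall₂_cons.1 h9
      have hx : wt x ≤ n := hl x (by simp)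
      have hy : wt y ≤ n := hl y (by simp)
      obtain ⟨h10, h11⟩ := Wt_node (w := []) (r := r) h0 h4 hax hby hx hy
      rw [h10] at h7
      refine ⟨Wt_mk k x y :: l, ?_, ?_, List.Forall₂.cons (h11 h7) h9⟩
      · intro t ht
        rcases List.mem_cons.1 ht with rfl | ht
        · exact h7
        · exact hl t (by simp [ht])
      · rw [List.flatMap_cons, Wt_mk_toks h0 (by omega), h8]
        simp

theorem shapeW_iff {n : ℕ} {T : List Tok} (hT : ∀ q ∈ T, Can q) :
    shapeW n T = true ↔ ∃ s t : Tm, wt s + wt t ≤ n ∧ T = s.toks ++ t.toks := by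
  have hsh : shapeW n T = ((Wt_F n T).2 && decide ((Wt_F n T).1.length = 2) &&
      ble (badd ((Wt_F n T).1.headD wd0).2.2.2 ((Wt_F n T).1.tail.headD wd0).2.2.2) (nb n)) := rfl
  rw [hsh, Bool.and_eq_true, Bool.and_eq_true, decide_eq_true_eq, ble_iff, bval_badd, bval_nb]
  constructor
  · rintro ⟨⟨h1, h2⟩, h3⟩
    obtain ⟨l, hl, h4, h5⟩ := Wt_forw hT h1
    obtain ⟨a, b, h6⟩ := List.length_eq_two.1 h2
    have h7 := h5.length_eq
    rw [h2] at h7
    obtain ⟨x, y, rfl⟩ := List.length_eq_two.1 h7.symm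
    rw [h6] at h3 h5
    obtain ⟨hax, h8⟩ := List.forall₂_cons.1 h5
    obtain ⟨hby, -⟩ := List.forall₂_cons.1 h8
    refine ⟨x, y, ?_, by simpa using h4⟩
    have h9 : bval a.2.2.2 + bval b.2.2.2 ≤ n := h3
    rw [hax.2.2.2, hby.2.2.2] at h9
    exact h9
  · rintro ⟨x, y, hxy, rfl⟩
    obtain ⟨dy, hdy, ey⟩ := Wt_toks (n := n) (t := y) (by omega) [] true
    obtain ⟨dx, hdx, ex⟩ := Wt_toks (n := n) (t := x) (by omega) [dy] true
    have h1 : Wt_F n (x.toks ++ y.toks) = ([dx, dy], true) := by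
      rw [Wt_F, List.foldr_append, ey, ex]
    rw [h1]
    refine ⟨⟨rfl, rfl⟩, ?_⟩
    show bval dx.2.2.2 + bval dy.2.2.2 ≤ n
    rw [hdx.2.2.2, hdy.2.2.2]
    exact hxy

/-! ### Polynomial time -/

private def Wt_sm (L : ℕ) (d : Wd) : Prop :=
  d.2.1.length ≤ L ∧ d.2.2.1.length ≤ L ∧ d.2.2.2.length ≤ L

private theorem Wt_sm_cond {L : ℕ} {c : Bool} {a b : Wd} (ha : Wt_sm L a) (hb : Wt_sm L b) :
    Wt_sm L (bif c then a else b) := by
  cases c
  · exact hb
  · exact ha

private theorem Wt_len_cond {L : ℕ} {c : Bool} {a b : List Bool} (ha : a.length ≤ L)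
    (hb : b.length ≤ L) : (bif c then a else b).length ≤ L := by
  cases c
  · exact hb
  · exact ha

private theorem Wt_sm_wd0 {L : ℕ} (h : 1 ≤ L) : Wt_sm L wd0 := by
  have h0 : wd0 = ((false, true), ([true], [], [true])) := rfl
  rw [h0]
  refine ⟨?_, ?_, ?_⟩
  · simpa using h
  · simp
  · simpa using h

private theorem Wt_sm_w4 {L : ℕ} (h : 1 ≤ L) : Wt_sm L ((true, false), ([], [], [true])) := by
  refine ⟨?_, ?_, ?_⟩
  · simp
  · simp
  · simpa using h

private theorem Wt_sm_add {n L : ℕ} (hr : ∀ x y, (rad (Mw n) x y).length ≤ L) (a b : Wd) :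
    Wt_sm L (wadd n a b) := by
  simp only [wadd, Wt_sm]
  exact ⟨hr _ _, hr _ _, hr _ _⟩

private theorem Wt_sm_mul {n L : ℕ} (hr : ∀ x y, (rad (Mw n) x y).length ≤ L)
    (hm : ∀ x y, (rmu (Mw n) x y).length ≤ L) (a b : Wd) : Wt_sm L (wmul n a b) := by
  simp only [wmul, Wt_sm]
  exact ⟨hm _ _, hr _ _, hr _ _⟩

private theorem Wt_sm_pow {n L : ℕ} (hr : ∀ x y, (rad (Mw n) x y).length ≤ L)
    (hm : ∀ x y, (rmu (Mw n) x y).length ≤ L)
    (hp : ∀ x y, (bpw x y (md (Mw n))).length ≤ L) (a b : Wd) : Wt_sm L (wpow n a b) := by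
  simp only [wpow, Wt_sm]
  exact ⟨Wt_len_cond (hp _ _) (Nat.zero_le _), hm _ _, hr _ _⟩

private theorem Wt_sm_new {n L : ℕ} (h1 : 1 ≤ L) (hr : ∀ x y, (rad (Mw n) x y).length ≤ L)
    (hm : ∀ x y, (rmu (Mw n) x y).length ≤ L)
    (hp : ∀ x y, (bpw x y (md (Mw n))).length ≤ L) (q : Tok) (s : List Wd) :
    Wt_sm L (wnew n q s) := by
  unfold wnew
  exact Wt_sm_cond (Wt_sm_wd0 h1) (Wt_sm_cond (Wt_sm_w4 h1) (Wt_sm_cond (Wt_sm_add hr _ _)
    (Wt_sm_cond (Wt_sm_mul hr hm _ _) (Wt_sm_pow hr hm hp _ _))))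

private theorem Wt_fst (n : ℕ) (q : Tok) (s : List Wd × Bool) :
    (wStep n q s).1 = wnew n q s.1 :: s.1 ∨ (wStep n q s).1 = wnew n q s.1 :: s.1.tail.tail := by
  unfold wStep
  cases (decide (q.1 = 0) || decide (q.1 = 4))
  · right
    rfl
  · left
    rfl

private theorem Wt_F_len (n : ℕ) (T : List Tok) : (Wt_F n T).1.length ≤ T.length := by
  induction T with
  | nil => exact le_rfl
  | cons q T ih =>
    rw [Wt_cons, List.length_cons]
    rcases Wt_fst n q (Wt_F n T) with h | h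
    · rw [h, List.length_cons]
      omega
    · rw [h, List.length_cons, List.length_tail, List.length_tail]
      omega

private theorem Wt_F_sm {n L : ℕ} (hw : ∀ q s, Wt_sm L (wnew n q s)) (T : List Tok) :
    ∀ d ∈ (Wt_F n T).1, Wt_sm L d := by
  induction T with
  | nil =>
    intro d hd
    exact absurd hd List.not_mem_nil
  | cons q T ih =>
    intro d hd
    rw [Wt_cons] at hd
    rcases Wt_fst n q (Wt_F n T) with h | h
    · rw [h] at hd
      rcases List.mem_cons.1 hd with rfl | hd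
      · exact hw _ _
      · exact ih d hd
    · rw [h] at hd
      rcases List.mem_cons.1 hd with rfl | hd
      · exact hw _ _
      · exact ih d (List.mem_of_mem_tail (List.mem_of_mem_tail hd))

private theorem Wt_Mw_len (n : ℕ) : (Mw n).length = 3 * n + 7 := by
  simp [Mw, pow2]

private theorem Wt_sm_all (n : ℕ) (T : List Tok) : ∀ d ∈ (Wt_F n T).1, Wt_sm (3 * n + 11) d := by
  have h0 := Wt_Mw_len n
  refine Wt_F_sm (fun q s => Wt_sm_new (by omega) ?_ ?_ ?_ q s) T
  · intro x y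
    have h1 := Pool.Agent.TW.length_rad_le (Mw n) x y
    omega
  · intro x y
    have h1 := Pool.Agent.TW.length_rmu_le (Mw n) x y
    omega
  · intro x y
    have h1 := length_bpw_le x y (md (Mw n))
    have h2 := Pool.Agent.TW.length_md_le (Mw n)
    omega

private theorem Wt_sm_sz {n : ℕ} {d : Wd} (h : Wt_sm (3 * n + 11) d) : sz d ≤ 36 * n + 200 := by
  obtain ⟨h1, h2, h3⟩ := h
  have s1 := sz_prod d
  have s2 := sz_prod d.1
  have s3 := sz_prod d.2
  have s4 := sz_prod d.2.2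
  have s5 := sz_bool_le d.1.1
  have s6 := sz_bool_le d.1.2
  have s7 := (sz_bool_list d.2.1).2
  have s8 := (sz_bool_list d.2.2.1).2
  have s9 := (sz_bool_list d.2.2.2).2
  omega

private theorem Wt_pMw {fn : α → ℕ} (hn : Poly fn) : Poly (fun a => Mw (fn a)) :=
  Pool.Agent.TW.poly_pow2 (f := fun a => 3 * fn a + 6) (by fun_prop)

private theorem Wt_pnb {fn : α → ℕ} (hn : Poly fn) : Poly (fun a => nb (fn a)) := by
  refine H.MP_5be563_lc.PT.Poly.iterate (f := fun (_ : α) (l : List Bool) => btrim (badd l [true]))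
    (s := fun _ => ([] : List Bool)) (n := fn) (B := fun a => 4 * sz (fn a) + 1) (by fun_prop)
    (by fun_prop) hn (((PBdd.const 4).mul hn.sz_le).add (PBdd.const 1)) ?_
  intro a k hk
  change sz (nb k) ≤ _
  have h1 := (sz_bool_list (nb k)).2
  have h2 := Wt_nb_length k
  rw [sz_nat]
  omega

private theorem Wt_padd {fn : α → ℕ} {f g : α → Wd} (hn : Poly fn) (hf : Poly f) (hg : Poly g) :
    Poly (fun a => wadd (fn a) (f a) (g a)) := by
  have hm := Wt_pMw hn
  have t1 : Poly (fun _ : α => true) := by fun_prop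
  have t2 : Poly (fun _ : α => [true]) := by fun_prop
  have f2 : Poly (fun a => (f a).1.2) := by fun_prop
  have f3 : Poly (fun a => (f a).2.1) := by fun_prop
  have f4 : Poly (fun a => (f a).2.2.1) := by fun_prop
  have f5 : Poly (fun a => (f a).2.2.2) := by fun_prop
  have g2 : Poly (fun a => (g a).1.2) := by fun_prop
  have g3 : Poly (fun a => (g a).2.1) := by fun_prop
  have g4 : Poly (fun a => (g a).2.2.1) := by fun_prop
  have g5 : Poly (fun a => (g a).2.2.2) := by fun_prop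
  exact (t1.pair (f2.and g2)).pair ((Pool.Agent.TW.Poly.rad hm f3 g3).pair
    ((Pool.Agent.TW.Poly.rad hm (Pool.Agent.TW.Poly.rad hm f4 g4) t2).pair
      (Pool.Agent.TW.Poly.rad hm (Pool.Agent.TW.Poly.rad hm f5 g5) t2)))

private theorem Wt_pmul {fn : α → ℕ} {f g : α → Wd} (hn : Poly fn) (hf : Poly f) (hg : Poly g) :
    Poly (fun a => wmul (fn a) (f a) (g a)) := by
  have hm := Wt_pMw hn
  have t2 : Poly (fun _ : α => [true]) := by fun_prop
  have f1 : Poly (fun a => (f a).1.1) := by fun_prop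
  have f2 : Poly (fun a => (f a).1.2) := by fun_prop
  have f3 : Poly (fun a => (f a).2.1) := by fun_prop
  have f4 : Poly (fun a => (f a).2.2.1) := by fun_prop
  have f5 : Poly (fun a => (f a).2.2.2) := by fun_prop
  have g1 : Poly (fun a => (g a).1.1) := by fun_prop
  have g2 : Poly (fun a => (g a).1.2) := by fun_prop
  have g3 : Poly (fun a => (g a).2.1) := by fun_prop
  have g4 : Poly (fun a => (g a).2.2.1) := by fun_prop
  have g5 : Poly (fun a => (g a).2.2.2) := by fun_prop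
  exact ((f1.or g1).pair (f2.and g2)).pair ((Pool.Agent.TW.Poly.rmu hm f3 g3).pair
    ((Pool.Agent.TW.Poly.rad hm f4 g4).pair
      (Pool.Agent.TW.Poly.rad hm (Pool.Agent.TW.Poly.rad hm f5 g5) t2)))

private theorem Wt_ppow {fn : α → ℕ} {f g : α → Wd} (hn : Poly fn) (hf : Poly f) (hg : Poly g) :
    Poly (fun a => wpow (fn a) (f a) (g a)) := by
  have hm := Wt_pMw hn
  have t0 : Poly (fun _ : α => ([] : List Bool)) := by fun_prop
  have t2 : Poly (fun _ : α => [true]) := by fun_prop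
  have f1 : Poly (fun a => (f a).1.1) := by fun_prop
  have f2 : Poly (fun a => (f a).1.2) := by fun_prop
  have f3 : Poly (fun a => (f a).2.1) := by fun_prop
  have f4 : Poly (fun a => (f a).2.2.1) := by fun_prop
  have f5 : Poly (fun a => (f a).2.2.2) := by fun_prop
  have g2 : Poly (fun a => (g a).1.2) := by fun_prop
  have g3 : Poly (fun a => (g a).2.1) := by fun_prop
  have g5 : Poly (fun a => (g a).2.2.2) := by fun_prop
  exact (f1.pair ((f2.and g2).or f1.not)).pair
    ((Poly.cond (g2.or f1.not)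
      (Pool.Agent.TI.Poly.bpw f3 g3 (Pool.Agent.TW.Poly.md hm)) t0).pair
    ((Pool.Agent.TW.Poly.rmu hm g3 f4).pair
      (Pool.Agent.TW.Poly.rad hm (Pool.Agent.TW.Poly.rad hm (Pool.Agent.TW.Poly.rad hm f5 g5) t2)
        (Pool.Agent.TW.Poly.rmu hm g3 f4))))

private theorem Wt_pnew {fn : α → ℕ} {fq : α → Tok} {fs : α → List Wd} (hn : Poly fn)
    (hq : Poly fq) (hs : Poly fs) : Poly (fun a => wnew (fn a) (fq a) (fs a)) := by
  have k1 : Poly (fun a => (fq a).1) := by fun_prop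
  have c0 : Poly (fun a => decide ((fq a).1 = 0)) := k1.isZero
  have c1 : Poly (fun a => decide ((fq a).1 = 1)) := k1.nateq (by fun_prop)
  have c2 : Poly (fun a => decide ((fq a).1 = 2)) := k1.nateq (by fun_prop)
  have c4 : Poly (fun a => decide ((fq a).1 = 4)) := k1.nateq (by fun_prop)
  have w0 : Poly (fun _ : α => wd0) := H.MP_5be563_lc.PT.Poly.const _
  have w4 : Poly (fun _ : α => (((true, false), ([], [], [true])) : Wd)) := H.MP_5be563_lc.PT.Poly.const _
  have e1 : Poly (fun a => (fs a).headD wd0) := hs.headD w0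
  have e2 : Poly (fun a => (fs a).tail.headD wd0) := hs.tail.headD w0
  exact Poly.cond c0 w0 (Poly.cond c4 w4 (Poly.cond c1 (Wt_padd hn e1 e2)
    (Poly.cond c2 (Wt_pmul hn e1 e2) (Wt_ppow hn e1 e2))))

private theorem Wt_pstep {fn : α → ℕ} (hn : Poly fn) :
    Poly (fun p : α × (List Wd × Bool) × Tok => wStep (fn p.1) p.2.2 p.2.1) := by
  have hn' : Poly (fun p : α × (List Wd × Bool) × Tok => fn p.1) := hn.comp Poly.fst
  have k1 : Poly (fun p : α × (List Wd × Bool) × Tok => p.2.2.1) := by fun_prop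
  have c0 : Poly (fun p : α × (List Wd × Bool) × Tok => decide (p.2.2.1 = 0)) := k1.isZero
  have c4 : Poly (fun p : α × (List Wd × Bool) × Tok => decide (p.2.2.1 = 4)) :=
    k1.nateq (by fun_prop)
  have q1 : Poly (fun p : α × (List Wd × Bool) × Tok => p.2.2) := by fun_prop
  have d1 : Poly (fun p : α × (List Wd × Bool) × Tok => p.2.1.1) := by fun_prop
  have d2 : Poly (fun p : α × (List Wd × Bool) × Tok => p.2.1.2) := by fun_prop
  have k2 : Poly (fun _ : α × (List Wd × Bool) × Tok => 2) := by fun_prop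
  have e5 : Poly (fun p : α × (List Wd × Bool) × Tok => decide (2 ≤ p.2.1.1.length)) :=
    k2.natle d1.length
  have nw : Poly (fun p : α × (List Wd × Bool) × Tok => wnew (fn p.1) p.2.2 p.2.1.1) :=
    Wt_pnew hn' q1 d1
  have nw2 : Poly (fun p : α × (List Wd × Bool) × Tok =>
      (wnew (fn p.1) p.2.2 p.2.1.1).2.2.2) :=
    Poly.snd.comp (Poly.snd.comp (Poly.snd.comp nw))
  have b1 : Poly (fun p : α × (List Wd × Bool) × Tok =>
      ble (wnew (fn p.1) p.2.2 p.2.1.1).2.2.2 (nb (fn p.1))) :=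
    H.MP_5be563_lc.PT.Poly.ble nw2 (Wt_pnb hn')
  exact Poly.cond (c0.or c4) ((nw.lcons d1).pair (d2.and b1))
    ((nw.lcons d1.tail.tail).pair ((d2.and e5).and b1))

theorem poly_shapeW {fn : α → ℕ} {fT : α → List Tok} (hn : Poly fn) (hT : Poly fT) :
    Poly (fun a => shapeW (fn a) (fT a)) := by
  have h2 : Poly (fun a => (fT a).foldr (wStep (fn a)) ([], true)) := by
    refine Poly.foldr (f := fun p : α × (List Wd × Bool) × Tok => wStep (fn p.1) p.2.2 p.2.1)
      (l := fT) (s0 := fun _ => (([], true) : List Wd × Bool))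
      (B := fun a => sz (fT a) * (36 * sz (fn a) + 201) + 5) (Wt_pstep hn) hT (by fun_prop)
      ((hT.sz_le.mul (((PBdd.const 36).mul hn.sz_le).add (PBdd.const 201))).add (PBdd.const 5)) ?_
    intro a l₁ l₂ h
    have h3 := Wt_F_len (fn a) l₂
    have h4 : l₂.length ≤ sz (fT a) := by
      have h5 := length_lt_sz (fT a)
      rw [h, List.length_append] at h5
      rw [h]
      omega
    change sz (Wt_F (fn a) l₂) ≤ _
    have h6 := sz_prod (Wt_F (fn a) l₂)
    have h7 := sz_le_of_forall (Wt_F (fn a) l₂).1 (36 * sz (fn a) + 200) (fun d hd => by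
      have h8 := Wt_sm_sz (Wt_sm_all (fn a) l₂ d hd)
      rw [sz_nat]
      omega)
    have h10 := sz_bool_le (Wt_F (fn a) l₂).2
    have h11 : (Wt_F (fn a) l₂).1.length * (36 * sz (fn a) + 200 + 1) ≤
        sz (fT a) * (36 * sz (fn a) + 201) := Nat.mul_le_mul (h3.trans h4) (by omega)
    omega
  have w0 : Poly (fun _ : α => wd0) := H.MP_5be563_lc.PT.Poly.const _
  have s1 : Poly (fun a => ((fT a).foldr (wStep (fn a)) ([], true)).1) := Poly.fst.comp h2
  have s2 : Poly (fun a => ((fT a).foldr (wStep (fn a)) ([], true)).2) := Poly.snd.comp h2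
  have k2 : Poly (fun _ : α => 2) := by fun_prop
  have e1 := s1.headD w0
  have e2 := s1.tail.headD w0
  exact (s2.and (s1.length.nateq k2)).and (H.MP_5be563_lc.PT.Poly.ble
    (H.MP_5be563_lc.PT.Poly.badd (Poly.snd.comp (Poly.snd.comp (Poly.snd.comp e1)))
      (Poly.snd.comp (Poly.snd.comp (Poly.snd.comp e2)))) (Wt_pnb hn))

end Pool.Agent.TD
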