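import Pool.Agent.H.MP_b2d7dd_lc.TD.Mach
import Pool.Agent.H.MP_b2d7dd_lc.TD.Wt
import Pool.Agent.H.MP_b2d7dd_lc.TC.Nxt

/-!
# Module Nxt: the test

The parameters are those of TC/Par for the bound `n` of the weights. `erun` computes the numbers `e1` of
the bases, `baseT` = their coprime base. `nxt` = one stage: the table for the subterms number
`0, ..., i` from the table for the subterms before `i` and the random bits `zz`. `tabI` = all stages.
`fin1` = the comparison of the two terms. `test1` = one round. `accept` = all rounds.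
-/

namespace Pool.Agent.TD

open Pool.Agent.TI (Tm Tok names tokz bmod beqv bpw)
open Pool.Agent.TE (bl)
open Pool.Agent.TW (SI ltab pivots pow2 md rad rmu)
open Pool.Agent.TC (MB muB Pb Stk subs exF cob eN eP uu vv Kc Qw Rr kk SS AA KK)
open Pool.Agent.H.MP_5be563_lc.PT

/-- The numbers `e1` and `cs` and the flags `big` and `cst` of a term. -/
abbrev Ed : Type := (List Bool × List Bool) × (Bool × Bool)

/-- The data of `1`. -/
def ed0 : Ed := (([true], [true]), (false, true))

/-- The data of a power. -/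
def epow (M : List Bool) (a b : Ed) : Ed :=
  ((bpw a.1.1 b.1.2 (md M), bif b.2.2 || !a.2.1 then bpw a.1.2 b.1.2 (md M) else []),
    (a.2.1, (a.2.2 && b.2.2) || !a.2.1))

/-- The data of the next term. -/
def enew (M : List Bool) (q : Tok) (s : List Ed) : Ed :=
  bif decide (q.1 = 0) then ed0
  else bif decide (q.1 = 4) then (([true], []), (true, false))
  else bif decide (q.1 = 1) then
    ((rad M (s.headD ed0).1.1 (s.tail.headD ed0).1.1, rad M (s.headD ed0).1.2 (s.tail.headD ed0).1.2),
      (true, (s.headD ed0).2.2 && (s.tail.headD ed0).2.2))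
  else bif decide (q.1 = 2) then
    ((rmu M (s.headD ed0).1.1 (s.tail.headD ed0).1.1, rmu M (s.headD ed0).1.2 (s.tail.headD ed0).1.2),
      ((s.headD ed0).2.1 || (s.tail.headD ed0).2.1, (s.headD ed0).2.2 && (s.tail.headD ed0).2.2))
  else epow M (s.headD ed0) (s.tail.headD ed0)

/-- One step: the data of the terms of the stack and the numbers `e1` of the bases. -/
def estep (M : List Bool) (q : Tok) (s : List Ed × List (List Bool)) :
    List Ed × List (List Bool) :=
  (enew M q s.1 :: (bif decide (q.1 = 0) || decide (q.1 = 4) then s.1 else s.1.tail.tail),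
    s.2 ++ [bif decide (q.1 = 3) then (s.1.headD ed0).1.1 else [true]])

/-- The numbers `e1` of the bases. -/
def erun (M : List Bool) (T : List Tok) : List Ed × List (List Bool) :=
  T.foldr (estep M) ([], [])

/-- The modulus for the numbers. -/
def Mn (n : ℕ) : List Bool := pow2 (n + 2)

/-- The coprime base. -/
def baseT (n : ℕ) (T : List Tok) : List (List Bool) :=
  cob (4 * (n + 7) + 2) (Kc n) (erun (Mn n) T).2

/-- One stage. -/
def nxt (n : ℕ) (e : List Bool) (N B : List (List Bool)) (T : List Tok)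
    (i : ℕ) (tab : List (List SI)) (zz : List Bool) : List (List SI) :=
  ltab e (pow2 (eN n)) (pow2 (eP n)) (kk n) (i + 1)
    (pivots e (i + 1) ((List.range (Rr n)).map fun j =>
      hrow e (Mn n) (vv n) (n + 1) n N B tab T i (bl (Qw n * vv n) zz j)))

/-- All stages. -/
def tabI (n : ℕ) (e : List Bool) (N B : List (List Bool)) (T : List Tok)
    (z : List Bool) : ℕ → List (List SI)
  | 0 => []
  | i + 1 => nxt n e N B T i (tabI n e N B T z i) (bl (SS n) z i)

/-- The two terms have the same value. -/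
def fin1 (n : ℕ) (e : List Bool) (N B : List (List Bool)) (T : List Tok) (tab : List (List SI))
    (zz : List Bool) : Bool :=
  beqv
    (bmod ((xrun e (Mn n) (vv n) (n + 1) n N B (bl (Qw n * vv n) zz 0) tab T).1.headD vx0).1.1
      (md e))
    (bmod ((xrun e (Mn n) (vv n) (n + 1) n N B (bl (Qw n * vv n) zz 0) tab T).1.tail.headD
      vx0).1.1 (md e))

/-- The test for given bits of the modulus and of the stages. -/
def test0 (n : ℕ) (T : List Tok) (e z : List Bool) : Bool :=
  bif ble (pow2 (vv n)) e then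
    fin1 n e (names T) (baseT n T) T (tabI n e (names T) (baseT n T) T z T.length)
      (bl (SS n) z T.length)
  else true

/-- One round. -/
def test1 (n : ℕ) (T : List Tok) (z : List Bool) : Bool :=
  test0 n T (z.take (2 * vv n)) (z.drop (2 * vv n))

/-- The test on tokens. -/
def acceptT (n : ℕ) (T : List Tok) (r : List Bool) : Bool :=
  shapeW n T && (List.range (KK n)).all fun j => test1 n T (bl (AA n) r j)

/-- The test. -/
def accept (k : ℕ) (x r : List Bool) : Bool :=
  match tokz x with
  | none => false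
  | some T => acceptT (x.length ^ k) T r

private theorem Nxt_cons (M : List Bool) (q : Tok) (T : List Tok) :
    erun M (q :: T) = estep M q (erun M T) := rfl

private def Nxt_R (x : Ed) (u : Tm) : Prop :=
  bval x.1.1 = e1 u ∧ bval x.1.2 = cs u ∧ x.2.1 = big u ∧ x.2.2 = cst u

private theorem Nxt_h {l : List Ed} {st : List Tm} {a b : Tm}
    (h : List.Forall₂ Nxt_R l (a :: b :: st)) :
    ∃ x y r, l = x :: y :: r ∧ Nxt_R x a ∧ Nxt_R y b ∧ List.Forall₂ Nxt_R r st := by
  obtain ⟨x, l', h1, h2, rfl⟩ := List.forall₂_cons_right_iff.1 h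
  obtain ⟨y, r, h3, h4, rfl⟩ := List.forall₂_cons_right_iff.1 h2
  exact ⟨x, y, r, rfl, h1, h3, h4⟩

private theorem Nxt_one : bval [true] = 1 := rfl

private theorem Nxt_app {R : List Bool → Tm → Prop} {l : List (List Bool)} {U : List Tm}
    (h : List.Forall₂ R l U) {x : List Bool} {u : Tm} (hx : R x u) :
    List.Forall₂ R (l ++ [x]) (U ++ [u]) :=
  List.rel_append h (List.Forall₂.cons hx List.Forall₂.nil)

private theorem Nxt_mem {R : List Bool → Tm → Prop} {l : List (List Bool)} {U : List Tm}
    (h : List.Forall₂ R l U) : (∀ x ∈ l, ∃ u ∈ U, R x u) ∧ ∀ u ∈ U, ∃ x ∈ l, R x u := by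
  induction h with
  | nil => exact ⟨fun x hx => absurd hx List.not_mem_nil, fun u hu => absurd hu List.not_mem_nil⟩
  | cons h1 _ ih =>
    refine ⟨fun x hx => ?_, fun u hu => ?_⟩
    · rcases List.mem_cons.1 hx with hx | hx
      · rw [hx]
        exact ⟨_, List.mem_cons_self, h1⟩
      · obtain ⟨u, hu, hr⟩ := ih.1 x hx
        exact ⟨u, List.mem_cons_of_mem _ hu, hr⟩
    · rcases List.mem_cons.1 hu with hu | hu
      · rw [hu]
        exact ⟨_, List.mem_cons_self, h1⟩
      · obtain ⟨x, hx, hr⟩ := ih.2 u hu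
        exact ⟨x, List.mem_cons_of_mem _ hx, hr⟩

private theorem Nxt_val {M : List Bool} {T : List Tok} {st U : List Tm} (h : Stk T st U)
    (hM : ∀ u ∈ U, 2 ^ lg u < bval M + 2) :
    List.Forall₂ Nxt_R (erun M T).1 st ∧
      List.Forall₂ (fun x u => (∀ a b, u = Tm.pow a b → bval x = e1 a) ∧
        ((∀ a b, u ≠ Tm.pow a b) → bval x = 1)) (erun M T).2 U := by
  induction h with
  | nil => exact ⟨List.Forall₂.nil, List.Forall₂.nil⟩
  | @one T st U h ih =>
    obtain ⟨h1, h2⟩ := ih fun u hu => hM u (List.mem_append_left _ hu)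
    have h3 : erun M ((0, []) :: T) = (ed0 :: (erun M T).1, (erun M T).2 ++ [[true]]) := by
      rw [Nxt_cons]
      simp [estep, enew]
    rw [h3]
    refine ⟨List.Forall₂.cons ⟨rfl, rfl, rfl, rfl⟩ h1,
      Nxt_app h2 ⟨fun a b h => ?_, fun _ => Nxt_one⟩⟩
    exact absurd h (by simp)
  | @var T st U w h ih =>
    obtain ⟨h1, h2⟩ := ih fun u hu => hM u (List.mem_append_left _ hu)
    have h3 : erun M ((4, w) :: T) =
        ((([true], []), (true, false)) :: (erun M T).1, (erun M T).2 ++ [[true]]) := by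
      rw [Nxt_cons]
      simp [estep, enew]
    rw [h3]
    refine ⟨List.Forall₂.cons ⟨rfl, rfl, rfl, rfl⟩ h1,
      Nxt_app h2 ⟨fun a b h => ?_, fun _ => Nxt_one⟩⟩
    exact absurd h (by simp)
  | @add T st U a b h ih =>
    obtain ⟨h1, h2⟩ := ih fun u hu => hM u (List.mem_append_left _ hu)
    obtain ⟨x, y, r, hl, ⟨x1, x2, x3, x4⟩, ⟨y1, y2, y3, y4⟩, hr⟩ := Nxt_h h1
    have h3 : erun M ((1, []) :: T) =
        (((rad M x.1.1 y.1.1, rad M x.1.2 y.1.2), (true, x.2.2 && y.2.2)) :: r,
          (erun M T).2 ++ [[true]]) := by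
      rw [Nxt_cons]
      simp [estep, enew, hl]
    have h4 := hM (.add a b) (List.mem_append_right _ (List.mem_singleton.2 rfl))
    have h5 : bval (rad M x.1.1 y.1.1) = e1 (.add a b) := by
      rw [rad, TW.bval_bmod_md, bval_badd, x1, y1]
      exact Nat.mod_eq_of_lt ((e1_le (.add a b)).trans_lt h4)
    have h6 : bval (rad M x.1.2 y.1.2) = cs (.add a b) := by
      rw [rad, TW.bval_bmod_md, bval_badd, x2, y2]
      exact Nat.mod_eq_of_lt ((cs_le (.add a b)).trans_lt h4)
    have h7 : (x.2.2 && y.2.2) = cst (.add a b) := by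
      rw [x4, y4]
      rfl
    rw [h3]
    refine ⟨List.Forall₂.cons ⟨h5, h6, rfl, h7⟩ hr,
      Nxt_app h2 ⟨fun a b h => ?_, fun _ => Nxt_one⟩⟩
    exact absurd h (by simp)
  | @mul T st U a b h ih =>
    obtain ⟨h1, h2⟩ := ih fun u hu => hM u (List.mem_append_left _ hu)
    obtain ⟨x, y, r, hl, ⟨x1, x2, x3, x4⟩, ⟨y1, y2, y3, y4⟩, hr⟩ := Nxt_h h1
    have h3 : erun M ((2, []) :: T) =
        (((rmu M x.1.1 y.1.1, rmu M x.1.2 y.1.2), (x.2.1 || y.2.1, x.2.2 && y.2.2)) :: r,
          (erun M T).2 ++ [[true]]) := by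
      rw [Nxt_cons]
      simp [estep, enew, hl]
    have h4 := hM (.mul a b) (List.mem_append_right _ (List.mem_singleton.2 rfl))
    have h5 : bval (rmu M x.1.1 y.1.1) = e1 (.mul a b) := by
      rw [rmu, TW.bval_bmod_md, bval_bmul, x1, y1]
      exact Nat.mod_eq_of_lt ((e1_le (.mul a b)).trans_lt h4)
    have h6 : bval (rmu M x.1.2 y.1.2) = cs (.mul a b) := by
      rw [rmu, TW.bval_bmod_md, bval_bmul, x2, y2]
      exact Nat.mod_eq_of_lt ((cs_le (.mul a b)).trans_lt h4)
    have h7 : (x.2.2 && y.2.2) = cst (.mul a b) := by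
      rw [x4, y4]
      rfl
    have h8 : (x.2.1 || y.2.1) = big (.mul a b) := by
      rw [x3, y3]
      rfl
    rw [h3]
    refine ⟨List.Forall₂.cons ⟨h5, h6, h8, h7⟩ hr,
      Nxt_app h2 ⟨fun a b h => ?_, fun _ => Nxt_one⟩⟩
    exact absurd h (by simp)
  | @pow T st U a b h ih =>
    obtain ⟨h1, h2⟩ := ih fun u hu => hM u (List.mem_append_left _ hu)
    obtain ⟨x, y, r, hl, ⟨x1, x2, x3, x4⟩, ⟨y1, y2, y3, y4⟩, hr⟩ := Nxt_h h1
    have h3 : erun M ((3, []) :: T) = (epow M x y :: r, (erun M T).2 ++ [x.1.1]) := by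
      rw [Nxt_cons]
      simp [estep, enew, hl]
    have h4 := hM (.pow a b) (List.mem_append_right _ (List.mem_singleton.2 rfl))
    have h5 : bval (epow M x y).1.1 = e1 (.pow a b) := by
      show bval (bpw x.1.1 y.1.2 (md M)) = e1 (.pow a b)
      rw [TI.bval_bpw, TW.bval_md, x1, y2]
      exact Nat.mod_eq_of_lt ((e1_le (.pow a b)).trans_lt h4)
    have h6 : bval (epow M x y).1.2 = cs (.pow a b) := by
      show bval (bif y.2.2 || !x.2.1 then bpw x.1.2 y.1.2 (md M) else []) =
        if (cst b || !big a) = true then cs a ^ cs b else 0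
      rw [y4, x3]
      cases hc : (cst b || !big a) with
      | true =>
        have h7 : cs (.pow a b) = cs a ^ cs b := if_pos hc
        rw [cond_true, if_pos rfl, TI.bval_bpw, TW.bval_md, x2, y2]
        exact Nat.mod_eq_of_lt (h7 ▸ (cs_le (.pow a b)).trans_lt h4)
      | false => rfl
    have h7 : (epow M x y).2.2 = cst (.pow a b) := by
      show ((x.2.2 && y.2.2) || !x.2.1) = cst (.pow a b)
      rw [x4, y4, x3]
      rfl
    rw [h3]
    refine ⟨List.Forall₂.cons ⟨h5, h6, x3, h7⟩ hr, Nxt_app h2 ⟨fun a' b' h => ?_, fun h => ?_⟩⟩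
    · injection h with e1' e2'
      rw [x1, e1']
    · exact absurd rfl (h a b)

/-- The numbers of the bases. -/
theorem erun_val {M : List Bool} {T : List Tok} {st U : List Tm} (h : Stk T st U)
    (hM : ∀ u ∈ U, 2 ^ lg u < bval M + 2) :
    List.Forall₂ (fun (x : Ed) u => bval x.1.1 = e1 u ∧ bval x.1.2 = cs u ∧ x.2.1 = big u ∧
      x.2.2 = cst u) (erun M T).1 st ∧
      List.Forall₂ (fun x u => (∀ a b, u = Tm.pow a b → bval x = e1 a) ∧
        ((∀ a b, u ≠ Tm.pow a b) → bval x = 1)) (erun M T).2 U :=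
  Nxt_val h hM

private theorem Nxt_hd {k : ℕ} {l : List Ed}
    (h : ∀ x ∈ l, x.1.1.length ≤ k + 4 ∧ x.1.2.length ≤ k + 4) :
    (l.headD ed0).1.1.length ≤ k + 4 := by
  cases l with
  | nil => exact Nat.succ_le_succ (Nat.zero_le _)
  | cons x l => exact (h x List.mem_cons_self).1

private theorem Nxt_bpw (M r e : List Bool) : (bpw r e (md M)).length ≤ M.length + 4 := by
  have h1 := TI.length_bpw_le r e (md M)
  have h2 := TW.length_md_le M
  omega

private theorem Nxt_pw (M : List Bool) (a b : Ed) :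
    (epow M a b).1.1.length ≤ M.length + 4 ∧ (epow M a b).1.2.length ≤ M.length + 4 := by
  refine ⟨Nxt_bpw _ _ _, ?_⟩
  unfold epow
  cases (b.2.2 || !a.2.1) with
  | true => exact Nxt_bpw _ _ _
  | false => exact Nat.zero_le _

private theorem Nxt_new (M : List Bool) (q : Tok) (s : List Ed) :
    (enew M q s).1.1.length ≤ M.length + 4 ∧ (enew M q s).1.2.length ≤ M.length + 4 := by
  have ht : ([true] : List Bool).length ≤ M.length + 4 := Nat.succ_le_succ (Nat.zero_le _)
  unfold enew
  cases decide (q.1 = 0) with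
  | true => exact ⟨ht, ht⟩
  | false =>
    cases decide (q.1 = 4) with
    | true => exact ⟨ht, Nat.zero_le _⟩
    | false =>
      cases decide (q.1 = 1) with
      | true => exact ⟨TW.length_rad_le _ _ _, TW.length_rad_le _ _ _⟩
      | false =>
        cases decide (q.1 = 2) with
        | true => exact ⟨TW.length_rmu_le _ _ _, TW.length_rmu_le _ _ _⟩
        | false => exact Nxt_pw _ _ _

theorem erun_len (M : List Bool) (T : List Tok) : (erun M T).1.length ≤ T.length ∧
    (erun M T).2.length = T.length ∧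
      (∀ x ∈ (erun M T).1, x.1.1.length ≤ M.length + 4 ∧ x.1.2.length ≤ M.length + 4) ∧
        ∀ x ∈ (erun M T).2, x.length ≤ M.length + 4 := by
  induction T with
  | nil =>
    exact ⟨le_rfl, rfl, fun x hx => absurd hx List.not_mem_nil,
      fun x hx => absurd hx List.not_mem_nil⟩
  | cons q T ih =>
    obtain ⟨i1, i2, i3, i4⟩ := ih
    have ht : ([true] : List Bool).length ≤ M.length + 4 := Nat.succ_le_succ (Nat.zero_le _)
    rw [Nxt_cons]
    unfold estep
    refine ⟨?_, ?_, ?_, ?_⟩
    · dsimp only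
      rw [List.length_cons, List.length_cons]
      cases (decide (q.1 = 0) || decide (q.1 = 4)) with
      | true => exact Nat.succ_le_succ i1
      | false =>
        rw [cond_false, List.length_tail, List.length_tail]
        omega
    · dsimp only
      rw [List.length_append, List.length_singleton, List.length_cons, i2]
    · intro x hx
      rcases List.mem_cons.1 hx with hx | hx
      · rw [hx]
        exact Nxt_new _ _ _
      · revert hx
        cases (decide (q.1 = 0) || decide (q.1 = 4)) with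
        | true => exact fun hx => i3 x hx
        | false => exact fun hx => i3 x (List.mem_of_mem_tail (List.mem_of_mem_tail hx))
    · intro x hx
      rcases List.mem_append.1 hx with hx | hx
      · exact i4 x hx
      · rw [List.mem_singleton.1 hx]
        cases decide (q.1 = 3) with
        | true => exact Nxt_hd i3
        | false => exact ht

theorem bval_Mn (n : ℕ) : bval (Mn n) = 2 ^ (n + 2) := TW.bval_pow2 (n + 2)

private theorem Nxt_wt {t u : Tm} (h : u ∈ subs t) : wt u ≤ wt t := by
  induction t with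
  | one => exact le_of_eq (by rw [List.mem_singleton.1 h])
  | var w => exact le_of_eq (by rw [List.mem_singleton.1 h])
  | add s t hs ht =>
    simp only [subs, List.mem_append, List.mem_singleton] at h
    rcases h with (h | h) | h
    · exact (ht h).trans (by simp only [wt]; omega)
    · exact (hs h).trans (by simp only [wt]; omega)
    · rw [h]
  | mul s t hs ht =>
    simp only [subs, List.mem_append, List.mem_singleton] at h
    rcases h with (h | h) | h
    · exact (ht h).trans (by simp only [wt]; omega)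
    · exact (hs h).trans (by simp only [wt]; omega)
    · rw [h]
  | pow s t hs ht =>
    simp only [subs, List.mem_append, List.mem_singleton] at h
    rcases h with (h | h) | h
    · exact (ht h).trans (by simp only [wt]; omega)
    · exact (hs h).trans (by simp only [wt]; omega)
    · rw [h]

private theorem Nxt_all {s t : Tm} {n : ℕ} (hn : wt s + wt t ≤ n) :
    (∀ x ∈ (erun (Mn n) (s.toks ++ t.toks)).2, x.length ≤ n + 7) ∧
      (∀ x ∈ (erun (Mn n) (s.toks ++ t.toks)).2, 1 ≤ bval x) ∧
      (n + 7) * (erun (Mn n) (s.toks ++ t.toks)).2.length ≤ Kc n ∧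
      ∀ m ∈ Bs1 (exF s t) (s.sz + t.sz),
        ∃ x ∈ (erun (Mn n) (s.toks ++ t.toks)).2, m = bval x := by
  have hst := TC.stk_pair s t
  have hsz : s.sz + t.sz ≤ n := (Nat.add_le_add (sz_le s) (sz_le t)).trans hn
  have hlen : (subs t ++ subs s).length = s.sz + t.sz := by
    rw [List.length_append, TC.length_subs, TC.length_subs, add_comm]
  have hM : ∀ u ∈ subs t ++ subs s, 2 ^ lg u < bval (Mn n) + 2 := by
    intro u hu
    have h1 : wt u ≤ n := by
      rcases List.mem_append.1 hu with h | h
      · have := Nxt_wt h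
        omega
      · have := Nxt_wt h
        omega
    have h2 : 2 ^ lg u ≤ 2 ^ (n + 2) :=
      Nat.pow_le_pow_right (by norm_num) ((lg_le u).trans (h1.trans (by omega)))
    rw [bval_Mn]
    omega
  obtain ⟨-, hv⟩ := erun_val hst hM
  obtain ⟨-, l2, -, l4⟩ := erun_len (Mn n) (s.toks ++ t.toks)
  have hml : (Mn n).length = n + 3 := by
    unfold Mn pow2
    rw [List.length_append, List.length_replicate, List.length_singleton]
  refine ⟨fun x hx => ?_, fun x hx => ?_, ?_, ?_⟩
  · have h1 := l4 x hx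
    rw [hml] at h1
    exact h1
  · obtain ⟨u, -, h1, h2⟩ := (Nxt_mem hv).1 x hx
    by_cases hu : ∃ a b, u = Tm.pow a b
    · obtain ⟨a, b, hab⟩ := hu
      rw [h1 a b hab]
      exact e1_pos a
    · rw [h2 fun a b hab => hu ⟨a, b, hab⟩]
  · rw [l2, ← hst.length, hlen]
    unfold Kc
    exact Nat.mul_le_mul_left _ (by omega)
  · rintro m ⟨a, ha, c, b, hab, rfl⟩
    have h1 : exF s t a ∈ subs t ++ subs s := by
      unfold exF
      rw [List.getD_eq_getElem _ _ (by rw [hlen]; exact ha)]
      exact List.getElem_mem _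
    obtain ⟨x, hx, h2, -⟩ := (Nxt_mem hv).2 _ h1
    exact ⟨x, hx, (h2 c b hab).symm⟩

theorem baseT_two {s t : Tm} {n : ℕ} (hn : wt s + wt t ≤ n) :
    (∀ P ∈ baseT n (s.toks ++ t.toks), 2 ≤ bval P) ∧
      (baseT n (s.toks ++ t.toks)).length ≤ Kc n := by
  obtain ⟨h1, h2, h3, -⟩ := Nxt_all hn
  obtain ⟨c1, -, c3, -⟩ := TC.cob_spec h1 h2 le_rfl h3
  exact ⟨c1, c3⟩

/-- The coprime base is a base for the numbers of the bases. -/
theorem baseT_mb {s t : Tm} {n : ℕ} (hn : wt s + wt t ≤ n) :
    MB (baseT n (s.toks ++ t.toks)).length (Pb (baseT n (s.toks ++ t.toks)))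
      (muB (baseT n (s.toks ++ t.toks))) (Bs1 (exF s t) (s.sz + t.sz)) := by
  obtain ⟨h1, h2, h3, h4⟩ := Nxt_all hn
  have h5 := TC.mb_cob h1 h2 le_rfl h3
  exact ⟨h5.two, h5.cop, fun m hm => h5.fac m (h4 m hm)⟩

end Pool.Agent.TD
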