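import Pool.Agent.H.MP_b2d7dd_lc.TD.Nxt
import Pool.Agent.H.MP_b2d7dd_lc.TD.MachP
import Pool.Agent.H.MP_b2d7dd_lc.TC.NxtP

/-!
# Module NxtP: one stage runs in polynomial time

Compare TC/NxtP (`poly_par` there is for the same parameters).
-/

namespace Pool.Agent.TD

open Pool.Agent.TI (Tok names)
open Pool.Agent.TW (SI)
open Pool.Agent.TC (muB Pb Stk subs exF cob eN eP uu vv Kc Qw Rr kk SS AA KK poly_par)
open Pool.Agent.H.MP_5be563_lc.PT

variable {α : Type} [Enc α]

private theorem NxtP_c {β : Type} [Enc β] (b : β) : Poly (fun _ : α => b) :=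
  Pool.Agent.H.MP_5be563_lc.PT.Poly.const b

private theorem NxtP_epow {fM : α → List Bool} {fa fb : α → Ed}
    (hM : Poly fM) (ha : Poly fa) (hb : Poly fb) :
    Poly (fun x => epow (fM x) (fa x) (fb x)) := by
  have hmd : Poly (fun x => Pool.Agent.TW.md (fM x)) := Pool.Agent.TW.Poly.md hM
  have a1 : Poly (fun x => (fa x).1.1) := Poly.comp Poly.fst (Poly.comp Poly.fst ha)
  have a2 : Poly (fun x => (fa x).1.2) := Poly.comp Poly.snd (Poly.comp Poly.fst ha)
  have a3 : Poly (fun x => (fa x).2.1) := Poly.comp Poly.fst (Poly.comp Poly.snd ha)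
  have a4 : Poly (fun x => (fa x).2.2) := Poly.comp Poly.snd (Poly.comp Poly.snd ha)
  have b2 : Poly (fun x => (fb x).1.2) := Poly.comp Poly.snd (Poly.comp Poly.fst hb)
  have b4 : Poly (fun x => (fb x).2.2) := Poly.comp Poly.snd (Poly.comp Poly.snd hb)
  unfold epow
  exact Poly.pair
    (Poly.pair (Pool.Agent.TI.Poly.bpw a1 b2 hmd)
      (Poly.cond (Poly.or b4 (Poly.not a3)) (Pool.Agent.TI.Poly.bpw a2 b2 hmd) (NxtP_c _)))
    (Poly.pair a3 (Poly.or (Poly.and a4 b4) (Poly.not a3)))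

private theorem NxtP_enew {fM : α → List Bool} {fq : α → Tok} {fs : α → List Ed}
    (hM : Poly fM) (hq : Poly fq) (hs : Poly fs) :
    Poly (fun x => enew (fM x) (fq x) (fs x)) := by
  have hq1 : Poly (fun x => (fq x).1) := Poly.comp Poly.fst hq
  have h1 : Poly (fun x => (fs x).headD ed0) := Poly.headD hs (NxtP_c ed0)
  have h2 : Poly (fun x => (fs x).tail.headD ed0) := Poly.headD (Poly.tail hs) (NxtP_c ed0)
  have a1 : Poly (fun x => ((fs x).headD ed0).1.1) := Poly.comp Poly.fst (Poly.comp Poly.fst h1)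
  have a2 : Poly (fun x => ((fs x).headD ed0).1.2) := Poly.comp Poly.snd (Poly.comp Poly.fst h1)
  have a3 : Poly (fun x => ((fs x).headD ed0).2.1) := Poly.comp Poly.fst (Poly.comp Poly.snd h1)
  have a4 : Poly (fun x => ((fs x).headD ed0).2.2) := Poly.comp Poly.snd (Poly.comp Poly.snd h1)
  have b1 : Poly (fun x => ((fs x).tail.headD ed0).1.1) :=
    Poly.comp Poly.fst (Poly.comp Poly.fst h2)
  have b2 : Poly (fun x => ((fs x).tail.headD ed0).1.2) :=
    Poly.comp Poly.snd (Poly.comp Poly.fst h2)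
  have b3 : Poly (fun x => ((fs x).tail.headD ed0).2.1) :=
    Poly.comp Poly.fst (Poly.comp Poly.snd h2)
  have b4 : Poly (fun x => ((fs x).tail.headD ed0).2.2) :=
    Poly.comp Poly.snd (Poly.comp Poly.snd h2)
  unfold enew
  exact Poly.cond (Poly.isZero hq1) (NxtP_c ed0) (Poly.cond (Poly.nateq hq1 (NxtP_c 4)) (NxtP_c _)
    (Poly.cond (Poly.nateq hq1 (NxtP_c 1))
      (Poly.pair (Poly.pair (Pool.Agent.TW.Poly.rad hM a1 b1) (Pool.Agent.TW.Poly.rad hM a2 b2))
        (Poly.pair (NxtP_c true) (Poly.and a4 b4)))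
      (Poly.cond (Poly.nateq hq1 (NxtP_c 2))
        (Poly.pair (Poly.pair (Pool.Agent.TW.Poly.rmu hM a1 b1) (Pool.Agent.TW.Poly.rmu hM a2 b2))
          (Poly.pair (Poly.or a3 b3) (Poly.and a4 b4)))
        (NxtP_epow hM h1 h2))))

private theorem NxtP_estep {fM : α → List Bool} {fq : α → Tok}
    {fs : α → List Ed × List (List Bool)}
    (hM : Poly fM) (hq : Poly fq) (hs : Poly fs) :
    Poly (fun a => estep (fM a) (fq a) (fs a)) := by
  have s1 : Poly (fun a => (fs a).1) := Poly.comp Poly.fst hs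
  have s2 : Poly (fun a => (fs a).2) := Poly.comp Poly.snd hs
  have h1 : Poly (fun a => (fs a).1.headD ed0) := Poly.headD s1 (NxtP_c ed0)
  have h2 : Poly (fun a => ((fs a).1.headD ed0).1.1) :=
    Poly.comp Poly.fst (Poly.comp Poly.fst h1)
  have hq1 : Poly (fun a => (fq a).1) := Poly.comp Poly.fst hq
  have hq0 : Poly (fun a => decide ((fq a).1 = 0)) := Poly.isZero hq1
  have hq4 : Poly (fun a => decide ((fq a).1 = 4)) := Poly.nateq hq1 (NxtP_c 4)
  have hu := NxtP_enew hM hq s1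
  have hw : Poly (fun a => bif decide ((fq a).1 = 3) then ((fs a).1.headD ed0).1.1
      else [true]) :=
    Poly.cond (Poly.nateq hq1 (NxtP_c 3)) h2 (NxtP_c _)
  have hr : Poly (fun a => bif decide ((fq a).1 = 0) || decide ((fq a).1 = 4) then (fs a).1
      else (fs a).1.tail.tail) :=
    Poly.cond (Poly.or hq0 hq4) s1 (Poly.tail (Poly.tail s1))
  have h7 := Poly.pair (Poly.lcons hu hr) (Poly.append s2
    (Poly.lcons hw (NxtP_c ([] : List (List Bool)))))
  exact h7

private theorem NxtP_sz (M : List Bool) (T l₁ l₂ : List Tok) (h : T = l₁ ++ l₂) :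
    sz (erun M l₂) ≤ (sz T * (2 * (4 * (sz M + 4) + 1) + 20) + 1) +
      (sz T * (4 * (sz M + 4) + 2) + 1) + 3 := by
  obtain ⟨h1, h2, h3, h4⟩ := erun_len M l₂
  have hT : l₂.length ≤ sz T := by
    have h5 := length_lt_sz T
    have h6 : l₂.length ≤ T.length := by
      rw [h, List.length_append]
      omega
    omega
  have he := length_lt_sz M
  have k1 : sz (erun M l₂).1 ≤ sz T * (2 * (4 * (sz M + 4) + 1) + 20) + 1 := by
    refine (sz_le_of_forall _ (2 * (4 * (sz M + 4) + 1) + 19) fun x hx => ?_).trans ?_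
    · obtain ⟨g1, g2⟩ := h3 x hx
      have f1 := (sz_bool_list x.1.1).2
      have f2 := (sz_bool_list x.1.2).2
      have f3 := sz_bool_le x.2.1
      have f4 := sz_bool_le x.2.2
      have e1 : sz x = (sz x.1.1 + sz x.1.2 + 1) + (sz x.2.1 + sz x.2.2 + 1) + 1 := rfl
      rw [e1]
      omega
    · exact Nat.add_le_add_right (Nat.mul_le_mul_right _ (h1.trans hT)) 1
  have k2 : sz (erun M l₂).2 ≤ sz T * (4 * (sz M + 4) + 2) + 1 := by
    refine (sz_le_of_forall _ (4 * (sz M + 4) + 1) fun x hx => ?_).trans ?_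
    · have g1 := h4 x hx
      have f1 := (sz_bool_list x).2
      omega
    · exact Nat.add_le_add_right (Nat.mul_le_mul_right _ (h2.le.trans hT)) 1
  rw [sz_prod]
  omega

theorem NxtP_erun {fM : α → List Bool} {fT : α → List Tok} (hM : Poly fM) (hT : Poly fT) :
    Poly (fun a => erun (fM a) (fT a)) := by
  have hf : Poly (fun p : α × (List Ed × List (List Bool)) × Tok =>
      estep (fM p.1) p.2.2 p.2.1) :=
    NxtP_estep (hM.comp Poly.fst) (Poly.comp Poly.snd Poly.snd) (Poly.comp Poly.fst Poly.snd)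
  exact Poly.foldr
    (f := fun p : α × (List Ed × List (List Bool)) × Tok =>
      estep (fM p.1) p.2.2 p.2.1)
    (l := fT) (s0 := fun _ => (([], []) : List Ed × List (List Bool)))
    (B := fun a => (sz (fT a) * (2 * (4 * (sz (fM a) + 4) + 1) + 20) + 1) +
      (sz (fT a) * (4 * (sz (fM a) + 4) + 2) + 1) + 3) hf hT
    (NxtP_c _)
    (((hT.sz_le.mul (((PBdd.const 2).mul (((PBdd.const 4).mul (hM.sz_le.add
      (PBdd.const 4))).add (PBdd.const 1))).add (PBdd.const 20))).add (PBdd.const 1)).add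
      ((hT.sz_le.mul (((PBdd.const 4).mul (hM.sz_le.add
      (PBdd.const 4))).add (PBdd.const 2))).add (PBdd.const 1)) |>.add
      (PBdd.const 3)) (by
      intro a l₁ l₂ h
      exact NxtP_sz (fM a) (fT a) l₁ l₂ h)

theorem NxtP_Mn {fn : α → ℕ} (hn : Poly fn) : Poly (fun a => Mn (fn a)) :=
  Pool.Agent.TW.poly_pow2 (Poly.add hn (NxtP_c 2))

theorem poly_baseT {fn : α → ℕ} {fT : α → List Tok} (hn : Poly fn) (hT : Poly fT) :
    Poly (fun a => baseT (fn a) (fT a)) := by
  obtain ⟨-, -, -, -, -, -, -, -, -, h10⟩ := poly_par hn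
  unfold baseT
  exact Pool.Agent.TC.poly_cob (by fun_prop) h10
    (Poly.comp Poly.snd (NxtP_erun (NxtP_Mn hn) hT))

theorem poly_nxt {fn : α → ℕ} {fe : α → List Bool} {fN fB : α → List (List Bool)}
    {fT : α → List Tok} {fi : α → ℕ} {ft : α → List (List SI)}
    {fz : α → List Bool} (hn : Poly fn) (he : Poly fe) (hN : Poly fN) (hB : Poly fB)
    (hT : Poly fT) (hi : Poly fi) (ht : Poly ft) (hz : Poly fz) :
    Poly (fun a => nxt (fn a) (fe a) (fN a) (fB a) (fT a) (fi a) (ft a) (fz a)) := by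
  obtain ⟨h1, h2, h3, h4, h5, h6, -, -, -, -⟩ := poly_par hn
  obtain ⟨g1, g2, g3, g4, g5, g6, -, -, -, -⟩ :=
    poly_par (f := fun p : α × ℕ => fn p.1) (by fun_prop)
  unfold nxt
  refine Pool.Agent.TW.poly_ltab he (Pool.Agent.TW.poly_pow2 h1) (Pool.Agent.TW.poly_pow2 h2) h6
    (Poly.add hi (NxtP_c 1)) ?_
  refine Pool.Agent.TW.poly_pivots he (Poly.add hi (NxtP_c 1)) ?_
  refine H.MP_5be563_lc.PT.Poly.map (f := fun a j => hrow (fe a) (Mn (fn a)) (vv (fn a))
    (fn a + 1) (fn a) (fN a) (fB a) (ft a) (fT a) (fi a)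
    (Pool.Agent.TE.bl (Qw (fn a) * vv (fn a)) (fz a) j))
    ?_ (Poly.range h5)
  exact poly_hrow (he.comp Poly.fst) (NxtP_Mn (hn.comp Poly.fst)) g3
    (Poly.add (hn.comp Poly.fst) (NxtP_c 1)) (hn.comp Poly.fst)
    (hN.comp Poly.fst) (hB.comp Poly.fst) (ht.comp Poly.fst) (hT.comp Poly.fst)
    (hi.comp Poly.fst) (Pool.Agent.TW.poly_bl (Poly.mul g4 g3) (hz.comp Poly.fst) Poly.snd)

end Pool.Agent.TD
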