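import Pool.Agent.H.MP_b2d7dd_lc.TD.Sc
import Pool.Agent.H.MP_b2d7dd_lc.TC.Pv

/-!
# Module Pv: parallel values

`Pv W as F ρ lam`: `ρ` = values of the terms in a field, `lam` = their logarithms, for terms over the
list: both depend only on the function of the term; `ρ` is compatible with `1`, sums and products,
`lam` with products and with the powers of the list.
-/

namespace Pool.Agent.TD

open Pool.Agent.TI (Tm)
open Pool.Agent.TC (Pt rf rf_pos Rl num)

variable {W : Finset (List Bool)} {as : List Tm} {F : Type} [Field F] [CharZero F]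

/-- Parallel values. -/
structure Pv (W : Finset (List Bool)) (as : List Tm) (F : Type) [Field F] (ρ lam : Tm → F) :
    Prop where
  one : ρ .one = 1
  add : ∀ s t, ats s ⊆ At W as → ats t ⊆ At W as → ρ (.add s t) = ρ s + ρ t
  mul : ∀ s t, ats s ⊆ At W as → ats t ⊆ At W as → ρ (.mul s t) = ρ s * ρ t
  ext : ∀ s t, ats s ⊆ At W as → ats t ⊆ At W as → rf W s = rf W t → ρ s = ρ t
  lmul : ∀ s t, ats s ⊆ At W as → ats t ⊆ At W as → lam (.mul s t) = lam s + lam t
  lext : ∀ s t, ats s ⊆ At W as → ats t ⊆ At W as → rf W s = rf W t → lam s = lam t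
  lpow : ∀ a b, ats (.pow a b) ⊆ At W as → ats b ⊆ At W as → lam (.pow a b) = ρ b * lam a
  ne : ∀ t, ats t ⊆ At W as → ρ t ≠ 0

theorem ats_num (n : ℕ) : ats (num n) = ∅ := by
  induction n with
  | zero => rfl
  | succ n ih =>
    cases n with
    | zero => rfl
    | succ n =>
      show ats (num (n + 1)) ∪ (∅ : Set Tm) = ∅
      rw [ih, Set.union_empty]

private theorem Pv_one_ats : ats .one ⊆ At W as := Set.empty_subset _

private theorem Pv_mul_ats {s t : Tm} (hs : ats s ⊆ At W as) (ht : ats t ⊆ At W as) :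
    ats (.mul s t) ⊆ At W as := Set.union_subset hs ht

private theorem Pv_log_mul (s t : Tm) (x : Pt W) :
    Real.log (rf W (.mul s t) x) = Real.log (rf W s x) + Real.log (rf W t x) :=
  Real.log_mul (rf_pos W s x).ne' (rf_pos W t x).ne'

private theorem Pv_log_one (x : Pt W) : Real.log (rf W .one x) = 0 := Real.log_one

private theorem Pv_lam_one {F : Type} [Field F] {ρ lam : Tm → F} (h : Pv W as F ρ lam) :
    lam .one = 0 := by
  have h1 := h.lmul .one .one Pv_one_ats Pv_one_ats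
  have h2 := h.lext (.mul .one .one) .one (Pv_mul_ats Pv_one_ats Pv_one_ats) Pv_one_ats (by
    funext x
    show (1 : ℝ) * 1 = 1
    norm_num)
  rw [h2] at h1
  exact left_eq_add.1 h1

private theorem Pv_pow {b : Tm} (hb : ats b ⊆ At W as) (n : ℕ) :
    ∃ A : Tm, ats A ⊆ At W as ∧ (∀ x, Real.log (rf W A x) = n * Real.log (rf W b x)) ∧
      ∀ (F : Type) [Field F] (ρ lam : Tm → F), Pv W as F ρ lam → lam A = n * lam b := by
  induction n with
  | zero =>
    refine ⟨.one, Pv_one_ats, fun x => ?_, fun F _ ρ lam h => ?_⟩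
    · rw [Pv_log_one, Nat.cast_zero, zero_mul]
    · rw [Pv_lam_one h, Nat.cast_zero, zero_mul]
  | succ n ih =>
    obtain ⟨A, hA, lA, mA⟩ := ih
    refine ⟨.mul A b, Pv_mul_ats hA hb, fun x => ?_, fun F _ ρ lam h => ?_⟩
    · rw [Pv_log_mul, lA, Nat.cast_succ, add_mul, one_mul]
    · rw [h.lmul A b hA hb, mA F ρ lam h, Nat.cast_succ, add_mul, one_mul]

private theorem Pv_prod {J : Type} (s : Finset J) (b : J → Tm)
    (hb : ∀ j ∈ s, ats (b j) ⊆ At W as) (n : J → ℕ) :
    ∃ A : Tm, ats A ⊆ At W as ∧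
      (∀ x, Real.log (rf W A x) = ∑ j ∈ s, (n j : ℝ) * Real.log (rf W (b j) x)) ∧
      ∀ (F : Type) [Field F] (ρ lam : Tm → F), Pv W as F ρ lam →
        lam A = ∑ j ∈ s, (n j : F) * lam (b j) := by
  classical
  induction s using Finset.induction_on with
  | empty =>
    refine ⟨.one, Pv_one_ats, fun x => ?_, fun F _ ρ lam h => ?_⟩
    · rw [Pv_log_one, Finset.sum_empty]
    · rw [Pv_lam_one h, Finset.sum_empty]
  | insert j s hj ih =>
    obtain ⟨A, hA, lA, mA⟩ := ih fun i hi => hb i (Finset.mem_insert_of_mem hi)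
    obtain ⟨B, hB, lB, mB⟩ := Pv_pow (hb j (Finset.mem_insert_self _ _)) (n j)
    refine ⟨.mul B A, Pv_mul_ats hB hA, fun x => ?_, fun F _ ρ lam h => ?_⟩
    · rw [Pv_log_mul, lA, lB, Finset.sum_insert hj]
    · rw [h.lmul B A hB hA, mA F ρ lam h, mB F ρ lam h, Finset.sum_insert hj]

/-- Relations between logarithms. -/
theorem Pv.rel {ρ lam : Tm → F} (h : Pv W as F ρ lam) {J : Type} (s : Finset J) (b : J → Tm)
    (hb : ∀ j ∈ s, ats (b j) ⊆ At W as) (k : J → ℤ)
    (h0 : ∀ x, ∑ j ∈ s, (k j : ℝ) * Real.log (rf W (b j) x) = 0) :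
    ∑ j ∈ s, (k j : F) * lam (b j) = 0 := by
  obtain ⟨A, hA, lA, mA⟩ := Pv_prod s b hb fun j => (k j).toNat
  obtain ⟨B, hB, lB, mB⟩ := Pv_prod s b hb fun j => (-k j).toNat
  have hk : ∀ j, k j = ((k j).toNat : ℤ) - ((-k j).toNat : ℤ) := fun j => by omega
  have h1 : rf W A = rf W B := by
    funext x
    apply Real.log_injOn_pos (rf_pos W A x) (rf_pos W B x)
    rw [lA, lB, ← sub_eq_zero, ← Finset.sum_sub_distrib, ← h0 x]
    refine Finset.sum_congr rfl fun j _ => ?_
    rw [← sub_mul]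
    congr 1
    exact_mod_cast (hk j).symm
  have h2 := h.lext A B hA hB h1
  rw [mA F ρ lam h, mB F ρ lam h, ← sub_eq_zero, ← Finset.sum_sub_distrib] at h2
  rw [← h2]
  refine Finset.sum_congr rfl fun j _ => ?_
  rw [← sub_mul]
  congr 1
  exact_mod_cast congrArg (Int.cast : ℤ → F) (hk j)

/-- A common denominator. -/
private theorem Pv_den {as' : List Tm} {v : Pt W → ℝ} (hv : v ∈ Vs W as') :
    ∃ D : ℕ, 1 ≤ D ∧ ∃ f ∈ Finsupp.supported ℤ ℤ (At W as'),
      (D : ℤ) • v = Finsupp.linearCombination ℤ (lr W) f := by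
  unfold Vs at hv
  induction hv using Submodule.span_induction with
  | mem x hx =>
    obtain ⟨c, hc, rfl⟩ := hx
    refine ⟨1, le_refl _, Finsupp.single c 1, Finsupp.single_mem_supported ℤ 1 hc, ?_⟩
    rw [Finsupp.linearCombination_single, Nat.cast_one]
  | zero => exact ⟨1, le_refl _, 0, zero_mem _, by rw [map_zero, smul_zero]⟩
  | add x y _ _ h1 h2 =>
    obtain ⟨D1, hD1, f1, hf1, e1⟩ := h1
    obtain ⟨D2, hD2, f2, hf2, e2⟩ := h2
    refine ⟨D1 * D2, Nat.one_le_iff_ne_zero.2 (by positivity), (D2 : ℤ) • f1 + (D1 : ℤ) • f2,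
      add_mem (Submodule.smul_mem _ _ hf1) (Submodule.smul_mem _ _ hf2), ?_⟩
    rw [map_add, map_smul, map_smul, ← e1, ← e2, smul_smul, smul_smul, smul_add]
    congr 1
    congr 1
    push_cast
    ring
  | smul q x _ h1 =>
    obtain ⟨D, hD, f, hf, e⟩ := h1
    have hd := q.den_pos
    refine ⟨D * q.den, Nat.one_le_iff_ne_zero.2 (by positivity), q.num • f,
      Submodule.smul_mem _ _ hf, ?_⟩
    rw [map_smul, ← e]
    funext t
    have h2 : (q : ℝ) * (q.den : ℝ) = (q.num : ℝ) := by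
      exact_mod_cast Rat.mul_den_eq_num q
    show ((D * q.den : ℕ) : ℤ) • (q • x t) = q.num • ((D : ℤ) • x t)
    rw [zsmul_eq_mul, zsmul_eq_mul, zsmul_eq_mul, Rat.smul_def, ← h2]
    push_cast
    ring

/-- Sums of exponentials. -/
private def Pv_E (W : Finset (List Bool)) (as : List Tm) (f : Pt W → ℝ) : Prop :=
  ∃ (ι : Type) (_ : Fintype ι) (_ : Nonempty ι) (w : ι → Vs W as),
      ∀ x, f x = ∑ i, Real.exp ((w i : Pt W → ℝ) x)

private theorem Pv_E_one : Pv_E W as fun _ => 1 := by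
  refine ⟨Unit, inferInstance, inferInstance, fun _ => 0, fun x => ?_⟩
  rw [Finset.univ_unique, Finset.sum_singleton]
  show (1 : ℝ) = Real.exp 0
  rw [Real.exp_zero]

private theorem Pv_E_exp {v : Pt W → ℝ} (hv : v ∈ Vs W as) : Pv_E W as fun x => Real.exp (v x) := by
  refine ⟨Unit, inferInstance, inferInstance, fun _ => ⟨v, hv⟩, fun x => ?_⟩
  rw [Finset.univ_unique, Finset.sum_singleton]

private theorem Pv_E_add {f g : Pt W → ℝ} (hf : Pv_E W as f) (hg : Pv_E W as g) :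
    Pv_E W as fun x => f x + g x := by
  obtain ⟨ι, i1, i2, u, hu⟩ := hf
  obtain ⟨κ, k1, k2, v, hv⟩ := hg
  refine ⟨ι ⊕ κ, inferInstance, inferInstance, Sum.elim u v, fun x => ?_⟩
  show f x + g x = _
  rw [Fintype.sum_sum_type, hu, hv]
  rfl

private theorem Pv_E_mul {f g : Pt W → ℝ} (hf : Pv_E W as f) (hg : Pv_E W as g) :
    Pv_E W as fun x => f x * g x := by
  obtain ⟨ι, i1, i2, u, hu⟩ := hf
  obtain ⟨κ, k1, k2, v, hv⟩ := hg
  refine ⟨ι × κ, inferInstance, inferInstance, fun p => u p.1 + v p.2, fun x => ?_⟩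
  show f x * g x = _
  rw [hu, hv, Finset.sum_mul_sum, Fintype.sum_prod_type]
  refine Finset.sum_congr rfl fun i _ => Finset.sum_congr rfl fun j _ => ?_
  rw [← Real.exp_add]
  rfl

private theorem Pv_E_pow {f : Pt W → ℝ} (hf : Pv_E W as f) (n : ℕ) :
    Pv_E W as fun x => f x ^ n := by
  induction n with
  | zero =>
    have h1 : (fun x => f x ^ 0) = fun _ : Pt W => (1 : ℝ) := by
      funext x
      exact pow_zero _
    rw [h1]
    exact Pv_E_one
  | succ n ih =>
    have h1 : (fun x => f x ^ (n + 1)) = fun x : Pt W => f x ^ n * f x := by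
      funext x
      exact pow_succ _ _
    rw [h1]
    exact Pv_E_mul ih hf

/-- The terms as sums of exponentials. -/
private theorem Pv_exps {t : Tm} (ht : ats t ⊆ At W as) : Pv_E W as (rf W t) := by
  induction t with
  | one => exact Pv_E_one
  | var w =>
    have h1 : rf W (.var w) = fun x => Real.exp (lr W (.var w) x) := by
      funext x
      exact rf_var W w x
    rw [h1]
    exact Pv_E_exp (Submodule.subset_span ⟨.var w, ht rfl, rfl⟩)
  | add s t hs ht' =>
    exact Pv_E_add (hs (Set.subset_union_left.trans ht)) (ht' (Set.subset_union_right.trans ht))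
  | mul s t hs ht' =>
    exact Pv_E_mul (hs (Set.subset_union_left.trans ht)) (ht' (Set.subset_union_right.trans ht))
  | pow s t hs _ =>
    have h1 : rf W (.pow s t) = fun x => Real.exp (lr W (.pow s t) x) * rf W s x ^ cs t := by
      funext x
      exact rf_pow W s t x
    rw [h1]
    refine Pv_E_mul (Pv_E_exp ?_) (Pv_E_pow (hs (Set.subset_union_right.trans ht)) _)
    by_cases hT : Tr s t
    · exact Submodule.subset_span ⟨.pow s t, ht (Or.inl ⟨rfl, hT⟩), rfl⟩
    · rw [lr_zero hT]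
      exact zero_mem _

/-- The quotient of two terms, if constant, is rational. -/
private theorem Pv_quot (hc : Cl W as) {A B : Tm} (hA : ats A ⊆ At W as)
    (hB : ats B ⊆ At W as) {e : ℝ} (h : ∀ x, rf W A x = e * rf W B x) :
    ∃ p₁ p₂ : ℕ, 1 ≤ p₁ ∧ 1 ≤ p₂ ∧ (p₁ : ℝ) * e = p₂ := by
  classical
  obtain ⟨ι, i1, i2, u, hu⟩ := Pv_exps hA
  obtain ⟨κ, k1, k2, v, hv⟩ := Pv_exps hB
  have hfg : (∑ i, Finsupp.single (u i) (1 : ℝ)) = ∑ j, Finsupp.single (v j) e := by
    apply exp_ind hc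
    rw [map_sum, map_sum]
    funext x
    have h1 := h x
    rw [hu, hv, Finset.mul_sum] at h1
    rw [Finset.sum_apply, Finset.sum_apply]
    simp only [Finsupp.linearCombination_single, Pi.smul_apply, smul_eq_mul, one_mul]
    exact h1
  obtain ⟨i0⟩ := i2
  have h2 := DFunLike.congr_fun hfg (u i0)
  rw [Finsupp.finsetSum_apply, Finsupp.finsetSum_apply] at h2
  simp only [Finsupp.single_apply] at h2
  rw [← Finset.sum_filter, ← Finset.sum_filter, Finset.sum_const, Finset.sum_const, nsmul_eq_mul,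
    nsmul_eq_mul, mul_one] at h2
  have h3 : 1 ≤ (Finset.univ.filter fun i => u i = u i0).card :=
    Finset.card_pos.2 ⟨i0, Finset.mem_filter.2 ⟨Finset.mem_univ _, rfl⟩⟩
  refine ⟨(Finset.univ.filter fun j => v j = u i0).card,
    (Finset.univ.filter fun i => u i = u i0).card, ?_, h3, h2.symm⟩
  rw [Nat.one_le_iff_ne_zero]
  intro h4
  rw [h4, Nat.cast_zero, zero_mul, Nat.cast_eq_zero] at h2
  omega

private theorem Pv_at (hc : Cl W as) (c : Tm) : ∃ (a : Tm) (k : ℕ), c ∈ At W as →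
    ats c ⊆ At W as ∧ ats a ⊆ At W as ∧
      ∀ x, lr W c x = Real.log (rf W c x) - k * Real.log (rf W a x) := by
  by_cases h : c ∈ At W as
  · rcases h with ⟨w, hw, rfl⟩ | h
    · refine ⟨.one, 0, fun _ => ⟨?_, Pv_one_ats, fun x => ?_⟩⟩
      · rintro y rfl
        exact Or.inl ⟨w, hw, rfl⟩
      · rw [rf_var, Real.log_exp, Nat.cast_zero, zero_mul, sub_zero]
    · obtain ⟨a, b, rfl, h1, -, -⟩ := hc.nw c h
      refine ⟨a, cs b, fun _ => ⟨?_, h1, fun x => ?_⟩⟩
      · rintro y (⟨rfl, -⟩ | hy)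
        · exact Or.inr h
        · exact h1 hy
      · rw [rf_pow, Real.log_mul (Real.exp_pos _).ne' (pow_pos (rf_pos W a x) _).ne', Real.log_exp,
          Real.log_pow]
        ring
  · exact ⟨.one, 0, fun h1 => absurd h1 h⟩

/-- The relation for the logarithm of a term with integral coefficients; the constant is the logarithm
of a positive rational number. -/
theorem rat_rel {L : Finset (Pt W → ℝ)} (hc : Cl W as) (hs : Sc W as L) {as' : List Tm}
    (has : as' <:+ as) {a : Tm} (ha : ats a ⊆ At W as)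
    (hr : Rl (Vs W as') L fun x => Real.log (rf W a x)) :
    ∃ (M : ℕ) (m : (Pt W → ℝ) → ℤ) (S : Finset Tm) (q : Tm → ℤ) (p₁ p₂ : ℕ), 1 ≤ M ∧ 1 ≤ p₁ ∧
      1 ≤ p₂ ∧ ↑S ⊆ At W as' ∧ ∀ x, M * Real.log (rf W a x) + Real.log p₁ =
        ∑ l ∈ L, (m l : ℝ) * l x + ∑ c ∈ S, (q c : ℝ) * lr W c x + Real.log p₂ := by
  classical
  obtain ⟨M, m, v, c, hM, hv, hrel⟩ := hr
  obtain ⟨D, hD, f, hf, hDf⟩ := Pv_den hv
  have hfS : (f.support : Set Tm) ⊆ At W as' := (Finsupp.mem_supported _ _).1 hf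
  have hat : ∀ t ∈ f.support, t ∈ At W as := by
    intro t ht
    rcases hfS ht with h1 | h1
    · exact Or.inl h1
    · exact Or.inr (has.subset h1)
  have hvx : ∀ x, (D : ℝ) * v x = ∑ t ∈ f.support, (f t : ℝ) * lr W t x := by
    intro x
    have h1 := congrFun hDf x
    rw [Finsupp.linearCombination_apply, Finsupp.sum, Finset.sum_apply] at h1
    simp only [Pi.smul_apply, zsmul_eq_mul] at h1
    rw [← h1]
    push_cast
    rfl
  have hLb : ∀ l : Pt W → ℝ, ∃ b : Tm, l ∈ L → ats b ⊆ At W as ∧ l = fun x => Real.log (rf W b x) := by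
    intro l
    by_cases hl : l ∈ L
    · obtain ⟨b, hb⟩ := hs.lb l hl
      exact ⟨b, fun _ => hb⟩
    · exact ⟨.one, fun h => absurd h hl⟩
  choose b hb using hLb
  choose bt kt hbt using Pv_at hc
  obtain ⟨A1, hA1, lA1, -⟩ := Pv_pow ha (D * M)
  obtain ⟨A2, hA2, lA2, -⟩ := Pv_prod L b (fun l hl => (hb l hl).1) fun l => (-((D : ℤ) * m l)).toNat
  obtain ⟨A4, hA4, lA4, -⟩ := Pv_prod f.support (fun t => t) (fun t ht => (hbt t (hat t ht)).1)
    fun t => (-f t).toNat
  obtain ⟨A5, hA5, lA5, -⟩ := Pv_prod f.support bt (fun t ht => (hbt t (hat t ht)).2.1)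
    fun t => kt t * (f t).toNat
  obtain ⟨A3, hA3, lA3⟩ : ∃ A3 : Tm, ats A3 ⊆ At W as ∧ ∀ x, Real.log (rf W A3 x) =
      ∑ t ∈ f.support, ((-f t).toNat : ℝ) * Real.log (rf W t x) +
        ∑ t ∈ f.support, ((kt t * (f t).toNat : ℕ) : ℝ) * Real.log (rf W (bt t) x) :=
    ⟨.mul A4 A5, Pv_mul_ats hA4 hA5, fun x => by rw [Pv_log_mul, lA4, lA5]⟩
  obtain ⟨B2, hB2, lB2, -⟩ := Pv_prod L b (fun l hl => (hb l hl).1) fun l => ((D : ℤ) * m l).toNat
  obtain ⟨B4, hB4, lB4, -⟩ := Pv_prod f.support (fun t => t) (fun t ht => (hbt t (hat t ht)).1)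
    fun t => (f t).toNat
  obtain ⟨B5, hB5, lB5, -⟩ := Pv_prod f.support bt (fun t ht => (hbt t (hat t ht)).2.1)
    fun t => kt t * (-f t).toNat
  obtain ⟨B3, hB3, lB3⟩ : ∃ B3 : Tm, ats B3 ⊆ At W as ∧ ∀ x, Real.log (rf W B3 x) =
      ∑ t ∈ f.support, ((f t).toNat : ℝ) * Real.log (rf W t x) +
        ∑ t ∈ f.support, ((kt t * (-f t).toNat : ℕ) : ℝ) * Real.log (rf W (bt t) x) :=
    ⟨.mul B4 B5, Pv_mul_ats hB4 hB5, fun x => by rw [Pv_log_mul, lB4, lB5]⟩
  have hL : ∀ x, Real.log (rf W B2 x) - Real.log (rf W A2 x) =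
      ∑ l ∈ L, (((D : ℤ) * m l : ℤ) : ℝ) * l x := by
    intro x
    rw [lA2, lB2, ← Finset.sum_sub_distrib]
    refine Finset.sum_congr rfl fun l hl => ?_
    have h1 : l x = Real.log (rf W (b l) x) := congrFun (hb l hl).2 x
    rw [← sub_mul, ← h1]
    congr 1
    have h2 : ((((D : ℤ) * m l).toNat : ℤ)) - ((-((D : ℤ) * m l)).toNat : ℤ) = (D : ℤ) * m l := by
      omega
    exact_mod_cast h2
  have hS : ∀ x, Real.log (rf W B3 x) - Real.log (rf W A3 x) =
      ∑ t ∈ f.support, (f t : ℝ) * lr W t x := by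
    intro x
    rw [lA3, lB3, ← Finset.sum_add_distrib, ← Finset.sum_add_distrib, ← Finset.sum_sub_distrib]
    refine Finset.sum_congr rfl fun t ht => ?_
    rw [(hbt t (hat t ht)).2.2 x]
    have h2 : (((f t).toNat : ℤ)) - ((-f t).toNat : ℤ) = f t := by omega
    have h3 : (((f t).toNat : ℝ)) - ((-f t).toNat : ℝ) = f t := by exact_mod_cast h2
    rw [← h3]
    push_cast
    ring
  have hAB : ∀ x, rf W (.mul A1 (.mul A2 A3)) x = Real.exp (D * c) * rf W (.mul B2 B3) x := by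
    intro x
    apply Real.log_injOn_pos (rf_pos W _ x) (mul_pos (Real.exp_pos _) (rf_pos W _ x))
    rw [Real.log_mul (Real.exp_pos _).ne' (rf_pos W _ x).ne', Real.log_exp, Pv_log_mul, Pv_log_mul,
      Pv_log_mul, lA1]
    have h1 := hL x
    have h2 := hS x
    have h3 := hrel x
    have h4 := hvx x
    have h5 : ∑ l ∈ L, (((D : ℤ) * m l : ℤ) : ℝ) * l x = D * ∑ l ∈ L, (m l : ℝ) * l x := by
      rw [Finset.mul_sum]
      refine Finset.sum_congr rfl fun l _ => ?_
      push_cast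
      ring
    have h6 : (D : ℝ) * (M * Real.log (rf W a x)) =
        D * (∑ l ∈ L, (m l : ℝ) * l x + v x + c) := by
      rw [← h3]
    push_cast
    rw [h5] at h1
    rw [← h4] at h2
    linarith
  obtain ⟨p₁, p₂, hp₁, hp₂, hp⟩ := Pv_quot hc (Pv_mul_ats hA1 (Pv_mul_ats hA2 hA3))
    (Pv_mul_ats hB2 hB3) hAB
  refine ⟨D * M, fun l => (D : ℤ) * m l, f.support, f, p₁, p₂, ?_, hp₁, hp₂, hfS, fun x => ?_⟩
  · exact Nat.mul_pos hD hM
  · have hlog : Real.log p₁ + D * c = Real.log p₂ := by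
      rw [← hp, Real.log_mul (Nat.cast_ne_zero.2 (by omega)) (Real.exp_pos _).ne', Real.log_exp]
    have h3 := hrel x
    have h4 := hvx x
    have h5 : ∑ l ∈ L, (((D : ℤ) * m l : ℤ) : ℝ) * l x = D * ∑ l ∈ L, (m l : ℝ) * l x := by
      rw [Finset.mul_sum]
      refine Finset.sum_congr rfl fun l _ => ?_
      push_cast
      ring
    have h6 : (D : ℝ) * (M * Real.log (rf W a x)) =
        D * (∑ l ∈ L, (m l : ℝ) * l x + v x + c) := by
      rw [← h3]
    rw [h5, ← h4, ← hlog]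
    push_cast
    linarith

end Pool.Agent.TD
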