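import Pool.Agent.H.MP_b2d7dd_lc.TD.Fnc

/-!
# Module Sp: the spans of the logarithms of the variables and powers
-/

namespace Pool.Agent.TD

open Pool.Agent.TI (Tm)
open Pool.Agent.TC (Pt rf rf_pos V0 L0)

variable {W : Finset (List Bool)} {as : List Tm}

/-- The rational combinations. -/
noncomputable def Vs (W : Finset (List Bool)) (as : List Tm) : Submodule ℚ (Pt W → ℝ) :=
  Submodule.span ℚ (lr W '' At W as)

/-- The sums. -/
def Vm (W : Finset (List Bool)) (as : List Tm) : AddSubmonoid (Pt W → ℝ) :=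
  AddSubmonoid.closure (lr W '' At W as)

theorem Vm_le {v : Pt W → ℝ} (h : v ∈ Vm W as) : v ∈ Vs W as := by
  have h1 : Vm W as ≤ (Vs W as).toAddSubmonoid :=
    AddSubmonoid.closure_le.2 fun x hx => Submodule.subset_span hx
  exact h1 h

theorem Vs_nil : Vs W [] = V0 W := by
  unfold Vs V0
  congr 1
  ext f
  constructor
  · rintro ⟨a, ha, rfl⟩
    rcases ha with ⟨w, hw, rfl⟩ | ha
    · refine ⟨⟨w, hw⟩, ?_⟩
      funext t
      simp [lr, hw]
    · simp at ha
  · rintro ⟨w, rfl⟩
    refine ⟨.var w.1, Or.inl ⟨w.1, w.2, rfl⟩, ?_⟩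
    funext t
    simp [lr]

private theorem Sp_At (t : Tm) : At W (t :: as) = At W as ∪ {t} := by
  ext a
  constructor
  · rintro (h | h)
    · exact Or.inl (Or.inl h)
    · rcases List.mem_cons.1 h with h | h
      · exact Or.inr h
      · exact Or.inl (Or.inr h)
  · rintro (h | h)
    · exact Cl.at_cons t h
    · exact Or.inr (List.mem_cons.2 (Or.inl h))

theorem Vs_cons (t : Tm) : Vs W (t :: as) = Vs W as ⊔ Submodule.span ℚ {lr W t} := by
  unfold Vs
  rw [Sp_At, Set.image_union, Submodule.span_union, Set.image_singleton]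

theorem Vm_mono (t : Tm) : Vm W as ≤ Vm W (t :: as) := by
  exact AddSubmonoid.closure_mono (Set.image_mono (Cl.at_cons t))

theorem lr_mem_Vm {a : Tm} (h : a ∈ At W as) : lr W a ∈ Vm W as := by
  exact AddSubmonoid.subset_closure ⟨a, h, rfl⟩

/-- At the point `1` all values are at least `1`. -/
theorem rf_ge (t : Tm) : 1 ≤ rf W t (fun _ => 1) := by
  induction t with
  | one => exact le_rfl
  | var w =>
    unfold rf
    split_ifs
    · exact Real.one_le_exp zero_le_one
    · exact le_rfl
  | add a b ha hb =>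
    show 1 ≤ rf W a (fun _ => 1) + rf W b (fun _ => 1)
    linarith
  | mul a b ha hb =>
    show 1 ≤ rf W a (fun _ => 1) * rf W b (fun _ => 1)
    exact one_le_mul_of_one_le_of_one_le ha hb
  | pow a b ha hb =>
    show 1 ≤ Real.exp (rf W b (fun _ => 1) * Real.log (rf W a (fun _ => 1)))
    exact Real.one_le_exp (mul_nonneg (rf_pos W b _).le (Real.log_nonneg ha))

private theorem Sp_var (h : Cl W as) {w : List Bool} (ha : Tm.var w ∈ At W as) : w ∈ W := by
  rcases ha with ⟨w', hw', h2⟩ | h2
  · injection h2 with h3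
    rw [h3]
    exact hw'
  · obtain ⟨a, b, h3, _⟩ := h.nw _ h2
    exact absurd h3 (by simp)

theorem rf_gt (h : Cl W as) {t : Tm} (hb : big t = true) (ha : ats t ⊆ At W as) :
    1 < rf W t (fun _ => 1) := by
  induction t with
  | one => exact absurd hb (by simp [big])
  | var w =>
    have h1 : w ∈ W := Sp_var h (ha (show Tm.var w ∈ ats (Tm.var w) from rfl))
    have h2 : rf W (.var w) (fun _ => 1) = Real.exp 1 := by simp [rf, h1]
    rw [h2]
    exact Real.one_lt_exp_iff.2 one_pos
  | add a b _ _ =>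
    show 1 < rf W a (fun _ => 1) + rf W b (fun _ => 1)
    have h1 := rf_ge (W := W) a
    have h2 := rf_ge (W := W) b
    linarith
  | mul a b iha ihb =>
    show 1 < rf W a (fun _ => 1) * rf W b (fun _ => 1)
    have h1 := rf_ge (W := W) a
    have h2 := rf_ge (W := W) b
    have ha1 : ats a ⊆ At W as := Set.subset_union_left.trans ha
    have hb1 : ats b ⊆ At W as := Set.subset_union_right.trans ha
    have hb' : (big a || big b) = true := hb
    rcases Bool.or_eq_true_iff.1 hb' with hb | hb
    · exact one_lt_mul_of_lt_of_le (iha hb ha1) h2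
    · exact one_lt_mul_of_le_of_lt h1 (ihb hb hb1)
  | pow a b iha ihb =>
    show 1 < Real.exp (rf W b (fun _ => 1) * Real.log (rf W a (fun _ => 1)))
    have h1 : ats a ⊆ At W as := Set.subset_union_right.trans ha
    have hb' : big a = true := hb
    exact Real.one_lt_exp_iff.2 (mul_pos (rf_pos W b _) (Real.log_pos (iha hb' h1)))

private theorem Sp_ntr {a b : Tm} (h : (cst b || !big a) = true) : ¬ Tr a b := by
  rintro ⟨h1, h2⟩
  rw [h1, h2] at h
  exact absurd h (by simp)

private theorem Sp_tr {a b : Tm} (h : ¬ (cst b || !big a) = true) : Tr a b := by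
  rw [Bool.not_eq_true, Bool.or_eq_false_iff] at h
  refine ⟨?_, h.1⟩
  have h2 := h.2
  rwa [Bool.not_eq_false'] at h2

private theorem Sp_cs_pow {a b : Tm} (h : (cst b || !big a) = true) :
    cs (.pow a b) = cs a ^ cs b := by
  show (if cst b || !big a then cs a ^ cs b else 0) = _
  rw [if_pos h]

private theorem Sp_cs_pow0 {a b : Tm} (h : ¬ (cst b || !big a) = true) : cs (.pow a b) = 0 := by
  show (if cst b || !big a then cs a ^ cs b else 0) = _
  rw [if_neg h]

private theorem Sp_rf_ntr {a b : Tm} (h : ¬ Tr a b) (x : Pt W) :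
    rf W (.pow a b) x = rf W a x ^ cs b := by
  rw [rf_pow, lr_zero h]
  simp

private theorem Sp_cs {t : Tm} :
    (cs t : ℝ) ≤ rf W t (fun _ => 1) ∧ (cst t = false → (cs t : ℝ) < rf W t (fun _ => 1)) := by
  induction t with
  | one =>
    refine ⟨?_, fun h => absurd h (by simp [cst])⟩
    show ((1 : ℕ) : ℝ) ≤ 1
    norm_num
  | var w =>
    have h1 : ((cs (.var w) : ℕ) : ℝ) < rf W (.var w) (fun _ => 1) := by
      have h2 : ((cs (.var w) : ℕ) : ℝ) = 0 := by simp [cs]
      rw [h2]
      exact rf_pos W _ _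
    exact ⟨h1.le, fun _ => h1⟩
  | add a b iha ihb =>
    have e1 : ((cs (.add a b) : ℕ) : ℝ) = (cs a : ℝ) + cs b := by simp [cs]
    have e2 : rf W (.add a b) (fun _ => 1) = rf W a (fun _ => 1) + rf W b (fun _ => 1) := rfl
    rw [e1, e2]
    refine ⟨add_le_add iha.1 ihb.1, fun h => ?_⟩
    have h' : (cst a && cst b) = false := h
    rcases Bool.and_eq_false_iff.1 h' with h1 | h1
    · exact add_lt_add_of_lt_of_le (iha.2 h1) ihb.1
    · exact add_lt_add_of_le_of_lt iha.1 (ihb.2 h1)
  | mul a b iha ihb =>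
    have e1 : ((cs (.mul a b) : ℕ) : ℝ) = (cs a : ℝ) * cs b := by simp [cs]
    have e2 : rf W (.mul a b) (fun _ => 1) = rf W a (fun _ => 1) * rf W b (fun _ => 1) := rfl
    have pa := rf_pos W a (fun _ => 1)
    have pb := rf_pos W b (fun _ => 1)
    have na : (0 : ℝ) ≤ cs a := Nat.cast_nonneg _
    have nb : (0 : ℝ) ≤ cs b := Nat.cast_nonneg _
    rw [e1, e2]
    refine ⟨mul_le_mul iha.1 ihb.1 nb pa.le, fun h => ?_⟩
    have h' : (cst a && cst b) = false := h
    rcases Bool.and_eq_false_iff.1 h' with h1 | h1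
    · calc (cs a : ℝ) * cs b ≤ cs a * rf W b (fun _ => 1) := mul_le_mul_of_nonneg_left ihb.1 na
        _ < rf W a (fun _ => 1) * rf W b (fun _ => 1) := mul_lt_mul_of_pos_right (iha.2 h1) pb
    · calc (cs a : ℝ) * cs b ≤ rf W a (fun _ => 1) * cs b := mul_le_mul_of_nonneg_right iha.1 nb
        _ < rf W a (fun _ => 1) * rf W b (fun _ => 1) := mul_lt_mul_of_pos_left (ihb.2 h1) pa
  | pow a b iha ihb =>
    by_cases hc : (cst b || !big a) = true
    · rw [Sp_cs_pow hc, Sp_rf_ntr (Sp_ntr hc), Nat.cast_pow]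
      refine ⟨pow_le_pow_left₀ (Nat.cast_nonneg _) iha.1 _, fun h => ?_⟩
      have h' : ((cst a && cst b) || !big a) = false := h
      rw [Bool.or_eq_false_iff] at h'
      have hb : cst b = true := by
        rcases Bool.or_eq_true_iff.1 hc with h1 | h1
        · exact h1
        · rw [h'.2] at h1
          exact absurd h1 (by simp)
      have ha : cst a = false := by
        have h1 := h'.1
        rw [hb, Bool.and_true] at h1
        exact h1
      have hcb : cs b ≠ 0 := by
        have := cs_pos hb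
        omega
      exact pow_lt_pow_left₀ (iha.2 ha) (Nat.cast_nonneg _) hcb
    · rw [Sp_cs_pow0 hc, Nat.cast_zero]
      exact ⟨(rf_pos W _ _).le, fun _ => rf_pos W _ _⟩

/-- At the point `1` the value of a term that is not constant is larger than the constant summand. -/
theorem rf_gt_cs (h : Cl W as) {t : Tm} (hb : cst t = false) (ha : ats t ⊆ At W as) :
    cs t < rf W t (fun _ => 1) := by
  exact Sp_cs.2 hb

theorem lr_pt (h : Cl W as) {a : Tm} (ha : a ∈ At W as) : 0 < lr W a (fun _ => 1) := by
  rcases ha with ⟨w, hw, rfl⟩ | ha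
  · have h2 : lr W (.var w) (fun _ => 1) = 1 := by simp [lr, hw]
    rw [h2]
    exact one_pos
  · obtain ⟨s, b, rfl, h1, h2, h3, h4⟩ := h.nw _ ha
    show 0 < (rf W b (fun _ => 1) - cs b) * Real.log (rf W s (fun _ => 1))
    exact mul_pos (sub_pos.2 (rf_gt_cs h h4 h2)) (Real.log_pos (rf_gt h h3 h1))

theorem Vm_pt (h : Cl W as) {v : Pt W → ℝ} (hv : v ∈ Vm W as) :
    v = 0 ∨ 0 < v (fun _ => 1) := by
  induction hv using AddSubmonoid.closure_induction with
  | mem x hx =>
    obtain ⟨a, ha, rfl⟩ := hx
    exact Or.inr (lr_pt h ha)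
  | zero => exact Or.inl rfl
  | add x y _ _ hx hy =>
    rcases hx with rfl | hx
    · rw [zero_add]
      exact hy
    · rcases hy with rfl | hy
      · rw [add_zero]
        exact Or.inr hx
      · exact Or.inr (add_pos hx hy)

theorem Vm_add (h : Cl W as) {v w : Pt W → ℝ} (hv : v ∈ Vm W as) (hw : w ∈ Vm W as)
    (h0 : v ≠ 0) : v + w ≠ 0 := by
  intro h1
  have h2 : v (fun _ => 1) + w (fun _ => 1) = 0 := congrFun h1 (fun _ => 1)
  have h3 : 0 < v (fun _ => 1) := (Vm_pt h hv).resolve_left h0
  rcases Vm_pt h hw with rfl | h4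
  · have h5 : v (fun _ => 1) + 0 = 0 := h2
    linarith
  · linarith

private theorem Sp_mul {A B : Set (Pt W → ℝ)} {f g : Pt W → ℝ} (C : Set (Pt W → ℝ))
    (hf : f ∈ Submodule.span ℝ A) (hg : g ∈ Submodule.span ℝ B)
    (h : ∀ a ∈ A, ∀ b ∈ B, (fun x => a x * b x) ∈ C) :
    (fun x => f x * g x) ∈ Submodule.span ℝ C := by
  have h1 : ∀ a ∈ A, (fun x => a x * g x) ∈ Submodule.span ℝ C := by
    intro a ha
    induction hg using Submodule.span_induction with
    | mem b hb => exact Submodule.subset_span (h a ha b hb)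
    | zero =>
      have h2 : (fun x : Pt W => a x * (0 : Pt W → ℝ) x) = 0 := by
        funext x
        simp
      rw [h2]
      exact Submodule.zero_mem _
    | add b c _ _ hb hc =>
      have h2 : (fun x : Pt W => a x * (b + c) x) = (fun x => a x * b x) + fun x => a x * c x := by
        funext x
        simp [mul_add]
      rw [h2]
      exact Submodule.add_mem _ hb hc
    | smul r b _ hb =>
      have h2 : (fun x : Pt W => a x * (r • b) x) = r • fun x => a x * b x := by
        funext x
        simp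
        ring
      rw [h2]
      exact Submodule.smul_mem _ r hb
  induction hf using Submodule.span_induction with
  | mem a ha => exact h1 a ha
  | zero =>
    have h2 : (fun x : Pt W => (0 : Pt W → ℝ) x * g x) = 0 := by
      funext x
      simp
    rw [h2]
    exact Submodule.zero_mem _
  | add b c _ _ hb hc =>
    have h2 : (fun x : Pt W => (b + c) x * g x) = (fun x => b x * g x) + fun x => c x * g x := by
      funext x
      simp [add_mul]
    rw [h2]
    exact Submodule.add_mem _ hb hc
  | smul r b _ hb =>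
    have h2 : (fun x : Pt W => (r • b) x * g x) = r • fun x => b x * g x := by
      funext x
      simp
      ring
    rw [h2]
    exact Submodule.smul_mem _ r hb

private theorem Sp_one :
    (fun _ : Pt W => (1 : ℝ)) ∈ Submodule.span ℝ {f | ∃ v ∈ Vm W as, f = fun x => Real.exp (v x)} := by
  refine Submodule.subset_span ⟨0, zero_mem _, ?_⟩
  funext x
  simp

private theorem Sp_pp {f g : Pt W → ℝ}
    (hf : f ∈ Submodule.span ℝ {f | ∃ v ∈ Vm W as, f = fun x => Real.exp (v x)})
    (hg : g ∈ Submodule.span ℝ {f | ∃ v ∈ Vm W as, f = fun x => Real.exp (v x)}) :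
    (fun x => f x * g x) ∈ Submodule.span ℝ {f | ∃ v ∈ Vm W as, f = fun x => Real.exp (v x)} := by
  refine Sp_mul _ hf hg ?_
  rintro _ ⟨v, hv, rfl⟩ _ ⟨w, hw, rfl⟩
  refine ⟨v + w, add_mem hv hw, ?_⟩
  funext x
  exact (Real.exp_add _ _).symm

private theorem Sp_powm {f : Pt W → ℝ}
    (hf : f ∈ Submodule.span ℝ {f | ∃ v ∈ Vm W as, f = fun x => Real.exp (v x)}) (k : ℕ) :
    (fun x => f x ^ k) ∈ Submodule.span ℝ {f | ∃ v ∈ Vm W as, f = fun x => Real.exp (v x)} := by
  induction k with
  | zero =>
    have h1 : (fun x => f x ^ 0) = fun _ : Pt W => (1 : ℝ) := by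
      funext x
      simp
    rw [h1]
    exact Sp_one
  | succ k ih =>
    have h1 : (fun x => f x ^ (k + 1)) = fun x => f x ^ k * f x := by
      funext x
      rw [pow_succ]
    rw [h1]
    exact Sp_pp ih hf

/-- The terms as sums of exponentials. -/
theorem rf_span {t : Tm} (ht : ats t ⊆ At W as) :
    rf W t ∈ Submodule.span ℝ {f | ∃ v ∈ Vm W as, f = fun x => Real.exp (v x)} := by
  induction t with
  | one => exact Sp_one
  | var w =>
    refine Submodule.subset_span ⟨lr W (.var w), lr_mem_Vm (ht rfl), ?_⟩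
    funext x
    exact rf_var W w x
  | add a b iha ihb =>
    exact Submodule.add_mem _ (iha (Set.subset_union_left.trans ht))
      (ihb (Set.subset_union_right.trans ht))
  | mul a b iha ihb =>
    exact Sp_pp (iha (Set.subset_union_left.trans ht)) (ihb (Set.subset_union_right.trans ht))
  | pow a b iha _ =>
    have ha : ats a ⊆ At W as := Set.subset_union_right.trans ht
    by_cases hT : Tr a b
    · have h1 : rf W (.pow a b) = fun x => Real.exp (lr W (.pow a b) x) * rf W a x ^ cs b := by
        funext x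
        exact rf_pow W a b x
      rw [h1]
      have h2 : Tm.pow a b ∈ At W as := ht (Or.inl ⟨rfl, hT⟩)
      exact Sp_pp (Submodule.subset_span ⟨lr W (.pow a b), lr_mem_Vm h2, rfl⟩)
        (Sp_powm (iha ha) _)
    · have h1 : rf W (.pow a b) = fun x => rf W a x ^ cs b := by
        funext x
        exact Sp_rf_ntr hT x
      rw [h1]
      exact Sp_powm (iha ha) _

private theorem Sp_np (h : Cl W as) {f g : Pt W → ℝ}
    (hf : f ∈ Submodule.span ℝ {f | ∃ v ∈ Vm W as, v ≠ 0 ∧ f = fun x => Real.exp (v x)})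
    (hg : g ∈ Submodule.span ℝ {f | ∃ v ∈ Vm W as, f = fun x => Real.exp (v x)}) :
    (fun x => f x * g x) ∈
      Submodule.span ℝ {f | ∃ v ∈ Vm W as, v ≠ 0 ∧ f = fun x => Real.exp (v x)} := by
  refine Sp_mul _ hf hg ?_
  rintro _ ⟨v, hv, h0, rfl⟩ _ ⟨w, hw, rfl⟩
  refine ⟨v + w, add_mem hv hw, Vm_add h hv hw h0, ?_⟩
  funext x
  exact (Real.exp_add _ _).symm

theorem rf_span_nc (h : Cl W as) {t : Tm} (ht : ats t ⊆ At W as) :
    (fun x => rf W t x - cs t) ∈
      Submodule.span ℝ {f | ∃ v ∈ Vm W as, v ≠ 0 ∧ f = fun x => Real.exp (v x)} := by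
  have hne : ∀ a ∈ At W as, lr W a ≠ 0 := by
    intro a ha h0
    have h1 := lr_pt h ha
    rw [h0] at h1
    exact lt_irrefl _ h1
  induction t with
  | one =>
    have h1 : (fun x => rf W .one x - cs .one) = (0 : Pt W → ℝ) := by
      funext x
      simp [rf, cs]
    rw [h1]
    exact Submodule.zero_mem _
  | var w =>
    have h1 : (fun x => rf W (.var w) x - cs (.var w)) =
        fun x => Real.exp (lr W (.var w) x) := by
      funext x
      rw [rf_var]
      simp [cs]
    rw [h1]
    exact Submodule.subset_span ⟨lr W (.var w), lr_mem_Vm (ht rfl), hne _ (ht rfl), rfl⟩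
  | add a b iha ihb =>
    have h1 : (fun x => rf W (.add a b) x - cs (.add a b)) =
        (fun x => rf W a x - cs a) + fun x => rf W b x - cs b := by
      funext x
      show rf W a x + rf W b x - ((cs a + cs b : ℕ) : ℝ) = (rf W a x - cs a) + (rf W b x - cs b)
      rw [Nat.cast_add]
      ring
    rw [h1]
    exact Submodule.add_mem _ (iha (Set.subset_union_left.trans ht))
      (ihb (Set.subset_union_right.trans ht))
  | mul a b iha ihb =>
    have ha := Set.subset_union_left.trans ht
    have hb := Set.subset_union_right.trans ht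
    have h1 : (fun x => rf W (.mul a b) x - cs (.mul a b)) =
        (fun x => (rf W a x - cs a) * rf W b x) + (cs a : ℝ) • fun x => rf W b x - cs b := by
      funext x
      show rf W a x * rf W b x - ((cs a * cs b : ℕ) : ℝ) =
        (rf W a x - cs a) * rf W b x + (cs a : ℝ) * (rf W b x - cs b)
      rw [Nat.cast_mul]
      ring
    rw [h1]
    exact Submodule.add_mem _ (Sp_np h (iha ha) (rf_span hb)) (Submodule.smul_mem _ _ (ihb hb))
  | pow a b iha _ =>
    have ha : ats a ⊆ At W as := Set.subset_union_right.trans ht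
    by_cases hc : (cst b || !big a) = true
    · have h1 : (fun x => rf W (.pow a b) x - cs (.pow a b)) =
          fun x => rf W a x ^ cs b - (cs a : ℝ) ^ cs b := by
        funext x
        rw [Sp_rf_ntr (Sp_ntr hc), Sp_cs_pow hc, Nat.cast_pow]
      rw [h1]
      generalize cs b = k
      induction k with
      | zero =>
        have h2 : (fun x => rf W a x ^ 0 - (cs a : ℝ) ^ 0) = (0 : Pt W → ℝ) := by
          funext x
          simp
        rw [h2]
        exact Submodule.zero_mem _
      | succ k ih =>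
        have h2 : (fun x => rf W a x ^ (k + 1) - (cs a : ℝ) ^ (k + 1)) =
            (fun x => (rf W a x - cs a) * rf W a x ^ k) +
              (cs a : ℝ) • fun x => rf W a x ^ k - (cs a : ℝ) ^ k := by
          funext x
          show rf W a x ^ (k + 1) - (cs a : ℝ) ^ (k + 1) =
            (rf W a x - cs a) * rf W a x ^ k + (cs a : ℝ) * (rf W a x ^ k - (cs a : ℝ) ^ k)
          ring
        rw [h2]
        exact Submodule.add_mem _ (Sp_np h (iha ha) (Sp_powm (rf_span ha) k))
          (Submodule.smul_mem _ _ ih)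
    · have hT := Sp_tr hc
      have h2 : Tm.pow a b ∈ At W as := ht (Or.inl ⟨rfl, hT⟩)
      have h1 : (fun x => rf W (.pow a b) x - cs (.pow a b)) =
          fun x => Real.exp (lr W (.pow a b) x) * rf W a x ^ cs b := by
        funext x
        rw [Sp_cs_pow0 hc, rf_pow]
        simp
      rw [h1]
      exact Sp_np h (Submodule.subset_span ⟨lr W (.pow a b), lr_mem_Vm h2, hne _ h2, rfl⟩)
        (Sp_powm (rf_span ha) _)

end Pool.Agent.TD
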