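import Pool.Agent.H.MP_b2d7dd_lc.TD.Snd
import Pool.Agent.H.MP_b2d7dd_lc.TD.Cmb
import Pool.Agent.H.MP_b2d7dd_lc.TD.Par

/-!
# Module StgC: a stage rarely fails

Compare TC/StgC (with the same local irreducible attributes).
-/

namespace Pool.Agent.TD

open Pool.Agent.TI (Tm Tok names Valid)
open Pool.Agent.TE (bl)
open Pool.Agent.TW (SI irow cnt)
open Pool.Agent.TC (Pt rf rf_pos evl Mo Su nrm Pr Gx Lx h1 h2 al ga lcP MB Vn Coh Fai Eqv Bas crd chi)
open Pool.Agent.TC (muB Pb Stk subs exF cob eN eP uu vv Kc Qw Rr kk SS AA KK)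
open Pool.Agent.H.MP_5be563_lc.PT Finset

private theorem StgC_SS (n : ℕ) : SS n = Rr n * (Qw n * vv n) := rfl

private theorem StgC_Aa (n : ℕ) :
    2 * (2 ^ (4 * (n + 3)) * 2 ^ eP n) * Qw n + Qw n = Aa n := rfl

private theorem StgC_Qw (n : ℕ) : Qw n = 3 * (n + 1) + Kc n := rfl

private theorem StgC_names (T : List Tok) : (names T).length ≤ T.length := by
  unfold names
  rw [List.length_map]
  exact List.length_filter_le _ _

/-- The function on `ℕ` with the given values on `S`. -/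
private def StgC_ext {K : Type} [Zero K] (S : Finset ℕ) (ψ : {s // s ∈ S} → K) (s : ℕ) : K :=
  if h : s ∈ S then ψ ⟨s, h⟩ else 0

/-- One hash. -/
private def StgC_Q (W : Finset (List Bool)) (n : ℕ) (e : List Bool) (N B : List (List Bool))
    (tab : List (List SI)) (ex : ℕ → Tm) (i : ℕ) (S : Finset ℕ) (θ : ℕ → ZMod (bval e + 2))
    (Z : List Bool) : Prop :=
  ∑ a ∈ S, θ a * hz W e (vv n) (n + 1) N B (tab.map irow) ex i Z a = 0

/-- The number of the strings for one block. -/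
private theorem StgC_blk (n : ℕ) (Q : List Bool → Prop) :
    cnt (SS n) (fun zz => ∀ j < Rr n, Q (bl (Qw n * vv n) zz j)) =
      cnt (Qw n * vv n) Q ^ Rr n := by
  rw [StgC_SS]
  exact Pool.Agent.TW.cnt_blocks Q

attribute [local irreducible] SS Rr Qw vv uu eP eN kk Aa Kc Ee cnt

private theorem StgC_one {W : Finset (List Bool)} {n : ℕ} {N B : List (List Bool)} {L : ℕ}
    {ex : ℕ → Tm} (hF : FamC W n L ex) {i : ℕ} (hi : i < L) {e : List Bool}
    (he : 2 ^ vv n ≤ bval e) (hp : (bval e + 2).Prime) (hN : N.length ≤ n)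
    (hNW : ∀ w ∈ W, w ∈ N) (hK : B.length ≤ Kc n)
    {tab : List (List SI)} (hc : Coh (fun a => lr W (ex a)) i (tab.map irow))
    (hf : Fai (fun a => lr W (ex a)) i (tab.map irow))
    (hP : ∀ row ∈ tab.map irow, ∀ a, |row a| ≤ (2 ^ eP n : ℕ)) (hl : tab.length ≤ n)
    {S : Finset ℕ} {D : ℤ} {m : ℕ → ℕ → ℤ}
    (hB : Bas (fun a => lr W (ex a)) (fun a => (cn W B.length (muB B) ex (i + 1) a).coeff) (i + 1)
      (2 ^ eN n) S D m)
    (θ : ℕ → ZMod (bval e + 2)) (hθ : ∃ s ∈ S, θ s ≠ 0) :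
    2 ^ vv n * cnt (Qw n * vv n) (StgC_Q W n e N B tab ex i S θ) ≤
      Aa n * (2 ^ vv n) ^ Qw n := by
  have hr : 2 ^ vv n < bval e + 2 := by omega
  have key : (∃ g, ∑ j ∈ S, θ j *
      (((cn W B.length (muB B) ex (i + 1) j).coeff g : ℤ) : ZMod (bval e + 2)) ≠ 0) →
      2 ^ vv n * cnt (Qw n * vv n) (StgC_Q W n e N B tab ex i S θ) ≤
      Aa n * (2 ^ vv n) ^ Qw n := by
    intro hg
    have hr2 : 2 ^ (n + 1) < bval e + 2 := by
      refine lt_of_le_of_lt (Nat.pow_le_pow_right two_pos ?_) hr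
      have := Pool.Agent.TC.vv_ge n
      omega
    have h0 := cnt_comb (n := n) (v := vv n) (P := 2 ^ eP n) (Q := Qw n) hF hp hr.le hr2 hN hNW hi
      hc hf hP Nat.one_le_two_pow (by rw [List.length_map]; exact hl) (B := B)
      (by rw [StgC_Qw]; omega) S hB.sub θ hg
    rw [StgC_Aa] at h0
    exact h0
  refine key ?_
  by_contra h1
  push Not at h1
  obtain ⟨s, hs, hs0⟩ := hθ
  refine hs0 (hB.indr (bval e + 2) hp ?_ θ h1 s hs)
  intro h2
  have h3 : |D| < ((bval e + 2 : ℕ) : ℤ) := by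
    refine lt_of_le_of_lt hB.Dle ?_
    have h4 : 2 ^ eN n < bval e + 2 := by
      have h5 := Pool.Agent.TC.par_Pr (n := n) hr
      have h6 : 1 ≤ 2 ^ eP n := Nat.one_le_two_pow
      nlinarith [Nat.one_le_two_pow (n := eN n)]
    exact_mod_cast h4
  exact hB.D0 (Int.eq_zero_of_abs_lt_dvd h2 h3)

theorem stage_cnt {n : ℕ} {s t : Tm} (hn : wt s + wt t ≤ n) {i : ℕ}
    (hi : i < s.sz + t.sz) {e : List Bool} (he : 2 ^ vv n ≤ bval e)
    (he2 : bval e < 2 ^ (2 * vv n)) (hp : (bval e + 2).Prime) {tab : List (List SI)}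
    (hc : Coh (lv s t) i (tab.map irow)) (hf : Fai (lv s t) i (tab.map irow))
    (hP : ∀ row ∈ tab.map irow, ∀ a, |row a| ≤ (2 ^ eP n : ℕ)) (hl : tab.length ≤ n) :
    8 * (n + 1) * cnt (SS n) (fun zz => ¬ Fai (lv s t) (i + 1)
      ((nxt n e (names (s.toks ++ t.toks)) (baseT n (s.toks ++ t.toks)) (s.toks ++ t.toks) i tab
        zz).map irow)) ≤ 2 ^ SS n := by
  classical
  have hfact : Fact (bval e + 2).Prime := ⟨hp⟩
  have hsz : s.sz + t.sz ≤ n := (Nat.add_le_add (sz_le s) (sz_le t)).trans hn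
  have hF : FamC (Wn s t) n (s.sz + t.sz) (exF s t) := fam_exF hn
  have hM := baseT_mb (s := s) (t := t) (n := n) hn
  obtain ⟨hB2, hBK⟩ := baseT_two (s := s) (t := t) (n := n) hn
  have hTl : (s.toks ++ t.toks).length = s.sz + t.sz := by
    rw [List.length_append, Tm.length_toks, Tm.length_toks]
  have hNl : (names (s.toks ++ t.toks)).length ≤ n := by
    have := StgC_names (s.toks ++ t.toks)
    omega
  have hNW : ∀ w ∈ Wn s t, w ∈ names (s.toks ++ t.toks) := fun w hw => List.mem_toFinset.1 hw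
  have hMn : 2 ^ (wt s + wt t) ≤ bval (Mn n) := by
    rw [bval_Mn]
    exact Nat.pow_le_pow_right two_pos (by omega)
  set N := names (s.toks ++ t.toks) with hN
  set T := s.toks ++ t.toks with hT
  set B := baseT n T with hBd
  have hL : i + 1 ≤ n := by omega
  have hr : 2 ^ vv n < bval e + 2 := by omega
  have hval : ∀ Z : List Bool, ∀ a ≤ i,
      Pool.Agent.TW.evr e (hrow e (Mn n) (vv n) (n + 1) n N B tab T i Z) a =
        hz (Wn s t) e (vv n) (n + 1) N B (tab.map irow) (exF s t) i Z a :=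
    fun Z a ha => hrow_val (W := Wn s t) Z s t hi hB2 hn hMn hc ha
  obtain ⟨S, D, m, hB⟩ := Pool.Agent.TC.exists_bas (L := i + 1) (m := (n + 3) ^ 3)
    (rel_iff hF hM (Nat.succ_le_of_lt hi))
    (fun a ha g => cn_bound hF hM (Nat.succ_le_of_lt hi) ha g) (Pool.Agent.TC.NB_le hL)
  set F : Finset ({a // a ∈ S} → ZMod (bval e + 2)) := Finset.univ.filter fun ψ => ψ ≠ 0 with hFd
  have h1 : cnt (SS n) (fun zz => ¬ Fai (lv s t) (i + 1)
      ((nxt n e N B T i tab zz).map irow)) ≤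
      cnt (SS n) (fun zz => ∃ ψ ∈ F, ∀ j < Rr n,
        StgC_Q (Wn s t) n e N B tab (exF s t) i S (StgC_ext S ψ) (bl (Qw n * vv n) zz j)) := by
    refine Pool.Agent.TW.cnt_mono fun zz _ hz => ?_
    by_contra hcon
    push Not at hcon
    refine hz ?_
    unfold nxt
    refine Pool.Agent.TC.fai_ltab (D := D) (S := S) (n := m)
      (B := fun a => (cn (Wn s t) B.length (muB B) (exF s t) (i + 1) a).coeff)
      ?_ ?_ hp ?_ ?_ ?_ ?_ _ ?_ ?_ ?_
    · rw [Pool.Agent.TW.bval_pow2]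
      exact Nat.one_le_two_pow
    · rw [Pool.Agent.TW.bval_pow2]
      exact hB
    · exact Pool.Agent.TC.par_k he2
    · rw [Pool.Agent.TW.bval_pow2]
      exact Pool.Agent.TC.par_N hr
    · rw [Pool.Agent.TW.bval_pow2, Pool.Agent.TW.bval_pow2]
      exact Pool.Agent.TC.par_P hL
    · rw [Pool.Agent.TW.bval_pow2, Pool.Agent.TW.bval_pow2]
      exact Pool.Agent.TC.par_Pr hr
    · intro v hv
      obtain ⟨j, -, rfl⟩ := List.mem_map.1 hv
      rw [hrow_length]
      rw [hTl]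
      exact Nat.succ_le_of_lt hi
    · intro v hv κ hκ
      obtain ⟨j, -, rfl⟩ := List.mem_map.1 hv
      refine Eq.trans (Finset.sum_congr rfl fun a ha => ?_)
        (hz_rel (N := N) (v := vv n) (c := n + 1) (Z := bl (Qw n * vv n) zz j) hF hM hi hc κ hκ)
      rw [hval _ a (Nat.lt_succ_iff.1 (mem_range.1 ha))]
    · intro θ hθ1 hθ2
      have hψ : StgC_ext S (fun a => θ a.1) = θ := by
        funext a
        unfold StgC_ext
        split_ifs with ha
        · rfl
        · exact (hθ1 a ha).symm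
      by_contra hne
      push Not at hne
      obtain ⟨a, ha⟩ := hne
      have haS : a ∈ S := by
        by_contra h2
        exact ha (hθ1 a h2)
      obtain ⟨j, hj, hj2⟩ := hcon (fun a => θ a.1) (by
        rw [hFd, Finset.mem_filter]
        refine ⟨Finset.mem_univ _, fun h2 => ha ?_⟩
        exact congrFun h2 ⟨a, haS⟩)
      refine hj2 ?_
      rw [hψ]
      unfold StgC_Q
      have h3 := hθ2 _ (List.mem_map_of_mem (f := fun j =>
        hrow e (Mn n) (vv n) (n + 1) n N B tab T i (bl (Qw n * vv n) zz j)) (List.mem_range.2 hj))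
      refine Eq.trans (Finset.sum_congr rfl fun a ha => ?_) h3
      rw [hval _ a (Nat.lt_succ_iff.1 (mem_range.1 (hB.sub ha)))]
  have h2 := Pool.Agent.TW.cnt_exists (m := SS n) F (fun ψ zz => ∀ j < Rr n,
        StgC_Q (Wn s t) n e N B tab (exF s t) i S (StgC_ext S ψ) (bl (Qw n * vv n) zz j))
  have h3 : ∀ ψ ∈ F, (2 ^ vv n) ^ Rr n * cnt (SS n) (fun zz => ∀ j < Rr n,
        StgC_Q (Wn s t) n e N B tab (exF s t) i S (StgC_ext S ψ) (bl (Qw n * vv n) zz j)) ≤
      Aa n ^ Rr n * 2 ^ SS n := by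
    intro ψ hψ
    have h4 : ∃ a ∈ S, StgC_ext S ψ a ≠ 0 := by
      by_contra h5
      push Not at h5
      rw [hFd, Finset.mem_filter] at hψ
      refine hψ.2 ?_
      funext a
      have h6 := h5 a.1 a.2
      unfold StgC_ext at h6
      rw [dif_pos a.2] at h6
      exact h6
    have h5 := StgC_one hF hi he hp hNl hNW hBK hc hf hP hl hB (StgC_ext S ψ) h4
    have h6 : cnt (SS n) (fun zz => ∀ j < Rr n,
        StgC_Q (Wn s t) n e N B tab (exF s t) i S (StgC_ext S ψ) (bl (Qw n * vv n) zz j)) =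
        cnt (Qw n * vv n) (StgC_Q (Wn s t) n e N B tab (exF s t) i S (StgC_ext S ψ)) ^ Rr n :=
      StgC_blk n (StgC_Q (Wn s t) n e N B tab (exF s t) i S (StgC_ext S ψ))
    rw [h6, ← mul_pow]
    refine (Nat.pow_le_pow_left h5 _).trans (le_of_eq ?_)
    rw [mul_pow]
    congr 1
    rw [StgC_SS, ← pow_mul, ← pow_mul]
    congr 1
    ring
  have h4 : F.card ≤ (bval e + 2) ^ n := by
    refine (Finset.card_le_univ _).trans ?_
    rw [Fintype.card_fun, ZMod.card, Fintype.card_coe]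
    refine Nat.pow_le_pow_right (by omega) ?_
    have h5 := Finset.card_le_card hB.sub
    rw [card_range] at h5
    omega
  have h5 := par_union (n := n) (r := bval e + 2) (by omega)
  have h6 : (2 ^ vv n) ^ Rr n * cnt (SS n) (fun zz => ¬ Fai (lv s t) (i + 1)
      ((nxt n e N B T i tab zz).map irow)) ≤
      (bval e + 2) ^ n * (Aa n ^ Rr n * 2 ^ SS n) := by
    refine (Nat.mul_le_mul_left _ (h1.trans h2)).trans ?_
    rw [Finset.mul_sum]
    refine (Finset.sum_le_card_nsmul _ _ _ h3).trans ?_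
    rw [smul_eq_mul]
    exact Nat.mul_le_mul_right _ h4
  have h7 : 0 < (2 ^ vv n) ^ Rr n := by positivity
  refine Nat.le_of_mul_le_mul_left ?_ h7
  calc (2 ^ vv n) ^ Rr n * (8 * (n + 1) * cnt (SS n) (fun zz => ¬ Fai (lv s t) (i + 1)
      ((nxt n e N B T i tab zz).map irow))) =
      8 * (n + 1) * ((2 ^ vv n) ^ Rr n * cnt (SS n) (fun zz => ¬ Fai (lv s t) (i + 1)
      ((nxt n e N B T i tab zz).map irow))) := by ring
    _ ≤ 8 * (n + 1) * ((bval e + 2) ^ n * (Aa n ^ Rr n * 2 ^ SS n)) := Nat.mul_le_mul_left _ h6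
    _ = 8 * (n + 1) * ((bval e + 2) ^ n * Aa n ^ Rr n) * 2 ^ SS n := by ring
    _ ≤ (2 ^ vv n) ^ Rr n * 2 ^ SS n := Nat.mul_le_mul_right _ h5

end Pool.Agent.TD
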